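import Pool.Agent.H87.EP.A

/-
ROW El_C. The weights. Aux lemmas prefixed C_ .
`ph L a s = (1 + (s-a)²/L²)⁻¹`, `ph' = - 2 (s-a)/L² ph²`, `|2 t/(1+t²)²| ≤ 1/(1+t²)` : `|ph'| ≤ ph / L`; `|ph''| ≤ 10 ph / L²` not needed here.
`x ↦ ph L a (x 2)` is smooth with all derivatives bounded by `C_n ph` ; `c1 ^ 4` is smooth, rotation invariant, bounded with all derivatives, zero for `rsq x ≥ 1/2`; the product is square integrable with all
derivatives (`∫ ph² < ∞` on a line, compact support in `(x 0, x 1)`): prove `DB n` by induction for functions `g (rsq x) * h (x 2)` with `g` smooth, zero beyond `1/2`, `h` smooth with `|h^(k)| ≤ C_k (1 + s²)⁻¹` for all `k`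
(`pd 0 (g(rsq x) h(x 2)) = 2 x₀ g'(rsq x) h(x 2)`: enlarge the class to `P(x 0, x 1) g(rsq x) h(x 2)` with monomials `P`, or use: a smooth function with `|iteratedFDeriv n| ≤ C_n 1_{rsq ≤ 1/2} (1 + x₂²)⁻¹`).
`dh (A1) x = 2 (c1⁴)'(rsq) ph`: with `c1 x = S (2 - 4 rsq x)`, `S = Real.smoothTransition`, `(1/r) ∂_r (c1⁴) = 4 c1³ · 2 S'(2 - 4 rsq) (-4) = -32 c1³ S'` (dh_uniq or rdr_eq), `S' ≥ 0` (monotone), `S'` bounded (Cut_bd),
`S' = 0` unless `0 ≤ 2 - 4 rsq ≤ 1`.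
-/

set_option autoImplicit false

open Set Filter Topology MeasureTheory
open scoped ContDiff

namespace Pool.Agent.H87.EP

open Pool.Agent.H16 Pool.Agent.H87.NS Pool.Agent.H72.CC Pool.Agent.H16.TU Pool.Agent.H94.EP

theorem C_base (L a s : ℝ) : 0 < 1 + (s - a) ^ 2 / L ^ 2 := by positivity

theorem ph_pos (L a s : ℝ) : 0 < ph L a s := inv_pos.2 (C_base L a s)

theorem ph_le (L a s : ℝ) : ph L a s ≤ 1 := by
  apply inv_le_one_of_one_le₀
  have : 0 ≤ (s - a) ^ 2 / L ^ 2 := by positivity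
  linarith

/-- Near the centre the weight is at least `1/2`. -/
theorem ph_half {L a s : ℝ} (hL : 0 < L) (h : |s - a| ≤ L) : 1 / 2 ≤ ph L a s := by
  unfold ph
  rw [← one_div]
  apply one_div_le_one_div_of_le (C_base L a s)
  have h1 : (s - a) ^ 2 ≤ L ^ 2 := sq_le_sq' (by linarith [(abs_le.1 h).1]) (abs_le.1 h).2
  have h2 : (s - a) ^ 2 / L ^ 2 ≤ 1 := by
    rw [div_le_one (by positivity)]
    exact h1
  linarith

theorem ph_smooth (L a : ℝ) : ContDiff ℝ ∞ (ph L a) := by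
  unfold ph
  apply ContDiff.inv
  · exact contDiff_const.add (((contDiff_id.sub contDiff_const).pow 2).div_const _)
  · intro s
    exact (C_base L a s).ne'

theorem C_hasDeriv (L a s : ℝ) : HasDerivAt (ph L a) (-(2 * (s - a) / L ^ 2) * ph L a s ^ 2) s := by
  have h1 : HasDerivAt (fun s : ℝ => 1 + (s - a) ^ 2 / L ^ 2) (2 * (s - a) / L ^ 2) s := by
    have h2 := (((hasDerivAt_id s).sub_const a).pow 2).div_const (L ^ 2)
    have h3 : HasDerivAt (fun s : ℝ => 1 + (s - a) ^ 2 / L ^ 2) _ s := h2.const_add 1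
    refine h3.congr_deriv ?_
    simp
  have h4 : HasDerivAt (ph L a) _ s := h1.inv (C_base L a s).ne'
  refine h4.congr_deriv ?_
  unfold ph
  rw [inv_pow]
  ring

theorem C_two (t : ℝ) : |2 * t| ≤ 1 + t ^ 2 := by
  rw [abs_le]
  constructor <;> nlinarith [sq_nonneg (t + 1), sq_nonneg (t - 1)]

theorem ph_deriv {L : ℝ} (hL : 0 < L) (a s : ℝ) : |deriv (ph L a) s| ≤ ph L a s / L := by
  rw [(C_hasDeriv L a s).deriv]
  have hp := ph_pos L a s
  have h1 : -(2 * (s - a) / L ^ 2) * ph L a s ^ 2 = -(2 * ((s - a) / L) * ph L a s) * (ph L a s / L) := by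
    field_simp
  rw [h1, abs_mul, abs_neg, abs_mul, abs_of_pos hp, abs_of_pos (by positivity : 0 < ph L a s / L)]
  have h2 : |2 * ((s - a) / L)| * ph L a s ≤ 1 := by
    have h3 := C_two ((s - a) / L)
    have h4 : ph L a s = (1 + ((s - a) / L) ^ 2)⁻¹ := by
      unfold ph
      rw [div_pow]
    rw [h4]
    rw [← div_eq_mul_inv, div_le_one (by positivity)]
    exact h3
  calc |2 * ((s - a) / L)| * ph L a s * (ph L a s / L) ≤ 1 * (ph L a s / L) :=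
        mul_le_mul_of_nonneg_right h2 (by positivity)
    _ = ph L a s / L := one_mul _

theorem ph_shift {L : ℝ} (hL : 1 ≤ L) (a s h : ℝ) (hh : |h| ≤ 1) : ph L a (s + h) ≤ 3 * ph L a s := by
  have hL0 : 0 < L := by linarith
  unfold ph
  rw [← div_pow, ← div_pow]
  have e1 : (s + h - a) / L = (s - a) / L + h / L := by ring
  rw [e1]
  obtain ⟨t, ht⟩ : ∃ t, t = (s - a) / L := ⟨_, rfl⟩
  obtain ⟨d, hd⟩ : ∃ d, d = h / L := ⟨_, rfl⟩
  rw [← ht, ← hd]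
  have hd1 : |d| ≤ 1 := by
    rw [hd, abs_div, abs_of_pos hL0, div_le_one hL0]
    linarith
  have hd2 : d ^ 2 ≤ 1 := by
    rw [← sq_abs]
    nlinarith [abs_nonneg d]
  rw [← div_eq_mul_inv, ← one_div, div_le_div_iff₀ (by positivity) (by positivity)]
  nlinarith [sq_nonneg (t + d), sq_nonneg (t + 2 * d)]

theorem ph_int {L : ℝ} (hL : 1 ≤ L) (a : ℝ) : Integrable (ph L a) ∧ ∫ s, ph L a s ≤ 4 * L := by
  have hL0 : 0 < L := by linarith
  have e1 : ph L a = fun s => (fun t : ℝ => (1 + t ^ 2)⁻¹) ((s - a) / L) := by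
    funext s
    show (1 + (s - a) ^ 2 / L ^ 2)⁻¹ = (1 + ((s - a) / L) ^ 2)⁻¹
    rw [div_pow]
  constructor
  · rw [e1]
    have h1 : Integrable (fun t : ℝ => (1 + t ^ 2)⁻¹) := integrable_inv_one_add_sq
    have h2 := (h1.comp_div hL0.ne').comp_sub_right a
    exact h2
  · rw [e1]
    have h3 : ∫ s : ℝ, (fun t : ℝ => (1 + t ^ 2)⁻¹) ((s - a) / L) = ∫ s : ℝ, (fun t : ℝ => (1 + t ^ 2)⁻¹) (s / L) :=
      integral_sub_right_eq_self (fun s : ℝ => (fun t : ℝ => (1 + t ^ 2)⁻¹) (s / L)) a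
    rw [h3, Measure.integral_comp_div (fun t : ℝ => (1 + t ^ 2)⁻¹) L, integral_univ_inv_one_add_sq,
      abs_of_pos hL0, smul_eq_mul]
    nlinarith [Real.pi_le_four]

theorem c1_facts (x : E3) : 0 ≤ c1 x ∧ c1 x ≤ 1 ∧ (rsq x ≤ 1 / 4 → c1 x = 1) ∧ (1 / 2 ≤ rsq x → c1 x = 0) := by
  refine ⟨Real.smoothTransition.nonneg _, Real.smoothTransition.le_one _, fun h => ?_, fun h => ?_⟩
  · exact Real.smoothTransition.one_of_one_le (by linarith)
  · exact Real.smoothTransition.zero_of_nonpos (by linarith)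

theorem A1_nn (L a : ℝ) (x : E3) : 0 ≤ A1 L a x ∧ A1 L a x ≤ ph L a (x 2) := by
  obtain ⟨h0, h1, -, -⟩ := c1_facts x
  have hp := ph_pos L a (x 2)
  constructor
  · exact mul_nonneg (pow_nonneg h0 4) hp.le
  · unfold A1
    calc c1 x ^ 4 * ph L a (x 2) ≤ 1 * ph L a (x 2) :=
          mul_le_mul_of_nonneg_right (pow_le_one₀ h0 h1) hp.le
      _ = ph L a (x 2) := one_mul _

theorem A1_one (L a : ℝ) {x : E3} (h : rsq x ≤ 1 / 4) : A1 L a x = ph L a (x 2) := by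
  unfold A1
  rw [(c1_facts x).2.2.1 h]
  ring

theorem A1_zero (L a : ℝ) {x : E3} (h : 1 / 2 ≤ rsq x) : A1 L a x = 0 := by
  unfold A1
  rw [(c1_facts x).2.2.2 h]
  ring

/-! ### Derivatives of the height weight -/

/-- linear combinations of the functions `t^j (1+t²)^{-m}`, `j ≤ 2 m - 2`, `t = (s - a) / L` -/
inductive C_K (L a : ℝ) : (ℝ → ℝ) → Prop
  | mono (j m : ℕ) (h : j + 2 ≤ 2 * m) : C_K L a (fun s => ((s - a) / L) ^ j * ph L a s ^ m)
  | add {f g : ℝ → ℝ} (hf : C_K L a f) (hg : C_K L a g) : C_K L a (fun s => f s + g s)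
  | smul (c : ℝ) {f : ℝ → ℝ} (hf : C_K L a f) : C_K L a (fun s => c * f s)

theorem C_monoD (L a : ℝ) {j m : ℕ} (h : j + 2 ≤ 2 * m) (s : ℝ) :
    HasDerivAt (fun s => ((s - a) / L) ^ j * ph L a s ^ m)
      ((j / L) * (((s - a) / L) ^ (j - 1) * ph L a s ^ m) +
        (-(2 * m) / L) * (((s - a) / L) ^ (j + 1) * ph L a s ^ (m + 1))) s := by
  have h1 : HasDerivAt (fun s : ℝ => ((s - a) / L) ^ j) (j * ((s - a) / L) ^ (j - 1) * (1 / L)) s :=
    (((hasDerivAt_id s).sub_const a).div_const L).pow j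
  have h2 : HasDerivAt (fun s : ℝ => ph L a s ^ m)
      (m * ph L a s ^ (m - 1) * (-(2 * (s - a) / L ^ 2) * ph L a s ^ 2)) s :=
    (C_hasDeriv L a s).pow m
  refine (h1.mul h2).congr_deriv ?_
  obtain ⟨k, rfl⟩ : ∃ k, m = k + 1 := ⟨m - 1, by omega⟩
  rw [Nat.add_sub_cancel]
  push_cast
  ring

theorem C_K_diff {L a : ℝ} {f : ℝ → ℝ} (hf : C_K L a f) : Differentiable ℝ f := by
  induction hf with
  | mono j m h => exact fun s => (C_monoD L a h s).differentiableAt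
  | add _ _ h1 h2 => exact h1.add h2
  | smul c _ h => exact h.const_mul c

theorem C_K_deriv {L a : ℝ} {f : ℝ → ℝ} (hf : C_K L a f) : C_K L a (deriv f) := by
  induction hf with
  | mono j m h =>
    have e1 : deriv (fun s => ((s - a) / L) ^ j * ph L a s ^ m) = fun s =>
        (j / L) * (((s - a) / L) ^ (j - 1) * ph L a s ^ m) +
        (-(2 * m) / L) * (((s - a) / L) ^ (j + 1) * ph L a s ^ (m + 1)) :=
      funext fun s => (C_monoD L a h s).deriv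
    rw [e1]
    exact C_K.add (C_K.smul _ (C_K.mono (j - 1) m (by omega)))
      (C_K.smul _ (C_K.mono (j + 1) (m + 1) (by omega)))
  | @add f g hf hg h1 h2 =>
    have e1 : deriv (fun s => f s + g s) = fun s => deriv f s + deriv g s :=
      funext fun s => deriv_fun_add (C_K_diff hf s) (C_K_diff hg s)
    rw [e1]
    exact C_K.add h1 h2
  | @smul c f hf h =>
    have e1 : deriv (fun s => c * f s) = fun s => c * deriv f s :=
      funext fun s => deriv_const_mul c (C_K_diff hf s)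
    rw [e1]
    exact C_K.smul c h

theorem C_K_bd {L a : ℝ} {f : ℝ → ℝ} (hf : C_K L a f) : ∃ C : ℝ, 0 ≤ C ∧ ∀ s, |f s| ≤ C * ph L a s := by
  induction hf with
  | mono j m h =>
    refine ⟨1, zero_le_one, fun s => ?_⟩
    obtain ⟨k, rfl⟩ : ∃ k, m = k + 1 := ⟨m - 1, by omega⟩
    have hp := ph_pos L a s
    obtain ⟨t, ht⟩ : ∃ t, t = (s - a) / L := ⟨_, rfl⟩
    have hph : ph L a s = (1 + t ^ 2)⁻¹ := by
      unfold ph
      rw [ht, div_pow]
    show |((s - a) / L) ^ j * ph L a s ^ (k + 1)| ≤ 1 * ph L a s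
    rw [← ht, abs_mul, abs_pow, abs_pow, abs_of_pos hp]
    have h1 : |t| ^ j ≤ (1 + t ^ 2) ^ k := by
      have hu0 : (0 : ℝ) ≤ 1 + t ^ 2 := by positivity
      have hu1 : |t| ≤ √(1 + t ^ 2) := Real.abs_le_sqrt (by linarith)
      have hu2 : 1 ≤ √(1 + t ^ 2) := by
        rw [Real.one_le_sqrt]
        linarith [sq_nonneg t]
      calc |t| ^ j ≤ √(1 + t ^ 2) ^ j := pow_le_pow_left₀ (abs_nonneg _) hu1 j
        _ ≤ √(1 + t ^ 2) ^ (2 * k) := pow_le_pow_right₀ hu2 (by omega)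
        _ = (1 + t ^ 2) ^ k := by rw [pow_mul, Real.sq_sqrt hu0]
    calc |t| ^ j * ph L a s ^ (k + 1) ≤ (1 + t ^ 2) ^ k * ph L a s ^ (k + 1) :=
          mul_le_mul_of_nonneg_right h1 (by positivity)
      _ = ((1 + t ^ 2) * ph L a s) ^ k * ph L a s := by rw [mul_pow]; ring
      _ = 1 * ph L a s := by
          rw [hph, mul_inv_cancel₀ (by positivity), one_pow]
  | @add f g _ _ h1 h2 =>
    obtain ⟨C1, hC1, h1⟩ := h1
    obtain ⟨C2, hC2, h2⟩ := h2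
    refine ⟨C1 + C2, add_nonneg hC1 hC2, fun s => ?_⟩
    calc |f s + g s| ≤ |f s| + |g s| := abs_add_le _ _
      _ ≤ (C1 + C2) * ph L a s := by
          rw [add_mul]
          exact add_le_add (h1 s) (h2 s)
  | @smul c f _ h =>
    obtain ⟨C, hC, h⟩ := h
    refine ⟨|c| * C, mul_nonneg (abs_nonneg _) hC, fun s => ?_⟩
    rw [abs_mul, mul_assoc]
    exact mul_le_mul_of_nonneg_left (h s) (abs_nonneg _)

theorem C_iter (L a : ℝ) (n : ℕ) : ∃ C : ℝ, 0 ≤ C ∧ ∀ s, |iteratedDeriv n (ph L a) s| ≤ C * ph L a s := by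
  have h0 : C_K L a (ph L a) := by
    have := C_K.mono (L := L) (a := a) 0 1 (by norm_num)
    simpa using this
  have h1 : C_K L a (iteratedDeriv n (ph L a)) := by
    induction n with
    | zero =>
      rw [iteratedDeriv_zero]
      exact h0
    | succ n ih =>
      rw [iteratedDeriv_succ]
      exact C_K_deriv ih
  exact C_K_bd h1

theorem C_projn (i : Fin 3) : ‖(EuclideanSpace.proj i : E3 →L[ℝ] ℝ)‖ ≤ 1 := by
  refine ContinuousLinearMap.opNorm_le_bound _ zero_le_one fun w => ?_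
  rw [one_mul]
  exact PiLp.norm_apply_le w i

theorem C_H (L a : ℝ) (n : ℕ) : ∃ C : ℝ, 0 ≤ C ∧
    ∀ x : E3, ‖iteratedFDeriv ℝ n (fun y : E3 => ph L a (y 2)) x‖ ≤ C * ph L a (x 2) := by
  obtain ⟨C, hC, h⟩ := C_iter L a n
  refine ⟨C, hC, fun x => ?_⟩
  have h1 := (EuclideanSpace.proj (2 : Fin 3) : E3 →L[ℝ] ℝ).iteratedFDeriv_comp_right
    (ph_smooth L a) x (i := n) (by exact_mod_cast le_top)
  have h2 : (fun y : E3 => ph L a (y 2)) = ph L a ∘ (EuclideanSpace.proj (2 : Fin 3) : E3 →L[ℝ] ℝ) := rfl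
  rw [h2, h1]
  refine (ContinuousMultilinearMap.norm_compContinuousLinearMap_le _ _).trans ?_
  have h3 : ‖iteratedFDeriv ℝ n (ph L a) ((EuclideanSpace.proj (2 : Fin 3) : E3 →L[ℝ] ℝ) x)‖ ≤ C * ph L a (x 2) := by
    rw [norm_iteratedFDeriv_eq_norm_iteratedDeriv, Real.norm_eq_abs]
    exact h _
  have h4 : ∏ _i : Fin n, ‖(EuclideanSpace.proj (2 : Fin 3) : E3 →L[ℝ] ℝ)‖ ≤ 1 :=
    Finset.prod_le_one (fun _ _ => norm_nonneg _) (fun _ _ => C_projn 2)
  calc ‖iteratedFDeriv ℝ n (ph L a) ((EuclideanSpace.proj (2 : Fin 3) : E3 →L[ℝ] ℝ) x)‖ *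
        ∏ _i : Fin n, ‖(EuclideanSpace.proj (2 : Fin 3) : E3 →L[ℝ] ℝ)‖
      ≤ ‖iteratedFDeriv ℝ n (ph L a) ((EuclideanSpace.proj (2 : Fin 3) : E3 →L[ℝ] ℝ) x)‖ * 1 :=
        mul_le_mul_of_nonneg_left h4 (norm_nonneg _)
    _ ≤ C * ph L a (x 2) := by rw [mul_one]; exact h3

/-! ### The horizontal cutoff -/

theorem C_rsq_smooth : ContDiff ℝ ∞ (fun x : E3 => rsq x) :=
  ((Cut_coord 0).pow 2).add ((Cut_coord 1).pow 2)

theorem C_H_smooth (L a : ℝ) : ContDiff ℝ ∞ (fun x : E3 => ph L a (x 2)) :=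
  (ph_smooth L a).comp (Cut_coord 2)

/-! ### General horizontal profiles -/

section general

variable {F : ℝ → ℝ} {R : ℝ}

theorem C_F_smooth (hF : ContDiff ℝ ∞ F) : ContDiff ℝ ∞ (fun x : E3 => F (rsq x)) := hF.comp C_rsq_smooth

theorem C_FH_smooth (hF : ContDiff ℝ ∞ F) (L a : ℝ) : ContDiff ℝ ∞ (fun x : E3 => F (rsq x) * ph L a (x 2)) :=
  (C_F_smooth hF).mul (C_H_smooth L a)

theorem C_FG0 (h0 : ∀ s, R ≤ s → F s = 0) (n : ℕ) {x : E3} (h : R < rsq x) :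
    iteratedFDeriv ℝ n (fun y : E3 => F (rsq y)) x = 0 := by
  have e1 : (fun y : E3 => F (rsq y)) =ᶠ[𝓝 x] fun _ => 0 := by
    have h1 : ∀ᶠ y in 𝓝 x, R < rsq y := C_rsq_smooth.continuous.continuousAt.eventually (lt_mem_nhds h)
    filter_upwards [h1] with y hy
    exact h0 _ hy.le
  rw [(e1.iteratedFDeriv ℝ n).eq_of_nhds]
  simp

theorem C_FG (hF : ContDiff ℝ ∞ F) (h0 : ∀ s, R ≤ s → F s = 0) (n : ℕ) : ∃ C : ℝ, 0 ≤ C ∧
    ∀ x : E3, ‖iteratedFDeriv ℝ n (fun y : E3 => F (rsq y)) x‖ ≤ C := by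
  have hc : Continuous (iteratedFDeriv ℝ n (fun y : E3 => F (rsq y))) :=
    (C_F_smooth hF).continuous_iteratedFDeriv (by exact_mod_cast le_top)
  obtain ⟨C, hC⟩ := (isCompact_closedBall (0 : E3) (|R| + 1)).exists_bound_of_continuousOn hc.continuousOn
  have hR := abs_nonneg R
  have hC0 : 0 ≤ C := (norm_nonneg _).trans (hC 0 (by
    rw [mem_closedBall_zero_iff, norm_zero]
    linarith))
  refine ⟨C, hC0, fun x => ?_⟩
  rcases lt_or_ge R (rsq x) with h | h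
  · rw [C_FG0 h0 n h, norm_zero]
    exact hC0
  · have e1 : (fun y : E3 => F (rsq y)) = fun y : E3 => F (rsq (y + (-(x 2)) • e 2)) := by
      funext y
      have : rsq (y + (-(x 2)) • e 2) = rsq y := by
        unfold rsq
        simp [e]
      rw [this]
    have e2 : iteratedFDeriv ℝ n (fun y : E3 => F (rsq y)) x =
        iteratedFDeriv ℝ n (fun y : E3 => F (rsq y)) (x + (-(x 2)) • e 2) := by
      conv_lhs => rw [e1]
      exact iteratedFDeriv_comp_add_right n (f := fun y : E3 => F (rsq y)) ((-(x 2)) • e 2) x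
    rw [e2]
    apply hC
    rw [mem_closedBall_zero_iff]
    have h3 : ‖x + (-(x 2)) • e 2‖ ^ 2 ≤ (|R| + 1) ^ 2 := by
      rw [Cut_nsq]
      have a0 : (x + (-(x 2)) • e 2) 0 = x 0 := by simp [e]
      have a1 : (x + (-(x 2)) • e 2) 1 = x 1 := by simp [e]
      have a2 : (x + (-(x 2)) • e 2) 2 = 0 := by simp [e]
      rw [a0, a1, a2]
      unfold rsq at h
      nlinarith only [le_abs_self R, hR, h]
    exact (pow_le_pow_iff_left₀ (norm_nonneg _) (by positivity) two_ne_zero).1 h3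

theorem C_dec (hF : ContDiff ℝ ∞ F) (h0 : ∀ s, R ≤ s → F s = 0) (L a : ℝ) (n : ℕ) : ∃ M : ℝ, 0 ≤ M ∧ ∀ x : E3,
    ‖iteratedFDeriv ℝ n (fun y : E3 => F (rsq y) * ph L a (y 2)) x‖ ≤ M * ph L a (x 2) ∧
      (R < rsq x → ‖iteratedFDeriv ℝ n (fun y : E3 => F (rsq y) * ph L a (y 2)) x‖ = 0) := by
  choose CG hG0 hG using C_FG hF h0
  choose CH hH0 hH using C_H L a
  refine ⟨∑ i ∈ Finset.range (n + 1), (n.choose i : ℝ) * CG i * CH (n - i),
    Finset.sum_nonneg fun i _ => mul_nonneg (mul_nonneg (by positivity) (hG0 i)) (hH0 _), fun x => ?_⟩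
  have h1 : ‖iteratedFDeriv ℝ n (fun y : E3 => F (rsq y) * ph L a (y 2)) x‖ ≤
      ∑ i ∈ Finset.range (n + 1), (n.choose i : ℝ) *
      ‖iteratedFDeriv ℝ i (fun y : E3 => F (rsq y)) x‖ * ‖iteratedFDeriv ℝ (n - i) (fun y : E3 => ph L a (y 2)) x‖ :=
    norm_iteratedFDeriv_mul_le (C_F_smooth hF) (C_H_smooth L a) x (by exact_mod_cast le_top)
  constructor
  · refine h1.trans ?_
    rw [Finset.sum_mul]
    apply Finset.sum_le_sum
    intro i _
    have h2 := hG i x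
    have h3 := hH (n - i) x
    calc (n.choose i : ℝ) * ‖iteratedFDeriv ℝ i (fun y : E3 => F (rsq y)) x‖ *
          ‖iteratedFDeriv ℝ (n - i) (fun y : E3 => ph L a (y 2)) x‖
        ≤ (n.choose i : ℝ) * CG i * (CH (n - i) * ph L a (x 2)) := by
          apply mul_le_mul _ h3 (norm_nonneg _) (mul_nonneg (by positivity) (hG0 i))
          exact mul_le_mul_of_nonneg_left h2 (by positivity)
      _ = (n.choose i : ℝ) * CG i * CH (n - i) * ph L a (x 2) := by ring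
  · intro hx
    apply le_antisymm _ (norm_nonneg _)
    refine h1.trans (le_of_eq ?_)
    apply Finset.sum_eq_zero
    intro i _
    rw [C_FG0 h0 i hx, norm_zero, mul_zero, zero_mul]

theorem C_pt {L : ℝ} (hL : 1 ≤ L) (a : ℝ) {x : E3} (hx : rsq x ≤ R) :
    ph L a (x 2) ^ 2 ≤ 4 * (1 + |R|) ^ 2 * (1 + 2 * a ^ 2 + 2 * L ^ 2) ^ 2 * (1 + ‖x‖) ^ (-4 : ℝ) := by
  have hL0 : 0 < L := by linarith
  obtain ⟨s, hs⟩ : ∃ s, s = x 2 := ⟨_, rfl⟩
  obtain ⟨q, hq⟩ : ∃ q, q = 1 + (s - a) ^ 2 / L ^ 2 := ⟨_, rfl⟩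
  obtain ⟨K, hK⟩ : ∃ K, K = 1 + 2 * a ^ 2 + 2 * L ^ 2 := ⟨_, rfl⟩
  obtain ⟨r, hr⟩ : ∃ r, r = |R| := ⟨_, rfl⟩
  have hr0 : 0 ≤ r := hr ▸ abs_nonneg R
  have hRr : R ≤ r := hr ▸ le_abs_self R
  have hq0 : 0 < q := by rw [hq]; positivity
  have hK0 : 0 < K := by rw [hK]; positivity
  have hph : ph L a (x 2) = q⁻¹ := by
    unfold ph
    rw [hq, hs]
  have h1 : 1 + s ^ 2 ≤ K * q := by
    have h2 : L ^ 2 * ((s - a) ^ 2 / L ^ 2) = (s - a) ^ 2 := by field_simp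
    have h3 : 0 ≤ (s - a) ^ 2 / L ^ 2 := by positivity
    rw [hK, hq]
    nlinarith only [sq_nonneg (s - 2 * a), sq_nonneg a, mul_nonneg (sq_nonneg a) h3, h2, h3]
  have hn : ‖x‖ ^ 2 ≤ r + s ^ 2 := by
    rw [Cut_nsq, hs]
    unfold rsq at hx
    linarith
  have hn0 := norm_nonneg x
  have h4 : (1 + ‖x‖) ^ 2 ≤ 2 * (1 + r) * (K * q) := by
    have h5 : (1 + ‖x‖) ^ 2 ≤ 2 * (1 + r) * (1 + s ^ 2) := by
      linarith only [sq_nonneg (1 - ‖x‖), mul_nonneg hr0 (sq_nonneg s), hr0, hn]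
    exact h5.trans (mul_le_mul_of_nonneg_left h1 (by positivity))
  have h5 : (1 + ‖x‖) ^ 4 ≤ 4 * (1 + r) ^ 2 * K ^ 2 * q ^ 2 := by
    calc (1 + ‖x‖) ^ 4 = ((1 + ‖x‖) ^ 2) ^ 2 := by ring
      _ ≤ (2 * (1 + r) * (K * q)) ^ 2 := pow_le_pow_left₀ (by positivity) h4 2
      _ = 4 * (1 + r) ^ 2 * K ^ 2 * q ^ 2 := by ring
  rw [hph, ← hK, ← hr]
  have h6 : (1 + ‖x‖) ^ (-4 : ℝ) = ((1 + ‖x‖) ^ 4)⁻¹ := by
    rw [Real.rpow_neg (by positivity)]
    norm_cast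
  rw [h6, inv_pow, ← one_div, ← div_eq_mul_inv, div_le_div_iff₀ (by positivity) (by positivity)]
  linarith

theorem C_int (hF : ContDiff ℝ ∞ F) (h0 : ∀ s, R ≤ s → F s = 0) {L : ℝ} (hL : 1 ≤ L) (a : ℝ) (n : ℕ) :
    ∃ K : ℝ, 0 ≤ K ∧ (∀ x, ‖iteratedFDeriv ℝ n (fun y : E3 => F (rsq y) * ph L a (y 2)) x‖ ≤ K) ∧
    Integrable (fun x => ‖iteratedFDeriv ℝ n (fun y : E3 => F (rsq y) * ph L a (y 2)) x‖ ^ 2) ∧
    ∫ x, ‖iteratedFDeriv ℝ n (fun y : E3 => F (rsq y) * ph L a (y 2)) x‖ ^ 2 ≤ K := by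
  obtain ⟨M, hM, h⟩ := C_dec hF h0 L a n
  have hI0 : Integrable (fun x : E3 => (1 + ‖x‖) ^ (-4 : ℝ)) := by
    apply integrable_one_add_norm
    simp
    norm_num
  have hI1 : Integrable (fun x : E3 =>
      M ^ 2 * (4 * (1 + |R|) ^ 2 * (1 + 2 * a ^ 2 + 2 * L ^ 2) ^ 2 * (1 + ‖x‖) ^ (-4 : ℝ))) :=
    (hI0.const_mul _).const_mul _
  have hle : ∀ x : E3, ‖iteratedFDeriv ℝ n (fun y : E3 => F (rsq y) * ph L a (y 2)) x‖ ^ 2 ≤
      M ^ 2 * (4 * (1 + |R|) ^ 2 * (1 + 2 * a ^ 2 + 2 * L ^ 2) ^ 2 * (1 + ‖x‖) ^ (-4 : ℝ)) := by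
    intro x
    rcases lt_or_ge R (rsq x) with hx | hx
    · rw [(h x).2 hx]
      have : (0 : ℝ) < (1 + ‖x‖) ^ (-4 : ℝ) := Real.rpow_pos_of_pos (by positivity) _
      rw [zero_pow two_ne_zero]
      positivity
    · calc ‖iteratedFDeriv ℝ n (fun y : E3 => F (rsq y) * ph L a (y 2)) x‖ ^ 2 ≤ (M * ph L a (x 2)) ^ 2 :=
            pow_le_pow_left₀ (norm_nonneg _) (h x).1 2
        _ = M ^ 2 * ph L a (x 2) ^ 2 := by ring
        _ ≤ _ := mul_le_mul_of_nonneg_left (C_pt hL a hx) (sq_nonneg M)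
  have hI : Integrable (fun x => ‖iteratedFDeriv ℝ n (fun y : E3 => F (rsq y) * ph L a (y 2)) x‖ ^ 2) := by
    refine hI1.mono' (RegDB_cont (C_FH_smooth hF L a) n).aestronglyMeasurable (Eventually.of_forall fun x => ?_)
    rw [Real.norm_of_nonneg (by positivity)]
    exact hle x
  have hK0 : 0 ≤ ∫ x, ‖iteratedFDeriv ℝ n (fun y : E3 => F (rsq y) * ph L a (y 2)) x‖ ^ 2 :=
    integral_nonneg fun x => by positivity
  refine ⟨M + ∫ x, ‖iteratedFDeriv ℝ n (fun y : E3 => F (rsq y) * ph L a (y 2)) x‖ ^ 2, by linarith,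
    fun x => ?_, hI, by linarith⟩
  have h1 := (h x).1
  have h2 := mul_le_mul_of_nonneg_left (ph_le L a (x 2)) hM
  linarith

theorem C_DB (hF : ContDiff ℝ ∞ F) (h0 : ∀ s, R ≤ s → F s = 0) {L : ℝ} (hL : 1 ≤ L) (a : ℝ) (N : ℕ) :
    ∃ B : ℝ, DB N B (fun y : E3 => F (rsq y) * ph L a (y 2)) := by
  choose K hK0 hK1 hK2 hK3 using C_int hF h0 hL a
  refine ⟨∑ n ∈ Finset.range (N + 1), K n, RegDB_scal N (C_FH_smooth hF L a) fun n hn => ?_⟩
  have h1 : K n ≤ ∑ n ∈ Finset.range (N + 1), K n :=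
    Finset.single_le_sum (f := K) (fun i _ => hK0 i) (Finset.mem_range.2 (by omega))
  exact ⟨fun x => (hK1 n x).trans h1, hK2 n, (hK3 n).trans h1⟩

/-- Weights `F (r²) ph L a (x₂)`, `F` smooth and zero beyond `R`. -/
theorem F_ri {L : ℝ} (hL : 1 ≤ L) (a : ℝ) {F : ℝ → ℝ} (hF : ContDiff ℝ ∞ F) {R : ℝ} (h0 : ∀ s, R ≤ s → F s = 0) :
    Ri (fun x => F (rsq x) * ph L a (x 2)) := by
  refine ⟨C_FH_smooth hF L a, fun θ x => ?_, C_DB hF h0 hL a⟩
  have h1 : rsq (rot θ x) = rsq x := by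
    unfold rsq
    rw [rot_zero', rot_one']
    linear_combination (x 0 ^ 2 + x 1 ^ 2) * Real.sin_sq_add_cos_sq θ
  rw [h1, rot_two']

end general

theorem C_A1_eq (L a : ℝ) : A1 L a = fun x => (fun s => Real.smoothTransition (2 - 4 * s) ^ 4) (rsq x) * ph L a (x 2) := rfl

theorem C_F1_smooth : ContDiff ℝ ∞ (fun s : ℝ => Real.smoothTransition (2 - 4 * s) ^ 4) :=
  (Real.smoothTransition.contDiff.comp (contDiff_const.sub (contDiff_const.mul contDiff_id))).pow 4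

theorem C_F1_zero (s : ℝ) (hs : 1 / 2 ≤ s) : Real.smoothTransition (2 - 4 * s) ^ 4 = 0 := by
  rw [Real.smoothTransition.zero_of_nonpos (by linarith)]
  norm_num

theorem A1_ri {L : ℝ} (hL : 1 ≤ L) (a : ℝ) : Ri (A1 L a) := F_ri hL a C_F1_smooth C_F1_zero

/-! ### First derivatives -/

theorem C_pd {f : E3 → ℝ} (hf : ContDiff ℝ ∞ f) (i : Fin 3) (x : E3) {d : ℝ}
    (h : HasDerivAt (fun s : ℝ => f (x + s • e i)) d 0) : pd i f x = d := by
  have hd : DifferentiableAt ℝ f (x + (0 : ℝ) • e i) := (hf.differentiable (by simp)) _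
  have h1 : HasDerivAt (fun s : ℝ => f (x + s • e i)) (fderiv ℝ f (x + (0 : ℝ) • e i) (e i)) 0 :=
    hd.hasFDerivAt.comp_hasDerivAt (0 : ℝ) (hasDerivAt_line x i 0)
  have h2 := h1.unique h
  rw [zero_smul, add_zero] at h2
  exact h2

theorem C_z (x : E3) (i : Fin 3) (h : i = 0 ∨ i = 1) (s : ℝ) : (x + s • e i) 2 = x 2 := by
  rcases h with rfl | rfl <;> simp [e]

theorem F_pd2 {F : ℝ → ℝ} (hF : ContDiff ℝ ∞ F) (L a : ℝ) (x : E3) :
    pd 2 (fun x => F (rsq x) * ph L a (x 2)) x = F (rsq x) * deriv (ph L a) (x 2) := by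
  apply C_pd (C_FH_smooth hF L a) 2 x
  have e1 : (fun s : ℝ => F (rsq (x + s • e 2)) * ph L a ((x + s • e 2) 2)) = fun s : ℝ =>
      F (rsq x) * ph L a (x 2 + s) := by
    funext s
    have a0 : rsq (x + s • e 2) = rsq x := by
      unfold rsq
      simp [e]
    have a2 : (x + s • e 2) 2 = x 2 + s := by simp [e]
    rw [a0, a2]
  rw [e1]
  apply HasDerivAt.const_mul
  have h2 : HasDerivAt (ph L a) (deriv (ph L a) (x 2)) (x 2 + 0) := by
    rw [add_zero]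
    exact ((ph_smooth L a).differentiable (by simp) _).hasDerivAt
  exact h2.comp_const_add (x 2) 0

theorem F_pdh {F : ℝ → ℝ} (hF : ContDiff ℝ ∞ F) (L a : ℝ) (i : Fin 3) (hi : i = 0 ∨ i = 1) (x : E3) :
    pd i (fun x => F (rsq x) * ph L a (x 2)) x = 2 * deriv F (rsq x) * ph L a (x 2) * x i := by
  apply C_pd (C_FH_smooth hF L a) i x
  have e1 : (fun s : ℝ => F (rsq (x + s • e i)) * ph L a ((x + s • e i) 2)) = fun s : ℝ =>
      F (rsq (x + s • e i)) * ph L a (x 2) := by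
    funext s
    rw [C_z x i hi s]
  rw [e1]
  have h1 := hasDerivAt_rsq_line x i 0
  have hs : HasDerivAt F (deriv F (rsq (x + (0 : ℝ) • e i))) (rsq (x + (0 : ℝ) • e i)) :=
    (hF.differentiable (by simp) _).hasDerivAt
  have h3 : HasDerivAt (F ∘ fun s : ℝ => rsq (x + s • e i)) _ 0 := HasDerivAt.comp 0 hs h1
  have h4 : HasDerivAt (fun s : ℝ => F (rsq (x + s • e i)) * ph L a (x 2)) _ 0 := h3.mul_const (ph L a (x 2))
  refine h4.congr_deriv ?_
  simp only [zero_smul, add_zero]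
  rcases hi with rfl | rfl
  · have a0 : e 0 0 = 1 := by simp [e]
    have a1 : e 0 1 = 0 := by simp [e]
    rw [a0, a1]
    ring
  · have a0 : e 1 0 = 0 := by simp [e]
    have a1 : e 1 1 = 1 := by simp [e]
    rw [a0, a1]
    ring

/-- The radial derivative of the weights `F (r²) ph L a (x₂)`. -/
theorem F_dh {L : ℝ} (hL : 1 ≤ L) (a : ℝ) {F : ℝ → ℝ} (hF : ContDiff ℝ ∞ F) {R : ℝ} (h0 : ∀ s, R ≤ s → F s = 0)
    (x : E3) : dh (fun x => F (rsq x) * ph L a (x 2)) x = 2 * deriv F (rsq x) * ph L a (x 2) := by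
  have hF1 : ContDiff ℝ ∞ (deriv F) := (contDiff_infty_iff_deriv.1 hF).2
  have hc : Continuous (fun x : E3 => 2 * deriv F (rsq x) * ph L a (x 2)) :=
    (continuous_const.mul (hF1.continuous.comp C_rsq_smooth.continuous)).mul (C_H_smooth L a).continuous
  have h1 := dh_uniq (F_ri hL a hF h0) hc (fun x _ => by
    unfold rdr
    rw [F_pdh hF L a 0 (Or.inl rfl), F_pdh hF L a 1 (Or.inr rfl)]
    unfold rsq
    ring)
  rw [h1]

theorem A1_pd2 {L : ℝ} (hL : 1 ≤ L) (a : ℝ) (x : E3) : |pd 2 (A1 L a) x| ≤ A1 L a x / L := by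
  have hL0 : 0 < L := by linarith
  have h1 : pd 2 (A1 L a) x = Pool.Agent.H94.EP.c1 x ^ 4 * deriv (ph L a) (x 2) := F_pd2 C_F1_smooth L a x
  rw [h1, abs_mul, abs_of_nonneg (pow_nonneg (c1_facts x).1 4)]
  unfold A1
  rw [mul_div_assoc]
  exact mul_le_mul_of_nonneg_left (ph_deriv hL0 a (x 2)) (pow_nonneg (c1_facts x).1 4)

theorem C_F1_deriv (s : ℝ) : deriv (fun s : ℝ => Real.smoothTransition (2 - 4 * s) ^ 4) s =
    -16 * Real.smoothTransition (2 - 4 * s) ^ 3 * deriv Real.smoothTransition (2 - 4 * s) := by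
  have h2 : HasDerivAt (fun s : ℝ => 2 - 4 * s) (-(4 * 1)) s := ((hasDerivAt_id s).const_mul 4).const_sub 2
  have hs : HasDerivAt Real.smoothTransition (deriv Real.smoothTransition (2 - 4 * s)) (2 - 4 * s) :=
    ((Real.smoothTransition.contDiff (n := 1)).differentiable one_ne_zero _).hasDerivAt
  have h3 : HasDerivAt (Real.smoothTransition ∘ fun s : ℝ => 2 - 4 * s) _ s := HasDerivAt.comp s hs h2
  have h4 : HasDerivAt (fun s : ℝ => Real.smoothTransition (2 - 4 * s) ^ 4) _ s := h3.pow 4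
  rw [h4.deriv]
  simp only [Function.comp_apply]
  push_cast
  ring

/-- The radial derivative. -/
theorem A1_dh : ∃ C : ℝ, 1 ≤ C ∧ ∀ (L a : ℝ), 1 ≤ L → ∀ x, dh (A1 L a) x ≤ 0 ∧ |dh (A1 L a) x| ≤ C * (√(A1 L a x) * √(ph L a (x 2))) ∧
    (rsq x < 1 / 4 → dh (A1 L a) x = 0) ∧ (1 / 2 < rsq x → dh (A1 L a) x = 0) := by
  obtain ⟨C, hC1, hC, -, hC0⟩ := Cut_bd
  refine ⟨32 * C, by linarith, fun L a hL x => ?_⟩
  have hdh : dh (A1 L a) x = 2 * deriv (fun s : ℝ => Real.smoothTransition (2 - 4 * s) ^ 4) (rsq x) * ph L a (x 2) :=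
    F_dh hL a C_F1_smooth C_F1_zero x
  rw [C_F1_deriv] at hdh
  obtain ⟨hc0, hc1, -, -⟩ := c1_facts x
  have hp := ph_pos L a (x 2)
  have hd0 : 0 ≤ deriv Real.smoothTransition (2 - 4 * rsq x) := Real.smoothTransition.monotone.deriv_nonneg
  obtain ⟨S, hS⟩ : ∃ S, S = Real.smoothTransition (2 - 4 * rsq x) := ⟨_, rfl⟩
  obtain ⟨D, hD⟩ : ∃ D, D = deriv Real.smoothTransition (2 - 4 * rsq x) := ⟨_, rfl⟩
  obtain ⟨p, hpp⟩ : ∃ p, p = ph L a (x 2) := ⟨_, rfl⟩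
  have hS' : Pool.Agent.H94.EP.c1 x = S := hS.symm
  have hg : dh (A1 L a) x = -(32 * (S ^ 3 * D * p)) := by
    rw [hdh, ← hS, ← hD, ← hpp]
    ring
  have hDC : D ≤ C := by
    rw [hD]
    exact (le_abs_self _).trans (hC _)
  rw [hS'] at hc0 hc1
  rw [← hD] at hd0
  rw [← hpp] at hp
  have hpos : 0 ≤ S ^ 3 * D * p := by positivity
  refine ⟨?_, ?_, ?_, ?_⟩
  · rw [hg]
    linarith
  · have hA : √(A1 L a x) = S ^ 2 * √p := by
      unfold A1
      rw [hS', ← hpp, show S ^ 4 = (S ^ 2) ^ 2 by ring, Real.sqrt_mul (by positivity), Real.sqrt_sq (by positivity)]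
    have e2 : S ^ 2 * √p * √p = S ^ 2 * p := by rw [mul_assoc, Real.mul_self_sqrt hp.le]
    rw [hA, ← hpp, e2, hg, abs_neg, abs_of_nonneg (by positivity)]
    have h1 : S ^ 3 * D ≤ S ^ 2 * C := by
      have h2 : S ^ 3 ≤ S ^ 2 := pow_le_pow_of_le_one hc0 hc1 (by norm_num)
      exact mul_le_mul h2 hDC hd0 (by positivity)
    have h3 := mul_le_mul_of_nonneg_right h1 hp.le
    linarith
  · intro h
    have hD0 : D = 0 := by
      have e1 : Real.smoothTransition =ᶠ[𝓝 (2 - 4 * rsq x)] fun _ => 1 := by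
        filter_upwards [lt_mem_nhds (show 1 < 2 - 4 * rsq x by linarith)] with z hz
        exact Real.smoothTransition.one_of_one_le (le_of_lt hz)
      rw [hD, e1.deriv_eq]
      simp
    rw [hg, hD0]
    ring
  · intro h
    have hD0 : D = 0 := by
      rw [hD]
      exact (hC0 _ (by linarith)).1
    rw [hg, hD0]
    ring

end Pool.Agent.H87.EP
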