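import Pool.Agent.H87.EP.A

/-
ROW El_P. Pointwise bounds by the gradient of the velocity. Aux lemmas prefixed P_ .
-/

set_option autoImplicit false

open Set Filter Topology MeasureTheory
open scoped ContDiff

namespace Pool.Agent.H87.EP

open Pool.Agent.H16 Pool.Agent.H87.NS Pool.Agent.H72.CC Pool.Agent.H16.TU Pool.Agent.H94.EP

theorem P_gv {v : E3 → E3} (hs : ContDiff ℝ ∞ v) (x : E3) : gv v x =
    (fderiv ℝ v x (e 0) 0) ^ 2 + (fderiv ℝ v x (e 1) 0) ^ 2 + (fderiv ℝ v x (e 2) 0) ^ 2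
    + ((fderiv ℝ v x (e 0) 1) ^ 2 + (fderiv ℝ v x (e 1) 1) ^ 2 + (fderiv ℝ v x (e 2) 1) ^ 2)
    + ((fderiv ℝ v x (e 0) 2) ^ 2 + (fderiv ℝ v x (e 1) 2) ^ 2 + (fderiv ℝ v x (e 2) 2) ^ 2) := by
  unfold gv gsq
  simp only [Fin.sum_univ_three, pd_comp hs]

theorem P_rsq_cont : Continuous (rsq : E3 → ℝ) :=
  ((continuous_coord 0).pow 2).add ((continuous_coord 1).pow 2)

theorem P_pdc {v : E3 → E3} (hs : ContDiff ℝ ∞ v) (i j : Fin 3) : Continuous (fun x => pd i (fun y => v y j) x) := by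
  have h1 : (fun x => pd i (fun y => v y j) x) = fun x => fderiv ℝ v x (e i) j := by
    funext x
    exact pd_comp hs i j x
  rw [h1]
  have h2 : Continuous (fun y => fderiv ℝ v y (e i)) :=
    (hs.continuous_fderiv (by simp)).clm_apply continuous_const
  exact (continuous_coord j).comp h2

theorem P_gv_cont {v : E3 → E3} (hs : ContDiff ℝ ∞ v) : Continuous (gv v) := by
  unfold gv gsq
  exact continuous_finsetSum _ fun j _ => continuous_finsetSum _ fun i _ => (P_pdc hs i j).pow 2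

theorem P_dense {f g : E3 → ℝ} (hf : Continuous f) (hg : Continuous g) (h : ∀ x, 0 < rsq x → f x ≤ g x) (x : E3) :
    f x ≤ g x := by
  have hclosed : IsClosed {x : E3 | f x ≤ g x} := isClosed_le hf hg
  have hdense : Dense {x : E3 | 0 < rad x} := Measure.dense_of_ae axis_null
  have h3 : closure {x : E3 | 0 < rad x} ⊆ {x : E3 | f x ≤ g x} :=
    closure_minimal (fun x hx => h x (rsq_pos hx)) hclosed
  rw [hdense.closure_eq] at h3
  exact h3 (mem_univ x)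

theorem P_cs (a b c d : ℝ) : (a * c + b * d) ^ 2 ≤ (a ^ 2 + b ^ 2) * (c ^ 2 + d ^ 2) := by
  nlinarith [sq_nonneg (a * d - b * c)]

theorem P_rsq_nonneg (x : E3) : 0 ≤ rsq x := by unfold rsq; positivity

theorem gv_nn (v : E3 → E3) (x : E3) : 0 ≤ gv v x := by
  unfold gv gsq
  exact Finset.sum_nonneg fun j _ => Finset.sum_nonneg fun i _ => sq_nonneg _

/-- division by `rsq` -/
theorem P_div {r A G : ℝ} (hr : 0 < r) (h : r * A ≤ r * G) : A ≤ G := le_of_mul_le_mul_left h hr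

theorem P_VW {v : E3 → E3} (h : Vs v) {x : E3} (hx : 0 < rsq x) : sV v x ^ 2 + sW v x ^ 2 ≤ gv v x := by
  obtain ⟨R0, R1, -⟩ := ax_id h.ax x
  have hV := circ_eq h.ax x
  have hW := flux_eq h.ax x
  have e1 : rsq x * (rsq x * (sV v x ^ 2 + sW v x ^ 2)) = rsq x * (v x 0 ^ 2 + v x 1 ^ 2) := by
    have : rsq x * (rsq x * (sV v x ^ 2 + sW v x ^ 2)) = circ v x ^ 2 + radFlux v x ^ 2 := by
      rw [hV, hW]; ring
    rw [this]
    unfold circ radFlux rsq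
    ring
  have e2 := mul_left_cancel₀ hx.ne' e1
  have h0 : v x 0 ^ 2 ≤ rsq x * ((fderiv ℝ v x (e 1) 1) ^ 2 + (fderiv ℝ v x (e 0) 1) ^ 2) := by
    rw [← R1]
    have := P_cs (x 0) (x 1) (fderiv ℝ v x (e 1) 1) (- fderiv ℝ v x (e 0) 1)
    unfold rsq
    linarith only [this]
  have h1 : v x 1 ^ 2 ≤ rsq x * ((fderiv ℝ v x (e 1) 0) ^ 2 + (fderiv ℝ v x (e 0) 0) ^ 2) := by
    have h2 : v x 1 = - (x 0 * fderiv ℝ v x (e 1) 0 - x 1 * fderiv ℝ v x (e 0) 0) := by linarith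
    rw [h2]
    have := P_cs (x 0) (x 1) (fderiv ℝ v x (e 1) 0) (- fderiv ℝ v x (e 0) 0)
    unfold rsq
    linarith only [this]
  apply P_div hx
  rw [e2, P_gv h.ax.smooth]
  linarith only [mul_nonneg hx.le (sq_nonneg (fderiv ℝ v x (e 2) 0)), mul_nonneg hx.le (sq_nonneg (fderiv ℝ v x (e 2) 1)),
    mul_nonneg hx.le (sq_nonneg (fderiv ℝ v x (e 0) 2)), mul_nonneg hx.le (sq_nonneg (fderiv ℝ v x (e 1) 2)),
    mul_nonneg hx.le (sq_nonneg (fderiv ℝ v x (e 2) 2)), hx, h0, h1]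

theorem P_sW_cont {v : E3 → E3} (h : Vs v) : Continuous (sW v) := (vs_ri h).2.1.sm.continuous
theorem P_sV_cont {v : E3 → E3} (h : Vs v) : Continuous (sV v) := (vs_ri h).1.sm.continuous

theorem gv_VW {v : E3 → E3} (h : Vs v) (x : E3) : sV v x ^ 2 + sW v x ^ 2 ≤ gv v x :=
  P_dense (f := fun x => sV v x ^ 2 + sW v x ^ 2) (((P_sV_cont h).pow 2).add ((P_sW_cont h).pow 2)) (P_gv_cont h.ax.smooth)
    (fun _ hx => P_VW h hx) x

theorem P_coord (j : Fin 3) (x : E3) :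
    HasFDerivAt (fun y : E3 => y j) (EuclideanSpace.proj j : E3 →L[ℝ] ℝ) x :=
  (EuclideanSpace.proj j : E3 →L[ℝ] ℝ).hasFDerivAt

theorem P_comp {v : E3 → E3} (hs : ContDiff ℝ ∞ v) (j : Fin 3) (x : E3) :
    HasFDerivAt (fun y => v y j) ((EuclideanSpace.proj j : E3 →L[ℝ] ℝ).comp (fderiv ℝ v x)) x :=
  (EuclideanSpace.proj j : E3 →L[ℝ] ℝ).hasFDerivAt.comp x (hs.differentiable (by simp) x).hasFDerivAt

theorem P_pd_circ {v : E3 → E3} (hs : ContDiff ℝ ∞ v) (x : E3) :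
    pd 2 (circ v) x = x 0 * fderiv ℝ v x (e 2) 1 - x 1 * fderiv ℝ v x (e 2) 0 := by
  have h : HasFDerivAt (circ v) _ x :=
    ((P_coord 0 x).mul (P_comp hs 1 x)).sub ((P_coord 1 x).mul (P_comp hs 0 x))
  unfold pd
  rw [h.fderiv]
  change (x 0 * fderiv ℝ v x (e 2) 1 + v x 1 * e 2 0) - (x 1 * fderiv ℝ v x (e 2) 0 + v x 0 * e 2 1) = _
  simp only [e_apply, Fin.isValue, Fin.reduceEq, if_false]
  ring

theorem P_pd_flux {v : E3 → E3} (hs : ContDiff ℝ ∞ v) (x : E3) :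
    pd 2 (radFlux v) x = x 0 * fderiv ℝ v x (e 2) 0 + x 1 * fderiv ℝ v x (e 2) 1 := by
  have h : HasFDerivAt (radFlux v) _ x :=
    ((P_coord 0 x).mul (P_comp hs 0 x)).add ((P_coord 1 x).mul (P_comp hs 1 x))
  unfold pd
  rw [h.fderiv]
  change (x 0 * fderiv ℝ v x (e 2) 0 + v x 0 * e 2 0) + (x 1 * fderiv ℝ v x (e 2) 1 + v x 1 * e 2 1) = _
  simp only [e_apply, Fin.isValue, Fin.reduceEq, if_false]
  ring

/-- derivatives of `rsq * f` -/
theorem P_pd_rsq {f : E3 → ℝ} (hf : ContDiff ℝ ∞ f) (i : Fin 3) (x : E3) :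
    pd i (fun y => rsq y * f y) x = (2 * x 0 * e i 0 + 2 * x 1 * e i 1) * f x + rsq x * pd i f x := by
  have h1 : HasFDerivAt (fun y => f y) (fderiv ℝ f x) x := (hf.differentiable (by simp) x).hasFDerivAt
  have h2 : HasFDerivAt (fun y : E3 => (y 0 * y 0 + y 1 * y 1) * f y) _ x :=
    (((P_coord 0 x).mul (P_coord 0 x)).add ((P_coord 1 x).mul (P_coord 1 x))).mul h1
  have h3 : (fun y => rsq y * f y) = fun y : E3 => (y 0 * y 0 + y 1 * y 1) * f y := by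
    funext y
    unfold rsq
    ring
  unfold pd
  rw [h3, h2.fderiv]
  change (x 0 * x 0 + x 1 * x 1) * fderiv ℝ f x (e i) + f x * ((x 0 * e i 0 + x 0 * e i 0) + (x 1 * e i 1 + x 1 * e i 1)) = _
  unfold rsq
  ring

theorem P_pd2V {v : E3 → E3} (h : Vs v) (x : E3) :
    rsq x * Zz v x = x 0 * fderiv ℝ v x (e 2) 1 - x 1 * fderiv ℝ v x (e 2) 0 := by
  rw [← P_pd_circ h.ax.smooth]
  have h1 : circ v = fun y => rsq y * sV v y := funext (circ_eq h.ax)
  rw [h1, P_pd_rsq (vs_ri h).1.sm]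
  simp only [e_apply, Fin.isValue, Fin.reduceEq, if_false]
  unfold Zz
  ring

theorem P_pd2W {v : E3 → E3} (h : Vs v) (x : E3) :
    rsq x * pd 2 (sW v) x = x 0 * fderiv ℝ v x (e 2) 0 + x 1 * fderiv ℝ v x (e 2) 1 := by
  rw [← P_pd_flux h.ax.smooth]
  have h1 : radFlux v = fun y => rsq y * sW v y := funext (flux_eq h.ax)
  rw [h1, P_pd_rsq (vs_ri h).2.1.sm]
  simp only [e_apply, Fin.isValue, Fin.reduceEq, if_false]
  ring

theorem gv_Z {v : E3 → E3} (h : Vs v) (x : E3) : rsq x * Zz v x ^ 2 ≤ gv v x := by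
  rcases (P_rsq_nonneg x).eq_or_lt with h0 | h0
  · rw [← h0, zero_mul]
    exact gv_nn v x
  · apply P_div h0
    have h1 : rsq x * (rsq x * Zz v x ^ 2) = (rsq x * Zz v x) ^ 2 := by ring
    rw [h1, P_pd2V h, P_gv h.ax.smooth]
    have h2 := P_cs (x 0) (x 1) (fderiv ℝ v x (e 2) 1) (- fderiv ℝ v x (e 2) 0)
    have h3 : rsq x = x 0 ^ 2 + x 1 ^ 2 := rfl
    rw [← h3] at h2
    linarith only [mul_nonneg h0.le (sq_nonneg (fderiv ℝ v x (e 0) 0)), mul_nonneg h0.le (sq_nonneg (fderiv ℝ v x (e 1) 0)),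
      mul_nonneg h0.le (sq_nonneg (fderiv ℝ v x (e 0) 1)), mul_nonneg h0.le (sq_nonneg (fderiv ℝ v x (e 1) 1)),
      mul_nonneg h0.le (sq_nonneg (fderiv ℝ v x (e 0) 2)), mul_nonneg h0.le (sq_nonneg (fderiv ℝ v x (e 1) 2)),
      mul_nonneg h0.le (sq_nonneg (fderiv ℝ v x (e 2) 2)), h0, h2]

theorem gv_W2 {v : E3 → E3} (h : Vs v) (x : E3) : rsq x * pd 2 (sW v) x ^ 2 ≤ gv v x := by
  rcases (P_rsq_nonneg x).eq_or_lt with h0 | h0
  · rw [← h0, zero_mul]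
    exact gv_nn v x
  · apply P_div h0
    have h1 : rsq x * (rsq x * pd 2 (sW v) x ^ 2) = (rsq x * pd 2 (sW v) x) ^ 2 := by ring
    rw [h1, P_pd2W h, P_gv h.ax.smooth]
    have h2 := P_cs (x 0) (x 1) (fderiv ℝ v x (e 2) 0) (fderiv ℝ v x (e 2) 1)
    have h3 : rsq x = x 0 ^ 2 + x 1 ^ 2 := rfl
    rw [← h3] at h2
    linarith only [mul_nonneg h0.le (sq_nonneg (fderiv ℝ v x (e 0) 0)), mul_nonneg h0.le (sq_nonneg (fderiv ℝ v x (e 1) 0)),
      mul_nonneg h0.le (sq_nonneg (fderiv ℝ v x (e 0) 1)), mul_nonneg h0.le (sq_nonneg (fderiv ℝ v x (e 1) 1)),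
      mul_nonneg h0.le (sq_nonneg (fderiv ℝ v x (e 0) 2)), mul_nonneg h0.le (sq_nonneg (fderiv ℝ v x (e 1) 2)),
      mul_nonneg h0.le (sq_nonneg (fderiv ℝ v x (e 2) 2)), h0, h2]

theorem gv_O {v : E3 → E3} (h : Vs v) (x : E3) : rsq x * sO v x ^ 2 ≤ 4 * gv v x := by
  rcases (P_rsq_nonneg x).eq_or_lt with h0 | h0
  · rw [← h0, zero_mul]
    exact mul_nonneg (by norm_num) (gv_nn v x)
  · apply P_div h0
    have h1 : rsq x * (rsq x * sO v x ^ 2) = (rsq x * sO v x) ^ 2 := by ring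
    have hO := om_eq h.ax x
    have c0 : curl v x 0 = fderiv ℝ v x (e 1) 2 - fderiv ℝ v x (e 2) 1 := rfl
    have c1 : curl v x 1 = fderiv ℝ v x (e 2) 0 - fderiv ℝ v x (e 0) 2 := rfl
    have hcc : circ (curl v) x = x 0 * curl v x 1 - x 1 * curl v x 0 := rfl
    rw [h1, ← hO, hcc, c0, c1, P_gv h.ax.smooth]
    have h2 := P_cs (x 0) (x 1) (fderiv ℝ v x (e 2) 0) (fderiv ℝ v x (e 2) 1)
    have h4 := P_cs (x 0) (x 1) (fderiv ℝ v x (e 0) 2) (fderiv ℝ v x (e 1) 2)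
    have h3 : rsq x = x 0 ^ 2 + x 1 ^ 2 := rfl
    rw [← h3] at h2 h4
    have h5 : (x 0 * (fderiv ℝ v x (e 2) 0 - fderiv ℝ v x (e 0) 2) - x 1 * (fderiv ℝ v x (e 1) 2 - fderiv ℝ v x (e 2) 1)) ^ 2
        ≤ 2 * (x 0 * fderiv ℝ v x (e 2) 0 + x 1 * fderiv ℝ v x (e 2) 1) ^ 2
          + 2 * (x 0 * fderiv ℝ v x (e 0) 2 + x 1 * fderiv ℝ v x (e 1) 2) ^ 2 := by
      linarith only [sq_nonneg ((x 0 * fderiv ℝ v x (e 2) 0 + x 1 * fderiv ℝ v x (e 2) 1)
        + (x 0 * fderiv ℝ v x (e 0) 2 + x 1 * fderiv ℝ v x (e 1) 2))]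
    linarith only [mul_nonneg h0.le (sq_nonneg (fderiv ℝ v x (e 0) 0)), mul_nonneg h0.le (sq_nonneg (fderiv ℝ v x (e 1) 0)),
      mul_nonneg h0.le (sq_nonneg (fderiv ℝ v x (e 0) 1)), mul_nonneg h0.le (sq_nonneg (fderiv ℝ v x (e 1) 1)),
      mul_nonneg h0.le (sq_nonneg (fderiv ℝ v x (e 0) 2)), mul_nonneg h0.le (sq_nonneg (fderiv ℝ v x (e 1) 2)),
      mul_nonneg h0.le (sq_nonneg (fderiv ℝ v x (e 2) 2)), mul_nonneg h0.le (sq_nonneg (fderiv ℝ v x (e 2) 0)),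
      mul_nonneg h0.le (sq_nonneg (fderiv ℝ v x (e 2) 1)), h0, h2, h4, h5]

theorem gv_dW {v : E3 → E3} (h : Vs v) (x : E3) : (rsq x * dh (sW v) x) ^ 2 ≤ 10 * gv v x := by
  have h1 := v2_pd2 h x
  rw [pd_comp h.ax.smooth] at h1
  have h2 : rsq x * dh (sW v) x = - fderiv ℝ v x (e 2) 2 - 2 * sW v x := by linarith
  rw [h2]
  have h3 := gv_VW h x
  have h4 : fderiv ℝ v x (e 2) 2 ^ 2 ≤ gv v x := by
    rw [P_gv h.ax.smooth]
    have := sq_nonneg (fderiv ℝ v x (e 0) 0)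
    have := sq_nonneg (fderiv ℝ v x (e 1) 0)
    have := sq_nonneg (fderiv ℝ v x (e 2) 0)
    have := sq_nonneg (fderiv ℝ v x (e 0) 1)
    have := sq_nonneg (fderiv ℝ v x (e 1) 1)
    have := sq_nonneg (fderiv ℝ v x (e 2) 1)
    have := sq_nonneg (fderiv ℝ v x (e 0) 2)
    have := sq_nonneg (fderiv ℝ v x (e 1) 2)
    linarith
  nlinarith [sq_nonneg (fderiv ℝ v x (e 2) 2 - 2 * sW v x), sq_nonneg (sV v x)]

theorem gv_dV {v : E3 → E3} (h : Vs v) (x : E3) : (rsq x * dh (sV v) x) ^ 2 ≤ 12 * gv v x := by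
  rcases (P_rsq_nonneg x).eq_or_lt with h0 | h0
  · rw [← h0, zero_mul]
    have := gv_nn v x
    nlinarith
  · have h1 : rdr (circ v) x = rsq x * (2 * sV v x + rdr (sV v) x) := by
      have h2 : circ v = fun y => rsq y * sV v y := funext (circ_eq h.ax)
      rw [h2]
      unfold rdr
      rw [P_pd_rsq (vs_ri h).1.sm, P_pd_rsq (vs_ri h).1.sm]
      simp only [e_apply]
      simp only [Fin.isValue, if_true, Fin.reduceEq, if_false]
      unfold rsq
      ring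
    rw [rdr_circ h.ax] at h1
    have h2 := mul_left_cancel₀ h0.ne' h1
    have h3 := rdr_eq (vs_ri h).1 x
    have h4 : rsq x * dh (sV v) x = curl v x 2 - 2 * sV v x := by rw [← h3]; linarith
    have c2 : curl v x 2 = fderiv ℝ v x (e 0) 1 - fderiv ℝ v x (e 1) 0 := rfl
    rw [h4, c2]
    have h5 := gv_VW h x
    have h6 : fderiv ℝ v x (e 0) 1 ^ 2 + fderiv ℝ v x (e 1) 0 ^ 2 ≤ gv v x := by
      rw [P_gv h.ax.smooth]
      have := sq_nonneg (fderiv ℝ v x (e 0) 0)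
      have := sq_nonneg (fderiv ℝ v x (e 2) 0)
      have := sq_nonneg (fderiv ℝ v x (e 1) 1)
      have := sq_nonneg (fderiv ℝ v x (e 2) 1)
      have := sq_nonneg (fderiv ℝ v x (e 0) 2)
      have := sq_nonneg (fderiv ℝ v x (e 1) 2)
      have := sq_nonneg (fderiv ℝ v x (e 2) 2)
      linarith
    linarith only [sq_nonneg (fderiv ℝ v x (e 0) 1 - fderiv ℝ v x (e 1) 0 + 2 * sV v x),
      sq_nonneg (fderiv ℝ v x (e 0) 1 + fderiv ℝ v x (e 1) 0), sq_nonneg (sW v x), h5, h6]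

theorem P_ph {L : ℝ} (hL : 1 ≤ L) (a s : ℝ) : 0 ≤ ph L a s ∧ ph L a s ≤ 1 := by
  have h1 : 0 ≤ (s - a) ^ 2 / L ^ 2 := by positivity
  unfold ph
  refine ⟨by positivity, ?_⟩
  exact inv_le_one_of_one_le₀ (by linarith)

theorem P_ph_cont {L : ℝ} (hL : 1 ≤ L) (a : ℝ) : Continuous (fun x : E3 => ph L a (x 2)) := by
  unfold ph
  apply Continuous.inv₀
  · exact continuous_const.add ((((continuous_coord 2).sub continuous_const).pow 2).div_const _)
  · intro x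
    have h1 : 0 ≤ (x 2 - a) ^ 2 / L ^ 2 := by positivity
    linarith

theorem P_gv_int {v : E3 → E3} (h : Vs v) : Integrable (gv v) := by
  obtain ⟨B, hB⟩ := h.db 1
  unfold gv gsq
  exact integrable_finsetSum _ fun j _ => integrable_finsetSum _ fun i _ => ((hB j).2 i).2.1

/-- The local dissipation is finite. -/
theorem gv_int {v : E3 → E3} (h : Vs v) {L : ℝ} (hL : 1 ≤ L) (a : ℝ) : Integrable (fun x => ph L a (x 2) * gv v x) := by
  refine (P_gv_int h).mono ((P_ph_cont hL a).mul (P_gv_cont h.ax.smooth)).aestronglyMeasurable ?_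
  filter_upwards with x
  rw [norm_mul, Real.norm_of_nonneg (P_ph hL a _).1]
  exact mul_le_of_le_one_left (norm_nonneg _) (P_ph hL a _).2

theorem P_bdry {F : E3 → ℝ} (hF : Continuous F) (h1 : ∀ x, 1 / 2 < rsq x → F x = 0) {x : E3} (hx : 1 / 2 ≤ rsq x) :
    F x = 0 := by
  have h2 : Continuous (fun s => F (sq s x)) := hF.comp (VRep_sq_cont x)
  have h3 : Ioi (1 : ℝ) ⊆ {s | F (sq s x) = 0} := by
    intro s hs
    apply h1
    have e2 : rsq (sq s x) = s ^ 2 * rsq x := by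
      have e0 : sq s x 0 = s * x 0 := rfl
      have e1 : sq s x 1 = s * x 1 := rfl
      unfold rsq
      rw [e0, e1]
      ring
    rw [e2]
    have hs' : (1 : ℝ) < s := hs
    nlinarith
  have h4 : closure (Ioi (1 : ℝ)) ⊆ {s | F (sq s x) = 0} :=
    closure_minimal h3 (isClosed_eq h2 continuous_const)
  rw [closure_Ioi] at h4
  have h5 : F (sq 1 x) = 0 := h4 (self_mem_Ici)
  have h6 : sq 1 x = x := by
    apply ext3
    · show 1 * x 0 = x 0
      ring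
    · show 1 * x 1 = x 1
      ring
    · rfl
  rwa [h6] at h5

/-- Outer zone: the weighted integrals over `1/4 ≤ rsq ≤ 1/2`. -/
theorem gg_outer {v : E3 → E3} (h : Vs v) {L : ℝ} (hL : 1 ≤ L) (a : ℝ) {F : E3 → ℝ} {c : ℝ} (hc : 0 ≤ c) (hF : Continuous F)
    (h0 : ∀ x, rsq x < 1 / 4 → F x = 0) (h1 : ∀ x, 1 / 2 < rsq x → F x = 0) (hb : ∀ x, |F x| ≤ c * (ph L a (x 2) * gv v x)) :
    Integrable F ∧ |∫ x, F x| ≤ c * GG L a v := by
  have hi := gv_int h hL a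
  have hFi : Integrable F := (hi.const_mul c).mono' hF.aestronglyMeasurable (by
    filter_upwards with x
    rw [Real.norm_eq_abs]
    exact hb x)
  refine ⟨hFi, ?_⟩
  have hS : MeasurableSet {x : E3 | rsq x < 1 / 2} := (isOpen_lt P_rsq_cont continuous_const).measurableSet
  have h2 : ∫ x, |F x| = ∫ x in {x : E3 | rsq x < 1 / 2}, |F x| := by
    rw [← integral_indicator hS]
    apply integral_congr_ae
    filter_upwards with x
    by_cases hx : rsq x < 1 / 2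
    · rw [indicator_of_mem (by exact hx)]
    · rw [indicator_of_notMem (by exact hx), P_bdry hF h1 (not_lt.1 hx), abs_zero]
  calc |∫ x, F x| ≤ ∫ x, |F x| := abs_integral_le_integral_abs
    _ = ∫ x in {x : E3 | rsq x < 1 / 2}, |F x| := h2
    _ ≤ ∫ x in {x : E3 | rsq x < 1 / 2}, c * (ph L a (x 2) * gv v x) :=
        integral_mono hFi.abs.integrableOn (hi.const_mul c).integrableOn hb
    _ = c * GG L a v := by
        rw [integral_const_mul]
        rfl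

end Pool.Agent.H87.EP
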