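import Pool.Agent.H87.EP.B
import Pool.Agent.H87.EP.C
import Pool.Agent.H87.EP.P

/-
ROW El_D. Hardy inequalities.
-/

set_option autoImplicit false

open Set Filter Topology MeasureTheory
open scoped ContDiff

namespace Pool.Agent.H87.EP

open Pool.Agent.H16 Pool.Agent.H87.NS Pool.Agent.H72.CC Pool.Agent.H16.TU Pool.Agent.H94.EP

theorem D_bdd {φ ψ : E3 → ℝ} {c : ℝ} (hφ : Continuous φ) (h : ∀ x, |φ x| ≤ c) (hψc : Continuous ψ)
    (hψ : Integrable ψ) : Integrable (fun x => φ x * ψ x) := by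
  refine Integrable.mono' (hψ.norm.const_mul c) (hφ.mul hψc).aestronglyMeasurable ?_
  refine Filter.Eventually.of_forall fun x => ?_
  rw [Real.norm_eq_abs, abs_mul, Real.norm_eq_abs]
  exact mul_le_mul_of_nonneg_right (h x) (abs_nonneg _)

theorem D_coord (i : Fin 3) : ContDiff ℝ ∞ (fun x : E3 => x i) := by
  fun_prop

theorem D_rsq : Continuous rsq := by
  unfold rsq
  exact (((D_coord 0).pow 2).add ((D_coord 1).pow 2)).continuous

theorem D_xi (x : E3) (i : Fin 3) (hi : i ≠ 2) : x i ^ 2 ≤ rsq x := by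
  unfold rsq
  fin_cases i
  · simp only [Fin.zero_eta, Fin.isValue]
    nlinarith [sq_nonneg (x 1)]
  · simp only [Fin.mk_one, Fin.isValue]
    nlinarith [sq_nonneg (x 0)]
  · exact absurd rfl hi

theorem D_xabs {x : E3} (i : Fin 3) (hi : i ≠ 2) (hx : rsq x ≤ 1) : |x i| ≤ 1 := by
  have h1 := D_xi x i hi
  rw [← Real.sqrt_sq_eq_abs, ← Real.sqrt_one]
  exact Real.sqrt_le_sqrt (by linarith)

theorem D_Ale {L : ℝ} (a : ℝ) (x : E3) : |A1 L a x| ≤ 1 := by
  have h := A1_nn L a x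
  rw [abs_of_nonneg h.1]
  exact h.2.trans (ph_le L a (x 2))

theorem D_pd_zero {L : ℝ} (a : ℝ) {x : E3} (hx : 1 / 2 < rsq x) (i : Fin 3) : pd i (A1 L a) x = 0 := by
  have h1 : A1 L a =ᶠ[𝓝 x] fun _ => (0 : ℝ) := by
    have h2 : {y : E3 | 1 / 2 < rsq y} ∈ 𝓝 x := (isOpen_lt continuous_const D_rsq).mem_nhds hx
    filter_upwards [h2] with y hy
    exact A1_zero L a (le_of_lt hy)
  unfold pd
  rw [h1.fderiv_eq]
  simp

theorem D_pdmul {A : E3 → ℝ} (hA : ContDiff ℝ ∞ A) (i : Fin 3) (x : E3) :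
    pd i (fun y => y i * A y) x = A x + x i * pd i A x := by
  have h1 : DifferentiableAt ℝ (fun y : E3 => y i) x := (D_coord i).differentiable (by simp) x
  have h2 : DifferentiableAt ℝ A x := hA.differentiable (by simp) x
  unfold pd
  rw [fderiv_fun_mul h1 h2]
  have h3 : fderiv ℝ (fun y : E3 => y i) x (e i) = 1 := by
    rw [← h1.lineDeriv_eq_fderiv, lineDeriv]
    have h4 : (fun t : ℝ => (x + t • e i) i) = fun t : ℝ => x i + t * e i i := by
      funext t
      simp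
    rw [h4]
    have h5 : HasDerivAt (fun t : ℝ => x i + t * e i i) (e i i) 0 := by
      simpa using ((hasDerivAt_id (0 : ℝ)).mul_const (e i i)).const_add (x i)
    rw [h5.deriv]
    simp [e]
  simp only [_root_.add_apply, _root_.smul_apply, smul_eq_mul]
  rw [h3]
  ring

theorem D_pdsq {g : E3 → ℝ} (hg : ContDiff ℝ ∞ g) (i : Fin 3) (x : E3) :
    pd i (fun y => g y ^ 2) x = 2 * g x * pd i g x := by
  have h := comp_pd (H := fun s : ℝ => s ^ 2) (hg.of_le (by simp)) (by fun_prop) i x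
  rw [h]
  simp

theorem D_BLn {f : E3 → ℝ} (hf : Ri f) : ∃ B : ℝ, DB 1 B f := hf.db 1

/-- the divergence theorem in the direction `i` -/
theorem D_div {L : ℝ} (hL : 1 ≤ L) (a : ℝ) {g : E3 → ℝ} (hg : Ri g) (i : Fin 3) (hi : i ≠ 2) :
    Integrable (fun x => (x i * A1 L a x) * (2 * g x * pd i g x) + (A1 L a x + x i * pd i (A1 L a) x) * g x ^ 2) ∧
    ∫ x, ((x i * A1 L a x) * (2 * g x * pd i g x) + (A1 L a x + x i * pd i (A1 L a) x) * g x ^ 2) = 0 := by
  have hA := A1_ri hL a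
  obtain ⟨BA, hBA⟩ := hA.db 1
  obtain ⟨B, hB⟩ := hg.db 1
  have hgc : Continuous g := hg.sm.continuous
  have hgp : Continuous (pd i g) := (pd_smooth hg.sm i).continuous
  have hAc : Continuous (A1 L a) := hA.sm.continuous
  have hAp : Continuous (pd i (A1 L a)) := (pd_smooth hA.sm i).continuous
  have hxc : Continuous (fun x : E3 => x i) := (D_coord i).continuous
  have b1 : ∀ x : E3, |x i * A1 L a x| ≤ 1 := by
    intro x
    by_cases hx : rsq x ≤ 1
    · rw [abs_mul]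
      have h1 := D_xabs i hi hx
      have h2 := D_Ale (L := L) a x
      calc |x i| * |A1 L a x| ≤ 1 * 1 := mul_le_mul h1 h2 (abs_nonneg _) zero_le_one
        _ = 1 := one_mul 1
    · push Not at hx
      rw [A1_zero L a (by linarith), mul_zero, abs_zero]
      exact zero_le_one
  have b2 : ∀ x : E3, |A1 L a x + x i * pd i (A1 L a) x| ≤ 1 + BA := by
    intro x
    have h0 : 0 ≤ BA := BL_nonneg (DB_BL hBA)
    by_cases hx : rsq x ≤ 1
    · refine (abs_add_le _ _).trans ?_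
      rw [abs_mul]
      have h1 := D_xabs i hi hx
      have h2 := D_Ale (L := L) a x
      have h3 : |pd i (A1 L a) x| ≤ BA := (hBA.2 i).1 x
      have h4 : |x i| * |pd i (A1 L a) x| ≤ 1 * BA := mul_le_mul h1 h3 (abs_nonneg _) zero_le_one
      linarith
    · push Not at hx
      rw [A1_zero L a (by linarith), D_pd_zero a (by linarith) i, mul_zero, add_zero, abs_zero]
      linarith
  have i1 : Integrable (fun x => (2 * g x * pd i g x)) := by
    have := (BL_mul hgc hgp (DB_BL hB) (hB.2 i)).const_mul 2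
    refine this.congr (Filter.Eventually.of_forall fun x => ?_)
    ring
  have i2 : Integrable (fun x => g x ^ 2) := (DB_BL hB).2.1
  have j1 : Integrable (fun x => (x i * A1 L a x) * (2 * g x * pd i g x)) :=
    D_bdd (hxc.mul hAc) b1 ((continuous_const.mul hgc).mul hgp) i1
  have j2 : Integrable (fun x => (A1 L a x + x i * pd i (A1 L a) x) * g x ^ 2) :=
    D_bdd (hAc.add (hxc.mul hAp)) b2 (hgc.pow 2) i2
  have j3 : Integrable (fun x => (x i * A1 L a x) * g x ^ 2) :=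
    D_bdd (hxc.mul hAc) b1 (hgc.pow 2) i2
  refine ⟨j1.add j2, ?_⟩
  rw [integral_add j1 j2]
  have hf : ContDiff ℝ ∞ (fun x : E3 => x i * A1 L a x) := (D_coord i).mul hA.sm
  have hq : ContDiff ℝ ∞ (fun x : E3 => g x ^ 2) := hg.sm.pow 2
  have k1 : ∀ x, fderiv ℝ (fun x : E3 => g x ^ 2) x (e i) = 2 * g x * pd i g x := fun x => D_pdsq hg.sm i x
  have k2 : ∀ x, fderiv ℝ (fun x : E3 => x i * A1 L a x) x (e i) = A1 L a x + x i * pd i (A1 L a) x :=
    fun x => D_pdmul hA.sm i x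
  have key := integral_mul_fderiv_eq_neg_fderiv_mul_of_integrable (v := e i) (μ := volume)
    (f := fun x : E3 => x i * A1 L a x) (g := fun x : E3 => g x ^ 2)
    (by simpa only [k2] using j2) (by simpa only [k1] using j1) j3
    (fun x _ => hf.differentiable (by simp) x) (fun x _ => hq.differentiable (by simp) x)
  simp only [k1, k2] at key
  rw [key]
  ring

theorem D_I3 {L : ℝ} (hL : 1 ≤ L) (a : ℝ) {g : E3 → ℝ} (hg : Ri g) :
    Integrable (fun x => A1 L a x * (rsq x * dh g x ^ 2)) := by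
  have hA := A1_ri hL a
  obtain ⟨B, hB⟩ := hg.dh.db 0
  have h1 : ∀ x : E3, |A1 L a x * rsq x| ≤ 1 := by
    intro x
    by_cases hx : rsq x ≤ 1
    · have h2 := D_Ale (L := L) a x
      have h3 : |rsq x| ≤ 1 := by
        rw [abs_of_nonneg (by unfold rsq; positivity)]
        exact hx
      rw [abs_mul]
      calc |A1 L a x| * |rsq x| ≤ 1 * 1 := mul_le_mul h2 h3 (abs_nonneg _) zero_le_one
        _ = 1 := one_mul 1
    · push Not at hx
      rw [A1_zero L a (by linarith), zero_mul, abs_zero]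
      exact zero_le_one
  have h4 : Integrable (fun x => (A1 L a x * rsq x) * dh g x ^ 2) :=
    D_bdd (hA.sm.continuous.mul D_rsq) h1 (hg.dh.sm.continuous.pow 2) (DB_BL hB).2.1
  refine h4.congr (Filter.Eventually.of_forall fun x => ?_)
  simp only
  ring

theorem D_I2 {L : ℝ} (hL : 1 ≤ L) (a : ℝ) {g : E3 → ℝ} (hg : Ri g) :
    Integrable (fun x => |dh (A1 L a) x| * g x ^ 2) := by
  have hA := (A1_ri hL a).dh
  obtain ⟨BA, hBA⟩ := hA.db 0
  obtain ⟨B, hB⟩ := hg.db 0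
  exact D_bdd hA.sm.continuous.abs (fun x => by rw [abs_abs]; exact (DB_BL hBA).1 x)
    (hg.sm.continuous.pow 2) (DB_BL hB).2.1

theorem D_I1 {L : ℝ} (hL : 1 ≤ L) (a : ℝ) {g : E3 → ℝ} (hg : Ri g) :
    Integrable (fun x => A1 L a x * g x ^ 2) := by
  have hA := A1_ri hL a
  obtain ⟨B, hB⟩ := hg.db 0
  exact D_bdd hA.sm.continuous (fun x => D_Ale a x) (hg.sm.continuous.pow 2) (DB_BL hB).2.1

theorem hardy_A {L : ℝ} (hL : 1 ≤ L) (a : ℝ) {g : E3 → ℝ} (hg : Ri g) :
    ∫ x, A1 L a x * g x ^ 2 ≤ (∫ x, |dh (A1 L a) x| * g x ^ 2) + ∫ x, A1 L a x * (rsq x * dh g x ^ 2) := by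
  have hA := A1_ri hL a
  obtain ⟨CA, -, hCA⟩ := A1_dh
  obtain ⟨t0, s0⟩ := D_div hL a hg 0 (by decide)
  obtain ⟨t1, s1⟩ := D_div hL a hg 1 (by decide)
  have i1 := D_I1 hL a hg
  have i2 := D_I2 hL a hg
  have i3 := D_I3 hL a hg
  have hs := integral_add t0 t1
  rw [s0, s1, add_zero] at hs
  have hpt : ∀ x, 2 * (A1 L a x * g x ^ 2)
      - (((x 0 * A1 L a x) * (2 * g x * pd 0 g x) + (A1 L a x + x 0 * pd 0 (A1 L a) x) * g x ^ 2)
        + ((x 1 * A1 L a x) * (2 * g x * pd 1 g x) + (A1 L a x + x 1 * pd 1 (A1 L a) x) * g x ^ 2))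
      ≤ A1 L a x * g x ^ 2 + |dh (A1 L a) x| * g x ^ 2 + A1 L a x * (rsq x * dh g x ^ 2) := by
    intro x
    have e1 : x 0 * pd 0 g x + x 1 * pd 1 g x = rsq x * dh g x := rdr_eq hg x
    have e2 : x 0 * pd 0 (A1 L a) x + x 1 * pd 1 (A1 L a) x = rsq x * dh (A1 L a) x := rdr_eq hA x
    have e3 : 2 * (A1 L a x * g x ^ 2)
      - (((x 0 * A1 L a x) * (2 * g x * pd 0 g x) + (A1 L a x + x 0 * pd 0 (A1 L a) x) * g x ^ 2)
        + ((x 1 * A1 L a x) * (2 * g x * pd 1 g x) + (A1 L a x + x 1 * pd 1 (A1 L a) x) * g x ^ 2))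
      = - (2 * A1 L a x * g x * (rsq x * dh g x)) - rsq x * dh (A1 L a) x * g x ^ 2 := by
      rw [← e1, ← e2]; ring
    rw [e3]
    have hr : 0 ≤ rsq x := by unfold rsq; positivity
    have hA0 := (A1_nn L a x).1
    by_cases hx : rsq x ≤ 1 / 2
    · have f1 : - (rsq x * dh (A1 L a) x * g x ^ 2) ≤ |dh (A1 L a) x| * g x ^ 2 := by
        have f2 : - dh (A1 L a) x ≤ |dh (A1 L a) x| := neg_le_abs _
        have f3 : rsq x * (- dh (A1 L a) x) ≤ rsq x * |dh (A1 L a) x| := mul_le_mul_of_nonneg_left f2 hr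
        have f4 : rsq x * |dh (A1 L a) x| ≤ 1 * |dh (A1 L a) x| :=
          mul_le_mul_of_nonneg_right (by linarith) (abs_nonneg _)
        have f5 := mul_le_mul_of_nonneg_right (f3.trans f4) (sq_nonneg (g x))
        linarith
      have f6 : - (2 * A1 L a x * g x * (rsq x * dh g x))
          ≤ A1 L a x * g x ^ 2 + A1 L a x * (rsq x * dh g x ^ 2) := by
        have f7 : 0 ≤ A1 L a x * (g x + rsq x * dh g x) ^ 2 := mul_nonneg hA0 (sq_nonneg _)
        have f8 : A1 L a x * (rsq x * dh g x) ^ 2 ≤ A1 L a x * (rsq x * dh g x ^ 2) := by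
          apply mul_le_mul_of_nonneg_left _ hA0
          have f9 : rsq x * (rsq x * dh g x ^ 2) ≤ 1 * (rsq x * dh g x ^ 2) :=
            mul_le_mul_of_nonneg_right (by linarith) (mul_nonneg hr (sq_nonneg _))
          calc (rsq x * dh g x) ^ 2 = rsq x * (rsq x * dh g x ^ 2) := by ring
            _ ≤ 1 * (rsq x * dh g x ^ 2) := f9
            _ = rsq x * dh g x ^ 2 := one_mul _
        nlinarith [f7, f8]
      linarith
    · push Not at hx
      have g1 : A1 L a x = 0 := A1_zero L a hx.le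
      have g2 : dh (A1 L a) x = 0 := (hCA L a hL x).2.2.2 hx
      rw [g1, g2]
      simp
  have hmono := integral_mono ((i1.const_mul 2).sub (t0.add t1)) ((i1.add i2).add i3) hpt
  have q1 := integral_sub (i1.const_mul 2) (t0.add t1)
  have q2 := integral_add (i1.add i2) i3
  have q3 := integral_add i1 i2
  have q4 : ∫ x, 2 * (A1 L a x * g x ^ 2) = 2 * ∫ x, A1 L a x * g x ^ 2 := integral_const_mul _ _
  simp only [Pi.add_apply, Pi.sub_apply] at hmono q1 q2 q3 hs
  rw [q1, q2, q3, q4, hs] at hmono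
  linarith

/-- the general form -/
theorem D_gen : ∃ C : ℝ, 1 ≤ C ∧ ∀ (L a : ℝ) (v : E3 → E3), 1 ≤ L → Vs v → ∀ g : E3 → ℝ, Ri g →
    (∀ x, rsq x * g x ^ 2 ≤ 4 * gv v x) →
    ∫ x, A1 L a x * g x ^ 2 ≤ C * ((∫ x, A1 L a x * gsq g x) + GG L a v) := by
  obtain ⟨CA, hCA1, hCA⟩ := A1_dh
  refine ⟨16 * CA, by linarith, ?_⟩
  intro L a v hL hv g hg hb
  have h1 := hardy_A hL a hg
  have hA := A1_ri hL a
  have hphnn : ∀ x : E3, 0 ≤ ph L a (x 2) * gv v x := fun x => mul_nonneg (ph_pos L a _).le (gv_nn v x)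
  have hF : Continuous (fun x => |dh (A1 L a) x| * g x ^ 2) :=
    hA.dh.sm.continuous.abs.mul (hg.sm.continuous.pow 2)
  have h2 := gg_outer hv hL a (F := fun x => |dh (A1 L a) x| * g x ^ 2) (c := 16 * CA) (by linarith) hF
    (fun x hx => by
      rw [(hCA L a hL x).2.2.1 hx, abs_zero, zero_mul])
    (fun x hx => by
      rw [(hCA L a hL x).2.2.2 hx, abs_zero, zero_mul])
    (fun x => by
      rw [abs_of_nonneg (mul_nonneg (abs_nonneg _) (sq_nonneg _))]
      by_cases hx : rsq x < 1 / 4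
      · rw [(hCA L a hL x).2.2.1 hx, abs_zero, zero_mul]
        exact mul_nonneg (by linarith) (hphnn x)
      · push Not at hx
        have e1 := (hCA L a hL x).2.1
        have e2 : √(A1 L a x) ≤ √(ph L a (x 2)) := Real.sqrt_le_sqrt (A1_nn L a x).2
        have e3 : √(A1 L a x) * √(ph L a (x 2)) ≤ ph L a (x 2) := by
          calc √(A1 L a x) * √(ph L a (x 2)) ≤ √(ph L a (x 2)) * √(ph L a (x 2)) :=
                mul_le_mul_of_nonneg_right e2 (Real.sqrt_nonneg _)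
            _ = ph L a (x 2) := Real.mul_self_sqrt (ph_pos L a _).le
        have e4 : |dh (A1 L a) x| ≤ CA * ph L a (x 2) :=
          e1.trans (mul_le_mul_of_nonneg_left e3 (by linarith))
        have e5 : g x ^ 2 ≤ 16 * gv v x := by
          have e6 : 1 / 4 * g x ^ 2 ≤ rsq x * g x ^ 2 := mul_le_mul_of_nonneg_right hx (sq_nonneg _)
          have := hb x
          linarith
        calc |dh (A1 L a) x| * g x ^ 2 ≤ (CA * ph L a (x 2)) * (16 * gv v x) :=
              mul_le_mul e4 e5 (sq_nonneg _) (mul_nonneg (by linarith) (ph_pos L a _).le)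
          _ = 16 * CA * (ph L a (x 2) * gv v x) := by ring)
  have h3 : ∫ x, |dh (A1 L a) x| * g x ^ 2 ≤ 16 * CA * GG L a v := (le_abs_self _).trans h2.2
  obtain ⟨B, hB⟩ := hg.db 1
  have i4 : Integrable (fun x => A1 L a x * gsq g x) := by
    refine D_bdd hA.sm.continuous (fun x => D_Ale a x) ?_ (gsq_int hB).1
    unfold gsq
    exact continuous_finsetSum _ fun i _ => (pd_smooth hg.sm i).continuous.pow 2
  have h4 : ∫ x, A1 L a x * (rsq x * dh g x ^ 2) ≤ ∫ x, A1 L a x * gsq g x := by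
    refine integral_mono (D_I3 hL a hg) i4 fun x => ?_
    apply mul_le_mul_of_nonneg_left _ (A1_nn L a x).1
    rw [gsq_eq hg x]
    have := sq_nonneg (pd 2 g x)
    linarith
  have h5 : 0 ≤ ∫ x, A1 L a x * gsq g x :=
    integral_nonneg fun x => mul_nonneg (A1_nn L a x).1 (gsq_nonneg g x)
  have h6 : ∫ x, A1 L a x * gsq g x ≤ 16 * CA * ∫ x, A1 L a x * gsq g x := by
    nlinarith
  linarith

/-- S5. -/
theorem NJ_le : ∃ C : ℝ, 1 ≤ C ∧ ∀ (L a : ℝ) (v : E3 → E3), 1 ≤ L → Vs v → NJ L a v ≤ C * (DJ L a v + GG L a v) := by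
  obtain ⟨C, hC, h⟩ := D_gen
  refine ⟨C, hC, fun L a v hL hv => ?_⟩
  exact h L a v hL hv (Zz v) (vs_ri hv).2.2.2.1 fun x => by
    have h1 := gv_Z hv x
    have h2 := gv_nn v x
    linarith

theorem NO_le : ∃ C : ℝ, 1 ≤ C ∧ ∀ (L a : ℝ) (v : E3 → E3), 1 ≤ L → Vs v → NO L a v ≤ C * (DO L a v + GG L a v) := by
  obtain ⟨C, hC, h⟩ := D_gen
  refine ⟨C, hC, fun L a v hL hv => ?_⟩
  exact h L a v hL hv (sO v) (vs_ri hv).2.2.1 fun x => gv_O hv x

theorem W2_le : ∃ C : ℝ, 1 ≤ C ∧ ∀ (L a : ℝ) (v : E3 → E3), 1 ≤ L → Vs v →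
    ∫ x, A1 L a x * pd 2 (sW v) x ^ 2 ≤ C * ((∫ x, A1 L a x * gsq (pd 2 (sW v)) x) + GG L a v) := by
  obtain ⟨C, hC, h⟩ := D_gen
  refine ⟨C, hC, fun L a v hL hv => ?_⟩
  exact h L a v hL hv (pd 2 (sW v)) (vs_ri hv).2.1.pd2 fun x => by
    have h1 := gv_W2 hv x
    have h2 := gv_nn v x
    linarith

end Pool.Agent.H87.EP
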