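import Pool.Agent.H94.EP.Defs
import Pool.Agent.H87.NB.RotF

/-
ROW El_A. The class `Ri`, the operator `dh f = (1/r) ∂_r f` and the identities between `V, W, O, u_z`.
-/

set_option autoImplicit false

open Set Filter Topology MeasureTheory
open scoped ContDiff

namespace Pool.Agent.H87.EP

open Pool.Agent.H16 Pool.Agent.H87.NS Pool.Agent.H72.CC Pool.Agent.H16.TU Pool.Agent.H94.EP

/-- `(1/r) ∂_r f`, smooth at the axis. -/
noncomputable def dh (f : E3 → ℝ) : E3 → ℝ := avk 1 (fun y => pd 0 (pd 0 f) y + pd 1 (pd 1 f) y)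

/-- Smooth, rotation invariant, bounded and square integrable with all derivatives. -/
structure Ri (f : E3 → ℝ) : Prop where
  sm : ContDiff ℝ ∞ f
  rot : ∀ θ x, f (rot θ x) = f x
  db : ∀ n, ∃ B : ℝ, DB n B f

/-! ### auxiliary lemmas -/

theorem A_dd {f : E3 → ℝ} (hf : ContDiff ℝ ∞ f) (x : E3) : DifferentiableAt ℝ f x :=
  (hf.differentiable (by simp)) x

theorem A_fderiv_rot {f : E3 → ℝ} (hf : ContDiff ℝ ∞ f) (hr : ∀ θ x, f (rot θ x) = f x) (θ : ℝ) (x w : E3) :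
    fderiv ℝ f (rot θ x) (rot θ w) = fderiv ℝ f x w := by
  have h1 : HasFDerivAt (fun y => f (rotL θ y))
      ((fderiv ℝ f (rot θ x)).comp (rotL θ).toContinuousLinearEquiv.toContinuousLinearMap) x :=
    ((hf.differentiable (by simp)) (rot θ x)).hasFDerivAt.comp x
      (rotL θ).toContinuousLinearEquiv.toContinuousLinearMap.hasFDerivAt
  have h3 : (fun y => f (rotL θ y)) = f := by
    funext y
    exact hr θ y
  rw [h3] at h1
  have h4 := h1.unique ((hf.differentiable (by simp)) x).hasFDerivAt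
  have h5 := congrArg (fun L => L w) h4
  exact h5

theorem A_hor_rot (θ : ℝ) (x : E3) : hor (rot θ x) = rot θ (hor x) := by
  apply ext3 <;> simp

theorem A_rdr_rot {f : E3 → ℝ} (hf : ContDiff ℝ ∞ f) (hr : ∀ θ x, f (rot θ x) = f x) (θ : ℝ) (x : E3) :
    rdr f (rot θ x) = rdr f x := by
  have h : ∀ y : E3, rdr f y = fderiv ℝ f y (hor y) := by
    intro y
    rw [VRep_hor]
    rfl
  rw [h, h, A_hor_rot, A_fderiv_rot hf hr]

theorem A_rsq_cont : Continuous (rsq : E3 → ℝ) := LevX_rsq_cd.continuous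

theorem A_rot_cont (θ : ℝ) : Continuous (rot θ : E3 → E3) := (rotL θ).continuous

theorem A_dh_smooth {f : E3 → ℝ} (hf : ContDiff ℝ ∞ f) : ContDiff ℝ ∞ (dh f) := RotF_zf_smooth hf

theorem A_rdr_dh {f : E3 → ℝ} (hf : ContDiff ℝ ∞ f) (hr : ∀ θ x, f (rot θ x) = f x) (x : E3) :
    rdr f x = rsq x * dh f x := rdr_zf hf hr x

theorem A_dh_rot {f : E3 → ℝ} (hf : ContDiff ℝ ∞ f) (hr : ∀ θ x, f (rot θ x) = f x) (θ : ℝ) (x : E3) :
    dh f (rot θ x) = dh f x := by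
  have hc : Continuous (dh f) := (A_dh_smooth hf).continuous
  refine Psi_off (f := fun x => dh f (rot θ x)) (g := dh f) (hc.comp (A_rot_cont θ)) hc ?_ x
  intro y hy
  have h1 := A_rdr_dh hf hr (rot θ y)
  rw [A_rdr_rot hf hr, A_rdr_dh hf hr y, rsq_rot] at h1
  exact (mul_left_cancel₀ hy.ne' h1).symm

theorem A_add_DB {f g : E3 → ℝ} (hf : ContDiff ℝ ∞ f) (hg : ContDiff ℝ ∞ g) {n : ℕ} {K K' : ℝ}
    (h : DB n K f) (h' : DB n K' g) : ∃ B : ℝ, DB n B (fun x => f x + g x) := by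
  have h1 : DB n (max K K') f := DB_mono h le_rfl (le_max_left _ _)
  have h2 : DB n (max K K') (fun x => - g x) := Bds1_neg_DB (DB_mono h' le_rfl (le_max_right _ _))
  have h3 := Bds1_sub_DB hf hg.neg h1 h2
  refine ⟨6 * max K K', ?_⟩
  have h4 : (fun x => f x - - g x) = fun x => f x + g x := by
    funext x
    ring
  rw [← h4]
  exact h3

theorem A_smul_DB (c : ℝ) {n : ℕ} : ∀ {f : E3 → ℝ} {K : ℝ}, ContDiff ℝ ∞ f → DB n K f →
    DB n ((|c| + c ^ 2) * K) (fun x => c * f x) := by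
  induction n with
  | zero => intro f K _ h; exact smul_BL h c
  | succ n ih =>
    intro f K hf h
    refine ⟨smul_BL h.1 c, fun i => ?_⟩
    have h1 : pd i (fun x => c * f x) = fun x => c * pd i f x := by
      funext x
      exact Psi_cm (A_dd hf x) c i
    rw [h1]
    exact ih (pd_smooth hf i) (h.2 i)

theorem A_pd_mul {f g : E3 → ℝ} (hf : ContDiff ℝ ∞ f) (hg : ContDiff ℝ ∞ g) (i : Fin 3) :
    pd i (fun x => f x * g x) = fun x => pd i f x * g x + f x * pd i g x := by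
  funext x
  exact Psi_mul (A_dd hf x) (A_dd hg x) i

theorem A_mul_DB (n : ℕ) : ∀ {f g : E3 → ℝ}, ContDiff ℝ ∞ f → ContDiff ℝ ∞ g → (∀ m, ∃ B : ℝ, DB m B f) →
    (∀ m, ∃ B : ℝ, DB m B g) → ∃ B : ℝ, DB n B (fun x => f x * g x) := by
  have hbl : ∀ {f g : E3 → ℝ}, ContDiff ℝ ∞ f → ContDiff ℝ ∞ g → (∀ m, ∃ B : ℝ, DB m B f) →
    (∀ m, ∃ B : ℝ, DB m B g) → ∃ B : ℝ, BL B (fun x => f x * g x) := by
    intro f g hf hg h h'
    obtain ⟨K, hK⟩ := h 0
    obtain ⟨K', hK'⟩ := h' 0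
    exact ⟨_, mul_BL hg.continuous hf.continuous hK' hK.1⟩
  induction n with
  | zero => intro f g hf hg h h'; exact hbl hf hg h h'
  | succ n ih =>
    intro f g hf hg h h'
    obtain ⟨K, hK⟩ := hbl hf hg h h'
    have hi : ∀ i : Fin 3, ∃ B : ℝ, DB n B (pd i (fun x => f x * g x)) := by
      intro i
      have hpf : ∀ m, ∃ B : ℝ, DB m B (pd i f) := by
        intro m
        obtain ⟨B, hB⟩ := h (m + 1)
        exact ⟨B, DB_pd hB i⟩
      have hpg : ∀ m, ∃ B : ℝ, DB m B (pd i g) := by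
        intro m
        obtain ⟨B, hB⟩ := h' (m + 1)
        exact ⟨B, DB_pd hB i⟩
      obtain ⟨B1, h1⟩ := ih (pd_smooth hf i) hg hpf h'
      obtain ⟨B2, h2⟩ := ih hf (pd_smooth hg i) h hpg
      rw [A_pd_mul hf hg]
      exact A_add_DB ((pd_smooth hf i).mul hg) (hf.mul (pd_smooth hg i)) h1 h2
    choose B hB using hi
    refine ⟨max K (max (B 0) (max (B 1) (B 2))), BL_mono hK (le_max_left _ _), fun i => ?_⟩
    refine DB_mono (hB i) le_rfl (le_trans ?_ (le_max_right _ _))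
    fin_cases i
    · exact le_max_left _ _
    · exact (le_max_left _ _).trans (le_max_right _ _)
    · exact (le_max_right _ _).trans (le_max_right _ _)

theorem A_comm {f : E3 → ℝ} (hf : ContDiff ℝ ∞ f) (i j : Fin 3) (x : E3) :
    pd i (pd j f) x = pd j (pd i f) x := by
  have hd : Differentiable ℝ (fderiv ℝ f) :=
    (hf.fderiv_right (m := ∞) (by norm_cast)).differentiable (by simp)
  have h : ∀ i j : Fin 3, pd i (pd j f) x = fderiv ℝ (fderiv ℝ f) x (e i) (e j) := by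
    intro i j
    have h1 : HasFDerivAt (fun y => fderiv ℝ f y (e j))
        ((ContinuousLinearMap.apply ℝ ℝ (e j)).comp (fderiv ℝ (fderiv ℝ f) x)) x :=
      (ContinuousLinearMap.apply ℝ ℝ (e j)).hasFDerivAt.comp x (hd x).hasFDerivAt
    have h2 : pd j f = fun y => fderiv ℝ f y (e j) := rfl
    rw [h2]
    unfold pd
    rw [h1.fderiv]
    rfl
  have hc : ContDiffAt ℝ 2 f x := (hf.of_le (by norm_cast)).contDiffAt
  have hs : IsSymmSndFDerivAt ℝ f x := hc.isSymmSndFDerivAt (by simp)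
  rw [h, h, hs (e i) (e j)]

theorem A_rdr_cont {f : E3 → ℝ} (hf : ContDiff ℝ ∞ f) : Continuous (rdr f) := (Psi_rdr_smooth hf).continuous

theorem A_rdr_pd2 {f : E3 → ℝ} (hf : ContDiff ℝ ∞ f) (x : E3) : rdr (pd 2 f) x = pd 2 (rdr f) x := by
  have h : rdr f = fun y => y 0 * pd 0 f y + y 1 * pd 1 f y := rfl
  have hs : ∀ k j : Fin 3, ContDiff ℝ ∞ (fun y : E3 => y k * pd j f y) := fun k j =>
    (LevX_coord_cd k).mul (pd_smooth hf j)
  rw [h, Psi_add (A_dd (hs 0 0) x) (A_dd (hs 1 1) x), RotF_pd_xmul (pd_smooth hf 0), RotF_pd_xmul (pd_smooth hf 1)]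
  simp only [Fin.isValue, Fin.reduceEq, if_false]
  unfold rdr
  rw [A_comm hf 0 2, A_comm hf 1 2]
  ring

theorem A_pdi {f : E3 → ℝ} (hf : ContDiff ℝ ∞ f) (hr : ∀ θ x, f (rot θ x) = f x) (x : E3) :
    pd 0 f x = x 0 * dh f x ∧ pd 1 f x = x 1 * dh f x := by
  have hc := (A_dh_smooth hf).continuous
  constructor
  · refine Psi_off (f := pd 0 f) (g := fun x => x 0 * dh f x) (pd_smooth hf 0).continuous
      ((Psi_cont_coord 0).mul hc) ?_ x
    intro y hy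
    have h1 := (rot_inv hf hr y).1
    rw [A_rdr_dh hf hr] at h1
    refine mul_left_cancel₀ hy.ne' ?_
    rw [h1]
    ring
  · refine Psi_off (f := pd 1 f) (g := fun x => x 1 * dh f x) (pd_smooth hf 1).continuous
      ((Psi_cont_coord 1).mul hc) ?_ x
    intro y hy
    have h1 := (rot_inv hf hr y).2.1
    rw [A_rdr_dh hf hr] at h1
    refine mul_left_cancel₀ hy.ne' ?_
    rw [h1]
    ring

theorem A_lap3 (f : E3 → ℝ) (x : E3) : lap f x = pd 0 (pd 0 f) x + pd 1 (pd 1 f) x + pd 2 (pd 2 f) x := by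
  unfold lap
  rw [Fin.sum_univ_three]

theorem A_uniq {f g : E3 → ℝ} (hf : ContDiff ℝ ∞ f) (hr : ∀ θ x, f (rot θ x) = f x) (hg : Continuous g)
    (he : ∀ x, 0 < rsq x → rdr f x = rsq x * g x) : dh f = g := by
  funext x
  refine Psi_off (A_dh_smooth hf).continuous hg ?_ x
  intro y hy
  have h1 := he y hy
  rw [A_rdr_dh hf hr] at h1
  exact mul_left_cancel₀ hy.ne' h1

theorem A_dh_pd2 {f : E3 → ℝ} (hf : ContDiff ℝ ∞ f) : dh (pd 2 f) = pd 2 (dh f) := by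
  have h0 : ContDiff ℝ ∞ (fun y => pd 0 (pd 0 f) y + pd 1 (pd 1 f) y) := RotF_lap_smooth hf
  unfold dh
  rw [avk_pd_two h0 1]
  have h1 : (fun y => pd 0 (pd 0 (pd 2 f)) y + pd 1 (pd 1 (pd 2 f)) y) =
      pd 2 (fun y => pd 0 (pd 0 f) y + pd 1 (pd 1 f) y) := by
    funext y
    have e : ∀ i : Fin 3, pd i (pd i (pd 2 f)) y = pd 2 (pd i (pd i f)) y := by
      intro i
      have h2 : pd i (pd 2 f) = pd 2 (pd i f) := by
        funext z
        exact A_comm hf i 2 z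
      rw [h2]
      exact A_comm (pd_smooth hf i) i 2 y
    rw [Psi_add (A_dd (pd_smooth (pd_smooth hf 0) 0) y) (A_dd (pd_smooth (pd_smooth hf 1) 1) y), e 0, e 1]
  rw [h1]

theorem A_rdr {f : E3 → ℝ} (hf : ContDiff ℝ ∞ f) (hr : ∀ θ x, f (rot θ x) = f x) (x : E3) :
    rdr f x = rsq x * dh f x := A_rdr_dh hf hr x

theorem A_pd {f : E3 → ℝ} (hf : ContDiff ℝ ∞ f) (hr : ∀ θ x, f (rot θ x) = f x) (x : E3) :
    pd 0 f x = x 0 * dh f x ∧ pd 1 f x = x 1 * dh f x := A_pdi hf hr x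

theorem A_gsq {f : E3 → ℝ} (hf : ContDiff ℝ ∞ f) (hr : ∀ θ x, f (rot θ x) = f x) (x : E3) :
    gsq f x = rsq x * dh f x ^ 2 + pd 2 f x ^ 2 := by
  obtain ⟨h0, h1⟩ := A_pdi hf hr x
  unfold gsq rsq
  rw [Fin.sum_univ_three, h0, h1]
  ring

theorem A_lap {f : E3 → ℝ} (hf : ContDiff ℝ ∞ f) (hr : ∀ θ x, f (rot θ x) = f x) (x : E3) :
    lap f x = rdr (dh f) x + 2 * dh f x + pd 2 (pd 2 f) x := by
  have h1 : pd 0 (pd 0 f) x + pd 1 (pd 1 f) x = 2 * dh f x + rdr (dh f) x := zf_lap hf hr x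
  rw [A_lap3, h1]
  ring

theorem A_sP_ri {v : E3 → E3} (h : Vs v) : Ri (sP v) := by
  refine ⟨sP_smooth h.ax, sP_rot h.ax, fun n => ?_⟩
  obtain ⟨B, hB⟩ := h.db n
  exact ⟨2 * B, avk_DB (Psi_v2 h.ax) le_rfl (hB 2)⟩

theorem A_sW_eq {v : E3 → E3} (hv : AxF v) : sW v = fun x => (-1 : ℝ) * pd 2 (sP v) x := by
  funext x
  rw [sW_sP hv]
  ring

theorem A_v2_eq {v : E3 → E3} (hv : AxF v) : (fun y => v y 2) = fun x => 2 * sP v x + rdr (sP v) x := by
  funext x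
  exact sP_two hv x

theorem A_sO_eq {v : E3 → E3} (hv : AxF v) : sO v = fun x => (-1 : ℝ) * lap (sP v) x + (-2 : ℝ) * dh (sP v) x := by
  have hP := sP_smooth hv
  have hc : Continuous (sO v) :=
    (avk_smooth (f := fun y => curl (curl v) y 2) (VRep_coord (curl_smooth (curl_smooth hv.smooth)) 2) 1).continuous
  funext x
  refine Psi_off (f := sO v) (g := fun x => (-1 : ℝ) * lap (sP v) x + (-2 : ℝ) * dh (sP v) x) hc ?_ ?_ x
  · exact (continuous_const.mul (Psi_lap_cont hP)).add (continuous_const.mul (A_dh_smooth hP).continuous)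
  · intro y hy
    have h1 := sO_sP hv y
    rw [A_rdr_dh hP (sP_rot hv)] at h1
    refine mul_left_cancel₀ hy.ne' ?_
    rw [h1]
    ring

theorem A_lap_smooth {f : E3 → ℝ} (hf : ContDiff ℝ ∞ f) : ContDiff ℝ ∞ (lap f) := by
  have h : lap f = fun x => pd 0 (pd 0 f) x + pd 1 (pd 1 f) x + pd 2 (pd 2 f) x := by
    funext x
    exact A_lap3 f x
  rw [h]
  exact ((pd_smooth (pd_smooth hf 0) 0).add (pd_smooth (pd_smooth hf 1) 1)).add (pd_smooth (pd_smooth hf 2) 2)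

theorem A_lap_pd2 {f : E3 → ℝ} (hf : ContDiff ℝ ∞ f) (x : E3) : lap (pd 2 f) x = pd 2 (lap f) x := by
  have h : lap f = fun x => (pd 0 (pd 0 f) x + pd 1 (pd 1 f) x) + pd 2 (pd 2 f) x := by
    funext x
    exact A_lap3 f x
  have e : ∀ i : Fin 3, pd i (pd i (pd 2 f)) x = pd 2 (pd i (pd i f)) x := by
    intro i
    have h2 : pd i (pd 2 f) = pd 2 (pd i f) := by
      funext z
      exact A_comm hf i 2 z
    rw [h2]
    exact A_comm (pd_smooth hf i) i 2 x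
  have s : ∀ i : Fin 3, ContDiff ℝ ∞ (pd i (pd i f)) := fun i => pd_smooth (pd_smooth hf i) i
  rw [A_lap3, h, Psi_add (f := fun x => pd 0 (pd 0 f) x + pd 1 (pd 1 f) x) (A_dd ((s 0).add (s 1)) x) (A_dd (s 2) x),
    Psi_add (A_dd (s 0) x) (A_dd (s 1) x), e 0, e 1, e 2]

theorem A_lap_smul {f : E3 → ℝ} (hf : ContDiff ℝ ∞ f) (c : ℝ) (x : E3) :
    lap (fun y => c * f y) x = c * lap f x := by
  have h1 : ∀ {g : E3 → ℝ}, ContDiff ℝ ∞ g → ∀ i : Fin 3, pd i (fun y => c * g y) = fun y => c * pd i g y := by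
    intro g hg i
    funext y
    exact Psi_cm (A_dd hg y) c i
  rw [A_lap3, A_lap3, h1 hf, h1 hf, h1 hf, h1 (pd_smooth hf 0), h1 (pd_smooth hf 1), h1 (pd_smooth hf 2)]
  ring

theorem A_dh_smul {f : E3 → ℝ} (hf : ContDiff ℝ ∞ f) (hr : ∀ θ x, f (rot θ x) = f x) (c : ℝ) :
    dh (fun y => c * f y) = fun y => c * dh f y := by
  refine A_uniq (contDiff_const.mul hf) (fun θ x => by rw [hr]) (continuous_const.mul (A_dh_smooth hf).continuous) ?_
  intro x _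
  have h1 := A_rdr_dh hf hr x
  unfold rdr at h1 ⊢
  rw [Psi_cm (A_dd hf x), Psi_cm (A_dd hf x)]
  linear_combination c * h1

/-! ### the row -/

theorem Ri.pd2 {f : E3 → ℝ} (h : Ri f) : Ri (pd 2 f) := by
  refine ⟨pd_smooth h.sm 2, rot_pd2 h.sm h.rot, fun n => ?_⟩
  obtain ⟨B, hB⟩ := h.db (n + 1)
  exact ⟨B, DB_pd hB 2⟩

theorem Ri.dh {f : E3 → ℝ} (h : Ri f) : Ri (dh f) := by
  refine ⟨A_dh_smooth h.sm, A_dh_rot h.sm h.rot, fun n => ?_⟩
  obtain ⟨B, hB⟩ := h.db (n + 2)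
  exact zf_DB h.sm hB

theorem Ri.mul {f g : E3 → ℝ} (h : Ri f) (h' : Ri g) : Ri (fun x => f x * g x) := by
  refine ⟨h.sm.mul h'.sm, fun θ x => ?_, fun n => A_mul_DB n h.sm h'.sm h.db h'.db⟩
  show f (Pool.Agent.H16.rot θ x) * g (Pool.Agent.H16.rot θ x) = f x * g x
  rw [h.rot, h'.rot]

theorem Ri.add {f g : E3 → ℝ} (h : Ri f) (h' : Ri g) : Ri (fun x => f x + g x) := by
  refine ⟨h.sm.add h'.sm, fun θ x => ?_, fun n => ?_⟩
  · show f (Pool.Agent.H16.rot θ x) + g (Pool.Agent.H16.rot θ x) = f x + g x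
    rw [h.rot, h'.rot]
  · obtain ⟨B, hB⟩ := h.db n
    obtain ⟨B', hB'⟩ := h'.db n
    exact A_add_DB h.sm h'.sm hB hB'

theorem Ri.smul {f : E3 → ℝ} (h : Ri f) (c : ℝ) : Ri (fun x => c * f x) := by
  refine ⟨contDiff_const.mul h.sm, fun θ x => ?_, fun n => ?_⟩
  · show c * f (Pool.Agent.H16.rot θ x) = c * f x
    rw [h.rot]
  · obtain ⟨B, hB⟩ := h.db n
    exact ⟨_, A_smul_DB c h.sm hB⟩

theorem rdr_eq {f : E3 → ℝ} (h : Ri f) (x : E3) : rdr f x = rsq x * dh f x := A_rdr_dh h.sm h.rot x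

/-- Uniqueness. -/
theorem dh_uniq {f g : E3 → ℝ} (h : Ri f) (hg : Continuous g) (he : ∀ x, 0 < rsq x → rdr f x = rsq x * g x) : dh f = g :=
  A_uniq h.sm h.rot hg he

theorem dh_pd2 {f : E3 → ℝ} (h : Ri f) : dh (pd 2 f) = pd 2 (dh f) := A_dh_pd2 h.sm

theorem dh_mul {f g : E3 → ℝ} (h : Ri f) (h' : Ri g) (x : E3) : dh (fun x => f x * g x) x = f x * dh g x + dh f x * g x := by
  have h1 : dh (fun x => f x * g x) = fun x => f x * dh g x + dh f x * g x := by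
    refine dh_uniq (h.mul h') ?_ ?_
    · exact (h.sm.continuous.mul (A_dh_smooth h'.sm).continuous).add
        ((A_dh_smooth h.sm).continuous.mul h'.sm.continuous)
    · intro y _
      have e1 := rdr_eq h y
      have e2 := rdr_eq h' y
      unfold rdr at e1 e2 ⊢
      rw [Psi_mul (A_dd h.sm y) (A_dd h'.sm y), Psi_mul (A_dd h.sm y) (A_dd h'.sm y)]
      linear_combination g y * e1 + f y * e2
  rw [h1]

theorem gsq_eq {f : E3 → ℝ} (h : Ri f) (x : E3) : gsq f x = rsq x * dh f x ^ 2 + pd 2 f x ^ 2 := by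
  obtain ⟨h0, h1⟩ := A_pdi h.sm h.rot x
  unfold gsq rsq
  rw [Fin.sum_univ_three, h0, h1]
  ring

theorem lap_eq {f : E3 → ℝ} (h : Ri f) (x : E3) : lap f x = rdr (dh f) x + 2 * dh f x + pd 2 (pd 2 f) x := by
  have h1 : pd 0 (pd 0 f) x + pd 1 (pd 1 f) x = 2 * dh f x + rdr (dh f) x := zf_lap h.sm h.rot x
  rw [A_lap3, h1]
  ring

theorem vs_ri {v : E3 → E3} (h : Vs v) : Ri (sV v) ∧ Ri (sW v) ∧ Ri (sO v) ∧ Ri (Zz v) ∧ Ri (fun x => v x 2) := by
  have hv := h.ax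
  have hV : Ri (sV v) := by
    refine ⟨avk_smooth (f := fun y => curl v y 2) (VRep_coord (curl_smooth hv.smooth) 2) 1, sV_rot hv, fun n => ?_⟩
    obtain ⟨B, hB⟩ := h.db (n + 1)
    exact ⟨_, avk_DB (f := fun y => curl v y 2) (VRep_coord (curl_smooth hv.smooth) 2) le_rfl
      (Bds1_curl_DB hv.smooth hB 2)⟩
  have hW : Ri (sW v) := by
    have h1 := (A_sP_ri h).pd2.smul (-1)
    rw [A_sW_eq hv]
    exact h1
  have hO : Ri (sO v) := by
    refine ⟨avk_smooth (f := fun y => curl (curl v) y 2) (VRep_coord (curl_smooth (curl_smooth hv.smooth)) 2) 1,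
      sO_rot hv, fun n => ?_⟩
    obtain ⟨B, hB⟩ := h.db (n + 1 + 1)
    exact ⟨_, avk_DB (f := fun y => curl (curl v) y 2) (VRep_coord (curl_smooth (curl_smooth hv.smooth)) 2) le_rfl
      (Bds1_curl_DB (curl_smooth hv.smooth) (fun j => Bds1_curl_DB hv.smooth hB j) 2)⟩
  refine ⟨hV, hW, hO, hV.pd2, VRep_coord hv.smooth 2, fun θ x => ?_, fun n => ?_⟩
  · show v (Pool.Agent.H16.rot θ x) 2 = v x 2
    rw [hv.ax, rot_two']
  · obtain ⟨B, hB⟩ := h.db n
    exact ⟨B, hB 2⟩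

/-- `∂_z u_z = - (2 W + r ∂_r W)`. -/
theorem v2_pd2 {v : E3 → E3} (h : Vs v) (x : E3) : pd 2 (fun y => v y 2) x = - (2 * sW v x + rsq x * dh (sW v) x) := by
  have hv := h.ax
  have hP := sP_smooth hv
  have h1 := rdr_eq (vs_ri h).2.1 x
  rw [← h1, A_v2_eq hv]
  rw [Psi_add (A_dd (contDiff_const.mul hP) x) (A_dd (Psi_rdr_smooth hP) x), Psi_cm (A_dd hP x), A_sW_eq hv]
  have h2 : rdr (fun x => (-1 : ℝ) * pd 2 (sP v) x) x = (-1 : ℝ) * pd 2 (rdr (sP v)) x := by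
    rw [← A_rdr_pd2 hP]
    unfold rdr
    rw [Psi_cm (A_dd (pd_smooth hP 2) x), Psi_cm (A_dd (pd_smooth hP 2) x)]
    ring
  rw [h2]
  ring

/-- `(1/r) ∂_r u_z = ∂_z W - O`. -/
theorem dh_v2 {v : E3 → E3} (h : Vs v) (x : E3) : dh (fun y => v y 2) x = pd 2 (sW v) x - sO v x := by
  have hv := h.ax
  have hP := sP_smooth hv
  obtain ⟨-, hW, hO, -, h2⟩ := vs_ri h
  have h1 : dh (fun y => v y 2) = fun x => pd 2 (sW v) x - sO v x := by
    refine dh_uniq h2 ((pd_smooth hW.sm 2).continuous.sub hO.sm.continuous) ?_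
    intro y _
    have e1 : rdr (fun y => v y 2) y = 2 * rdr (sP v) y + rdr (rdr (sP v)) y := by
      rw [A_v2_eq hv]
      have e0 : ∀ i : Fin 3, pd i (fun x => 2 * sP v x + rdr (sP v) x) y = 2 * pd i (sP v) y + pd i (rdr (sP v)) y := by
        intro i
        rw [Psi_add (A_dd (contDiff_const.mul hP) y) (A_dd (Psi_rdr_smooth hP) y), Psi_cm (A_dd hP y)]
      show y 0 * pd 0 (fun x => 2 * sP v x + rdr (sP v) x) y + y 1 * pd 1 (fun x => 2 * sP v x + rdr (sP v) x) y =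
        2 * (y 0 * pd 0 (sP v) y + y 1 * pd 1 (sP v) y) + (y 0 * pd 0 (rdr (sP v)) y + y 1 * pd 1 (rdr (sP v)) y)
      rw [e0, e0]
      ring
    have e2 := (rot_inv hP (sP_rot hv) y).2.2
    have e3 := sO_sP hv y
    have e4 : pd 2 (sW v) y = - pd 2 (pd 2 (sP v)) y := by
      rw [A_sW_eq hv, Psi_cm (A_dd (pd_smooth hP 2) y)]
      ring
    rw [A_lap3] at e3
    rw [e1, e2, e4]
    linear_combination e3
  rw [h1]

/-- `L4 W = ∂_z O`. -/
theorem L4W {v : E3 → E3} (h : Vs v) (x : E3) : lap (sW v) x + 2 * dh (sW v) x = pd 2 (sO v) x := by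
  have hv := h.ax
  have hPr := A_sP_ri h
  have hP := hPr.sm
  have hr2 := hPr.pd2.rot
  rw [A_sO_eq hv, A_sW_eq hv, A_lap_smul (pd_smooth hP 2), A_lap_pd2 hP, A_dh_smul (pd_smooth hP 2) hr2,
    A_dh_pd2 hP,
    Psi_add (A_dd (contDiff_const.mul (A_lap_smooth hP)) x) (A_dd (contDiff_const.mul (A_dh_smooth hP)) x),
    Psi_cm (A_dd (A_lap_smooth hP) x), Psi_cm (A_dd (A_dh_smooth hP) x)]
  ring

/-- The same, in the form used for the estimates. -/
theorem L4W' {v : E3 → E3} (h : Vs v) (x : E3) : rdr (dh (sW v)) x + 4 * dh (sW v) x = pd 2 (sO v) x - pd 2 (pd 2 (sW v)) x := by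
  have h1 := L4W h x
  rw [lap_eq (vs_ri h).2.1] at h1
  linarith

end Pool.Agent.H87.EP
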