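import Pool.Agent.H87.EP.F

/-
The sup bounds near the axis. Auxiliary lemmas are prefixed `G_`.
-/

set_option autoImplicit false

open Set Filter Topology MeasureTheory
open scoped ContDiff

namespace Pool.Agent.H87.EP

open Pool.Agent.H16 Pool.Agent.H87.NS Pool.Agent.H72.CC Pool.Agent.H16.TU Pool.Agent.H94.EP

theorem G_ph6 {L a : ℝ} (hL : 1 ≤ L) {t s : ℝ} (ht : |t - a| ≤ L) (h1 : t ≤ s) (h2 : s ≤ t + 1) :
    1 / 6 ≤ ph L a s := by
  have h3 : 1 / 2 ≤ ph L a t := ph_half (by linarith) ht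
  have h4 : ph L a (s + (t - s)) ≤ 3 * ph L a s :=
    ph_shift hL a s (t - s) (by rw [abs_le]; constructor <;> linarith)
  have h5 : s + (t - s) = t := by ring
  rw [h5] at h4
  linarith

theorem G_loc {L a : ℝ} (hL : 1 ≤ L) {g : ℝ → ℝ} (hg : Continuous g)
    (h1 : Integrable (fun s => ph L a s * g s ^ 2)) {t : ℝ} (ht : |t - a| ≤ L) :
    ∫ s in t..(t + 1), g s ^ 2 ≤ 6 * ∫ s, ph L a s * g s ^ 2 := by
  have hle : t ≤ t + 1 := by linarith
  rw [intervalIntegral.integral_of_le hle, ← integral_const_mul]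
  have h2 : ∫ s in Ioc t (t + 1), g s ^ 2 ≤ ∫ s in Ioc t (t + 1), 6 * (ph L a s * g s ^ 2) := by
    refine setIntegral_mono_on ?_ (h1.const_mul 6).integrableOn measurableSet_Ioc fun s hs => ?_
    · exact ((hg.pow 2).integrableOn_Icc (a := t) (b := t + 1)).mono_set Ioc_subset_Icc_self
    · have h3 := G_ph6 hL ht hs.1.le hs.2
      nlinarith [sq_nonneg (g s)]
  refine h2.trans (setIntegral_le_integral (h1.const_mul 6) (Filter.Eventually.of_forall fun s => ?_))
  exact mul_nonneg (by norm_num) (mul_nonneg (ph_pos L a s).le (sq_nonneg _))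

theorem sob1 {L a : ℝ} (hL : 1 ≤ L) {f : ℝ → ℝ} (hf : ContDiff ℝ 1 f) (h1 : Integrable (fun s => ph L a s * f s ^ 2))
    (h2 : Integrable (fun s => ph L a s * deriv f s ^ 2)) {t : ℝ} (ht : |t - a| ≤ L) :
    f t ^ 2 ≤ 16 * ((∫ s, ph L a s * f s ^ 2) + ∫ s, ph L a s * deriv f s ^ 2) := by
  have hfc : Continuous f := hf.continuous
  have hdc : Continuous (deriv f) := hf.continuous_deriv le_rfl
  have hd : ∀ s, HasDerivAt f (deriv f s) s := fun s =>
    ((hf.differentiable (by norm_num)) s).hasDerivAt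
  have a1 := G_loc hL hfc h1 ht
  have a2 := G_loc hL hdc h2 ht
  have hI : ∀ u v : ℝ, IntervalIntegrable (fun s => f s ^ 2) volume u v := fun u v =>
    (hfc.pow 2).intervalIntegrable u v
  have hJ : ∀ u v : ℝ, IntervalIntegrable (fun s => deriv f s ^ 2) volume u v := fun u v =>
    (hdc.pow 2).intervalIntegrable u v
  -- pointwise
  have key : ∀ s ∈ Icc t (t + 1), f t ^ 2 ≤ f s ^ 2 +
      ((∫ s in t..(t + 1), f s ^ 2) + ∫ s in t..(t + 1), deriv f s ^ 2) := by
    intro s hs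
    have e1 : ∫ y in t..s, 2 * f y * deriv f y = f s ^ 2 - f t ^ 2 := by
      apply intervalIntegral.integral_eq_sub_of_hasDerivAt (f := fun y => f y ^ 2)
      · intro y _
        have := (hd y).pow 2
        refine this.congr_deriv ?_
        simp
      · exact ((continuous_const.mul hfc).mul hdc).intervalIntegrable _ _
    have e2 : - ∫ y in t..s, 2 * f y * deriv f y ≤ ∫ y in t..s, (f y ^ 2 + deriv f y ^ 2) := by
      rw [← intervalIntegral.integral_neg]
      refine intervalIntegral.integral_mono_on hs.1 ?_ ((hI t s).add (hJ t s)) fun y _ => ?_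
      · exact (((continuous_const.mul hfc).mul hdc).neg).intervalIntegrable _ _
      · nlinarith [sq_nonneg (f y + deriv f y)]
    have e3 : ∫ y in t..s, (f y ^ 2 + deriv f y ^ 2) ≤ ∫ y in t..(t + 1), (f y ^ 2 + deriv f y ^ 2) := by
      rw [← intervalIntegral.integral_add_adjacent_intervals ((hI t s).add (hJ t s))
        ((hI s (t + 1)).add (hJ s (t + 1)))]
      have : 0 ≤ ∫ y in s..(t + 1), (f y ^ 2 + deriv f y ^ 2) :=
        intervalIntegral.integral_nonneg hs.2 fun y _ => by positivity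
      linarith
    rw [intervalIntegral.integral_add (hI t (t + 1)) (hJ t (t + 1))] at e3
    linarith
  have h3 : ∫ _ in t..(t + 1), f t ^ 2 ≤ ∫ s in t..(t + 1), (f s ^ 2 +
      ((∫ s in t..(t + 1), f s ^ 2) + ∫ s in t..(t + 1), deriv f s ^ 2)) := by
    refine intervalIntegral.integral_mono_on (by linarith) ?_ ((hI _ _).add ?_) key
    · exact continuous_const.intervalIntegrable _ _
    · exact continuous_const.intervalIntegrable _ _
  rw [intervalIntegral.integral_add (hI _ _) (continuous_const.intervalIntegrable _ _),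
    intervalIntegral.integral_const, intervalIntegral.integral_const] at h3
  simp only [add_sub_cancel_left, one_smul] at h3
  have p1 : 0 ≤ ∫ s, ph L a s * f s ^ 2 :=
    integral_nonneg fun s => mul_nonneg (ph_pos L a s).le (sq_nonneg _)
  have p2 : 0 ≤ ∫ s, ph L a s * deriv f s ^ 2 :=
    integral_nonneg fun s => mul_nonneg (ph_pos L a s).le (sq_nonneg _)
  linarith

theorem G_rot (x : E3) : ∃ θ : ℝ, rot θ (lp (rad x) (x 2)) = x := by
  refine ⟨Complex.arg ⟨x 0, x 1⟩, ?_⟩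
  have h0 : ‖(⟨x 0, x 1⟩ : ℂ)‖ = rad x := by
    rw [Complex.norm_eq_sqrt_sq_add_sq]
    rfl
  have h1 := Complex.norm_mul_cos_arg (⟨x 0, x 1⟩ : ℂ)
  have h2 := Complex.norm_mul_sin_arg (⟨x 0, x 1⟩ : ℂ)
  rw [h0] at h1 h2
  simp only at h1 h2
  ext i
  fin_cases i
  · show Real.cos _ * rad x - Real.sin _ * 0 = x 0
    rw [mul_zero, sub_zero, mul_comm]
    exact h1
  · show Real.sin _ * rad x + Real.cos _ * 0 = x 1
    rw [mul_zero, add_zero, mul_comm]
    exact h2
  · rfl

theorem G_inv {f : E3 → ℝ} (hr : ∀ θ x, f (rot θ x) = f x) (x : E3) : f (lp (rad x) (x 2)) = f x := by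
  obtain ⟨θ, h⟩ := G_rot x
  rw [← hr θ (lp (rad x) (x 2)), h]

theorem G_lp (r s : ℝ) : lp r s = r • (e 0 : E3) + s • (e 2 : E3) := by
  ext i
  fin_cases i <;> simp [lp, e]

theorem G_hasDeriv {f : E3 → ℝ} (hf : ContDiff ℝ ∞ f) (r s : ℝ) :
    HasDerivAt (fun s => f (lp r s)) (pd 2 f (lp r s)) s := by
  have h1 : HasDerivAt (fun s : ℝ => lp r s) (e 2) s := by
    have h2 : (fun s : ℝ => lp r s) = fun s : ℝ => r • (e 0 : E3) + s • (e 2 : E3) := by
      funext s
      exact G_lp r s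
    rw [h2]
    have h3 : HasDerivAt (fun s : ℝ => s • (e 2 : E3)) ((1 : ℝ) • (e 2 : E3)) s :=
      (hasDerivAt_id s).smul_const (e 2)
    rw [one_smul] at h3
    exact h3.const_add _
  have h2 : HasFDerivAt f (fderiv ℝ f (lp r s)) (lp r s) :=
    ((hf.differentiable (by simp)) (lp r s)).hasFDerivAt
  exact h2.comp_hasDerivAt s h1

theorem G_cd {f : E3 → ℝ} (hf : ContDiff ℝ ∞ f) (r : ℝ) : ContDiff ℝ 1 (fun s => f (lp r s)) := by
  have h2 : (fun s : ℝ => f (lp r s)) = fun s : ℝ => f (r • (e 0 : E3) + s • (e 2 : E3)) := by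
    funext s
    rw [G_lp r s]
  rw [h2]
  exact (hf.of_le (by simp)).comp (contDiff_const.add (contDiff_id.smul contDiff_const))

/-- The bound off the axis carries over to all points. -/
theorem G_all {f : E3 → ℝ} (hf : Continuous f) (hr : ∀ θ x, f (rot θ x) = f x) {M : ℝ} {x : E3}
    (hx : rsq x ≤ 1 / 4) (h : ∀ r, 0 < r → r ^ 2 ≤ 1 / 4 → f (lp r (x 2)) ^ 2 ≤ M) : f x ^ 2 ≤ M := by
  rw [← G_inv hr x]
  have h0 : 0 ≤ rad x := Real.sqrt_nonneg _
  have h1 : rad x ^ 2 = rsq x := by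
    unfold rad rsq
    exact Real.sq_sqrt (by positivity)
  rcases h0.eq_or_lt with h2 | h2
  · rw [← h2]
    have hc : Continuous (fun r : ℝ => f (lp r (x 2)) ^ 2) := by
      have h3 : (fun r : ℝ => f (lp r (x 2)) ^ 2) =
          fun r : ℝ => f (r • (e 0 : E3) + (x 2) • (e 2 : E3)) ^ 2 := by
        funext r
        rw [G_lp r (x 2)]
      rw [h3]
      exact (hf.comp ((continuous_id.smul continuous_const).add continuous_const)).pow 2
    have ht : Tendsto (fun r : ℝ => f (lp r (x 2)) ^ 2) (𝓝[>] 0) (𝓝 (f (lp 0 (x 2)) ^ 2)) :=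
      (hc.tendsto 0).mono_left nhdsWithin_le_nhds
    refine le_of_tendsto ht ?_
    have h4 : Ioo (0 : ℝ) (1 / 2) ∈ 𝓝[>] (0 : ℝ) := Ioo_mem_nhdsGT (by norm_num)
    filter_upwards [h4] with r hr'
    exact h r hr'.1 (by nlinarith [hr'.1, hr'.2])
  · exact h (rad x) h2 (by rw [h1]; exact hx)

/-- P1w. -/
theorem p1w : ∃ C : ℝ, 1 ≤ C ∧ ∀ (ε K κ L a : ℝ) (v : E3 → E3), Sl ε K κ v → C ≤ L → ∀ x, rsq x ≤ 1 / 4 → |x 2 - a| ≤ L →
    sW v x ^ 2 ≤ C * (DO L a v + GG L a v) ∧ v x 2 ^ 2 ≤ C * (L * K + DO L a v + GG L a v) := by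
  obtain ⟨C3, hC3, h3⟩ := Pool.Agent.H87.EP.S3
  obtain ⟨C4, hC4, h4⟩ := Pool.Agent.H87.EP.S4
  obtain ⟨C8, hC8, h8⟩ := Pool.Agent.H87.EP.S8
  obtain ⟨C9, hC9, h9⟩ := Pool.Agent.H87.EP.S9
  refine ⟨16 * (C3 + 9 * C4 + 2 * C8 + C9), by linarith, ?_⟩
  intro ε K κ L a v hS hL x hx hxa
  have hv := hS.vs
  have hL1 : 1 ≤ L := by linarith
  have hK : 1 ≤ K := by linarith [hS.K2]
  obtain ⟨_, hW, _, _, h2⟩ := vs_ri hv
  have p1 := F_DO L a v
  have p2 := F_GG L a v
  have p3 : 0 ≤ L * K := by positivity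
  constructor
  · refine G_all hW.sm.continuous hW.rot hx fun r hr hr2 => ?_
    obtain ⟨i4, b4⟩ := h4 L a v (by linarith) hv r hr hr2
    obtain ⟨i3, b3⟩ := h3 L a v (by linarith) hv r hr hr2
    have hder : deriv (fun s => sW v (lp r s)) = fun s => pd 2 (sW v) (lp r s) := by
      funext s
      exact (G_hasDeriv hW.sm r s).deriv
    have hs := sob1 hL1 (G_cd hW.sm r) i4 (by rw [hder]; exact i3) hxa
    rw [hder] at hs
    nlinarith only [hC4, hC8, hC9, p1, p2, b4, b3, hs]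
  · refine G_all (f := fun y => v y 2) h2.sm.continuous h2.rot hx fun r hr hr2 => ?_
    obtain ⟨i4, b4⟩ := h4 L a v (by linarith) hv r hr hr2
    obtain ⟨i8, b8⟩ := h8 L a v (by linarith) hv r hr hr2
    obtain ⟨i9, b9⟩ := h9 L K a v (by linarith) hK hv hS.en r hr hr2
    have hder : deriv (fun s => v (lp r s) 2) =
        fun s => - (2 * sW v (lp r s) + r ^ 2 * dh (sW v) (lp r s)) := by
      funext s
      rw [(G_hasDeriv (f := fun y => v y 2) h2.sm r s).deriv, v2_pd2 hv, F_rsq]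
    have hcW : Continuous (fun s => sW v (lp r s)) := (G_cd hW.sm r).continuous
    have hcD : Continuous (fun s => dh (sW v) (lp r s)) := (G_cd hW.dh.sm r).continuous
    have i5 : Integrable (fun s => ph L a s * (- (2 * sW v (lp r s) + r ^ 2 * dh (sW v) (lp r s))) ^ 2) ∧
        ∫ s, ph L a s * (- (2 * sW v (lp r s) + r ^ 2 * dh (sW v) (lp r s))) ^ 2 ≤
        8 * (∫ s, ph L a s * sW v (lp r s) ^ 2) + 2 * ∫ s, ph L a s * (r ^ 2 * dh (sW v) (lp r s)) ^ 2 := by
      have hpt : ∀ s, ph L a s * (- (2 * sW v (lp r s) + r ^ 2 * dh (sW v) (lp r s))) ^ 2 ≤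
          8 * (ph L a s * sW v (lp r s) ^ 2) + 2 * (ph L a s * (r ^ 2 * dh (sW v) (lp r s)) ^ 2) := by
        intro s
        have b1 := ph_pos L a s
        have b2 : (- (2 * sW v (lp r s) + r ^ 2 * dh (sW v) (lp r s))) ^ 2 ≤
            8 * sW v (lp r s) ^ 2 + 2 * (r ^ 2 * dh (sW v) (lp r s)) ^ 2 := by
          linarith only [sq_nonneg (2 * sW v (lp r s) - r ^ 2 * dh (sW v) (lp r s))]
        have := mul_le_mul_of_nonneg_left b2 b1.le
        linarith
      have i6 : Integrable (fun s => 8 * (ph L a s * sW v (lp r s) ^ 2) +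
          2 * (ph L a s * (r ^ 2 * dh (sW v) (lp r s)) ^ 2)) := (i4.const_mul 8).add (i8.const_mul 2)
      have i7 : Integrable (fun s => ph L a s *
          (- (2 * sW v (lp r s) + r ^ 2 * dh (sW v) (lp r s))) ^ 2) := by
        refine i6.mono' ?_ (Filter.Eventually.of_forall fun s => ?_)
        · exact ((ph_smooth L a).continuous.mul
            ((((continuous_const.mul hcW).add (continuous_const.mul hcD)).neg).pow 2)).aestronglyMeasurable
        · rw [Real.norm_eq_abs, abs_of_nonneg (mul_nonneg (ph_pos L a s).le (sq_nonneg _))]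
          exact hpt s
      refine ⟨i7, ?_⟩
      rw [← integral_const_mul, ← integral_const_mul,
        ← integral_add (i4.const_mul 8) (i8.const_mul 2)]
      exact integral_mono i7 i6 hpt
    have hs := sob1 hL1 (f := fun s => v (lp r s) 2) (G_cd (f := fun y => v y 2) h2.sm r) i9
      (by rw [hder]; exact i5.1) hxa
    rw [hder] at hs
    have b5 := i5.2
    have c1 : 16 * ((∫ s, ph L a s * v (lp r s) 2 ^ 2) +
        ∫ s, ph L a s * (- (2 * sW v (lp r s) + r ^ 2 * dh (sW v) (lp r s))) ^ 2) ≤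
        16 * (C9 * (L * K + DO L a v + GG L a v) + (8 * (C4 * (DO L a v + GG L a v)) +
          2 * (C8 * (DO L a v + GG L a v)))) := by linarith
    refine hs.trans (c1.trans ?_)
    have m1 : 0 ≤ C3 * (L * K + DO L a v + GG L a v) := by
      apply mul_nonneg (by linarith)
      linarith
    have m2 : 0 ≤ C4 * (L * K) := mul_nonneg (by linarith) p3
    have m3 : 0 ≤ C8 * (L * K) := mul_nonneg (by linarith) p3
    have m4 : 0 ≤ C4 * (DO L a v + GG L a v) := mul_nonneg (by linarith) (by linarith)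
    linarith only [m1, m2, m3, m4]

end Pool.Agent.H87.EP
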