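import Pool.Agent.H87.EP.B
import Pool.Agent.H87.EP.C

/-
The cost lemma on lines (S6 of helper88). Aux lemmas prefixed H_ .
1D lemma `cost1`: `f` of class C², `|f| ≤ M`, weight `w = ph L a` (`|w'| ≤ w/L`), `∫ w f'² , ∫ w f''² < ∞` and `f'` bounded (so `∫ w f'⁴ < ∞`). Then
   `∫ w f'⁴ = - ∫ f (w f'³)' = - ∫ f w' f'³ - 3 ∫ f w f'² f''` (boundary terms vanish: `w f'³ f` is integrable with integrable derivative),
   `≤ (M/L) ∫ w |f'|³ + 3 M ∫ w f'² |f''| ≤ M (∫ w f'⁴)^(1/2) [ (1/L) (∫ w f'²)^(1/2) + 3 (∫ w f''²)^(1/2) ]`; divide by `(∫ w f'⁴)^(1/2)`.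
S6: `f s = V (lp r s)`, `M = ε / r²` from `Sl.gam`: `|circ v x| ≤ ε` for `rad x < 1`, `circ v x = rsq x V x` (circ_eq), `rsq (lp r s) = r²`; `f' = Zz`, `f'' = pd 2 (Zz)` on the line; boundedness and integrability from `vs_ri` and `line_int`.
-/

set_option autoImplicit false

open Set Filter Topology MeasureTheory
open scoped ContDiff

namespace Pool.Agent.H87.EP

open Pool.Agent.H16 Pool.Agent.H87.NS Pool.Agent.H72.CC Pool.Agent.H16.TU Pool.Agent.H94.EP

theorem H_cs {g h : ℝ → ℝ} (hg0 : ∀ a, 0 ≤ g a) (hh0 : ∀ a, 0 ≤ h a)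
    (hgm : Continuous g) (hhm : Continuous h)
    (hg : Integrable (fun a => g a ^ 2)) (hh : Integrable (fun a => h a ^ 2)) :
    ∫ a, g a * h a ≤ √(∫ a, g a ^ 2) * √(∫ a, h a ^ 2) := by
  have hp : (2:ℝ).HolderConjugate 2 := by
    rw [Real.holderConjugate_iff]
    norm_num
  have h2 : ENNReal.ofReal 2 = 2 := by norm_num
  have h1 := integral_mul_le_Lp_mul_Lq_of_nonneg (μ := volume) hp (Filter.Eventually.of_forall hg0)
    (Filter.Eventually.of_forall hh0)
    (by rw [h2]; exact (memLp_two_iff_integrable_sq hgm.aestronglyMeasurable).2 hg)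
    (by rw [h2]; exact (memLp_two_iff_integrable_sq hhm.aestronglyMeasurable).2 hh)
  simpa [Real.sqrt_eq_rpow] using h1

theorem cost1 {L a M B : ℝ} (hL : 1 ≤ L) {f : ℝ → ℝ} (hf : ContDiff ℝ 2 f) (hM : ∀ s, |f s| ≤ M) (hB : ∀ s, |deriv f s| ≤ B)
    (h1 : Integrable (fun s => ph L a s * deriv f s ^ 2)) (h2 : Integrable (fun s => ph L a s * deriv (deriv f) s ^ 2)) :
    Integrable (fun s => ph L a s * deriv f s ^ 4) ∧
    √(∫ s, ph L a s * deriv f s ^ 4) ≤ M * (√(∫ s, ph L a s * deriv f s ^ 2) / L + 3 * √(∫ s, ph L a s * deriv (deriv f) s ^ 2)) := by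
  have hL0 : 0 < L := by linarith
  have hf1 : ContDiff ℝ 1 (deriv f) := by
    have := ContDiff.iterate_deriv' 1 1 (f := f) (by simpa using hf)
    simpa using this
  have cw : Continuous (ph L a) := (ph_smooth L a).continuous
  have cf : Continuous f := hf.continuous
  have cf1 : Continuous (deriv f) := hf1.continuous
  have cf2 : Continuous (deriv (deriv f)) := hf1.continuous_deriv (le_refl _)
  have cw1 : Continuous (deriv (ph L a)) := (ph_smooth L a).continuous_deriv (by exact_mod_cast le_top)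
  have hM0 : 0 ≤ M := (abs_nonneg _).trans (hM 0)
  have hB0 : 0 ≤ B := (abs_nonneg _).trans (hB 0)
  have wp : ∀ s, 0 ≤ ph L a s := fun s => (ph_pos L a s).le
  have dw : ∀ s, HasDerivAt (ph L a) (deriv (ph L a) s) s := fun s =>
    (((ph_smooth L a).differentiable (by norm_num)) s).hasDerivAt
  have df : ∀ s, HasDerivAt f (deriv f s) s := fun s =>
    ((hf.differentiable (by norm_num)) s).hasDerivAt
  have df1 : ∀ s, HasDerivAt (deriv f) (deriv (deriv f) s) s := fun s =>
    ((hf1.differentiable (by norm_num)) s).hasDerivAt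
  -- integrability of the fourth power
  have i4 : Integrable (fun s => ph L a s * deriv f s ^ 4) := by
    refine (h1.const_mul (B ^ 2)).mono' (cw.mul (cf1.pow 4)).aestronglyMeasurable (ae_of_all _ fun s => ?_)
    have h3 : deriv f s ^ 2 ≤ B ^ 2 := sq_le_sq' (by linarith [neg_abs_le (deriv f s), hB s]) ((le_abs_self _).trans (hB s))
    rw [Real.norm_eq_abs, abs_of_nonneg (mul_nonneg (wp s) (by positivity))]
    calc ph L a s * deriv f s ^ 4 = ph L a s * deriv f s ^ 2 * deriv f s ^ 2 := by ring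
      _ ≤ ph L a s * deriv f s ^ 2 * B ^ 2 := mul_le_mul_of_nonneg_left h3 (mul_nonneg (wp s) (sq_nonneg _))
      _ = _ := by ring
  refine ⟨i4, ?_⟩
  -- the primitive
  set G : ℝ → ℝ := fun s => ph L a s * deriv f s ^ 3 * f s with hG
  set R : ℝ → ℝ := fun s => deriv (ph L a) s * deriv f s ^ 3 * f s + 3 * ph L a s * deriv f s ^ 2 * deriv (deriv f) s * f s with hR
  have dG : ∀ s, HasDerivAt G (R s + ph L a s * deriv f s ^ 4) s := fun s => by
    have := ((dw s).mul ((df1 s).pow 3)).mul (df s)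
    refine this.congr_deriv ?_
    simp only [hR, Pi.mul_apply, Pi.pow_apply]
    push_cast
    ring
  have bR : ∀ s, |R s| ≤ M / L * (ph L a s * |deriv f s| ^ 3) + 3 * M * (ph L a s * deriv f s ^ 2 * |deriv (deriv f) s|) := fun s => by
    have e1 : |deriv (ph L a) s * deriv f s ^ 3 * f s| ≤ M / L * (ph L a s * |deriv f s| ^ 3) := by
      rw [abs_mul, abs_mul, abs_pow]
      have := mul_le_mul (mul_le_mul_of_nonneg_right (ph_deriv hL0 a s) (by positivity : 0 ≤ |deriv f s| ^ 3)) (hM s) (abs_nonneg _)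
        (mul_nonneg (div_nonneg (wp s) hL0.le) (by positivity))
      refine this.trans (le_of_eq (by ring))
    have e2 : |3 * ph L a s * deriv f s ^ 2 * deriv (deriv f) s * f s| ≤ 3 * M * (ph L a s * deriv f s ^ 2 * |deriv (deriv f) s|) := by
      rw [abs_mul, abs_mul, abs_mul, abs_mul, abs_of_nonneg (wp s), abs_of_nonneg (sq_nonneg (deriv f s)), abs_of_pos (by norm_num : (0 : ℝ) < 3)]
      have := mul_le_mul_of_nonneg_left (hM s) (by have := wp s; positivity : 0 ≤ 3 * ph L a s * deriv f s ^ 2 * |deriv (deriv f) s|)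
      refine this.trans (le_of_eq (by ring))
    exact (abs_add_le _ _).trans (add_le_add e1 e2)
  have i3 : Integrable (fun s => ph L a s * |deriv f s| ^ 3) := by
    refine (h1.const_mul B).mono' (cw.mul (cf1.abs.pow 3)).aestronglyMeasurable (ae_of_all _ fun s => ?_)
    rw [Real.norm_eq_abs, abs_of_nonneg (mul_nonneg (wp s) (by positivity))]
    calc ph L a s * |deriv f s| ^ 3 = ph L a s * |deriv f s| ^ 2 * |deriv f s| := by ring
      _ ≤ ph L a s * |deriv f s| ^ 2 * B := mul_le_mul_of_nonneg_left (hB s) (mul_nonneg (wp s) (sq_nonneg _))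
      _ = B * (ph L a s * deriv f s ^ 2) := by rw [sq_abs]; ring
  have i2 : Integrable (fun s => ph L a s * deriv f s ^ 2 * |deriv (deriv f) s|) := by
    refine ((h1.add h2).const_mul B).mono' ((cw.mul (cf1.pow 2)).mul cf2.abs).aestronglyMeasurable (ae_of_all _ fun s => ?_)
    rw [Real.norm_eq_abs, abs_of_nonneg (mul_nonneg (mul_nonneg (wp s) (sq_nonneg _)) (abs_nonneg _))]
    have e1 : ph L a s * deriv f s ^ 2 * |deriv (deriv f) s| = ph L a s * (|deriv f s| * |deriv (deriv f) s|) * |deriv f s| := by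
      rw [← sq_abs (deriv f s)]; ring
    rw [e1]
    have e2 : ph L a s * (|deriv f s| * |deriv (deriv f) s|) ≤ ph L a s * deriv f s ^ 2 + ph L a s * deriv (deriv f) s ^ 2 := by
      rw [← mul_add]
      refine mul_le_mul_of_nonneg_left ?_ (wp s)
      linarith only [sq_abs (deriv f s), sq_abs (deriv (deriv f) s), sq_nonneg (|deriv f s| - |deriv (deriv f) s|), sq_nonneg (|deriv f s| + |deriv (deriv f) s|)]
    have e3 : 0 ≤ ph L a s * deriv f s ^ 2 + ph L a s * deriv (deriv f) s ^ 2 := by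
      have := wp s; positivity
    calc ph L a s * (|deriv f s| * |deriv (deriv f) s|) * |deriv f s| ≤ (ph L a s * deriv f s ^ 2 + ph L a s * deriv (deriv f) s ^ 2) * B :=
          mul_le_mul e2 (hB s) (abs_nonneg _) e3
      _ = B * (ph L a s * deriv f s ^ 2 + ph L a s * deriv (deriv f) s ^ 2) := by ring
  have cR : Continuous R := by
    simp only [hR]
    exact ((cw1.mul (cf1.pow 3)).mul cf).add ((((continuous_const.mul cw).mul (cf1.pow 2)).mul cf2).mul cf)
  have iR : Integrable R := by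
    refine ((i3.const_mul (M / L)).add (i2.const_mul (3 * M))).mono' cR.aestronglyMeasurable (ae_of_all _ fun s => ?_)
    exact bR s
  have iG : Integrable G := by
    refine (i3.const_mul M).mono' ((cw.mul (cf1.pow 3)).mul cf).aestronglyMeasurable (ae_of_all _ fun s => ?_)
    rw [Real.norm_eq_abs, abs_mul, abs_mul, abs_pow, abs_of_nonneg (wp s)]
    have := mul_le_mul_of_nonneg_left (hM s) (by have := wp s; positivity : 0 ≤ ph L a s * |deriv f s| ^ 3)
    refine this.trans (le_of_eq (by ring))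
  have z := integral_eq_zero_of_hasDerivAt_of_integrable dG (iR.add i4) iG
  have z2 : ∫ s, (R s + ph L a s * deriv f s ^ 4) = (∫ s, R s) + ∫ s, ph L a s * deriv f s ^ 4 := integral_add iR i4
  rw [z2] at z
  have z3 : -(∫ s, R s) ≤ M / L * (∫ s, ph L a s * |deriv f s| ^ 3) + 3 * M * ∫ s, ph L a s * deriv f s ^ 2 * |deriv (deriv f) s| := by
    rw [← integral_const_mul, ← integral_const_mul, ← integral_add (i3.const_mul _) (i2.const_mul _), ← integral_neg]
    exact integral_mono iR.neg ((i3.const_mul _).add (i2.const_mul _)) fun s => (neg_le_abs _).trans (bR s)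
  -- Cauchy-Schwarz
  set P : ℝ → ℝ := fun s => √(ph L a s) * deriv f s ^ 2 with hP
  set Q : ℝ → ℝ := fun s => √(ph L a s) * |deriv f s| with hQ
  set S : ℝ → ℝ := fun s => √(ph L a s) * |deriv (deriv f) s| with hS
  have sw : ∀ s, √(ph L a s) ^ 2 = ph L a s := fun s => Real.sq_sqrt (wp s)
  have eP : (fun s => P s ^ 2) = fun s => ph L a s * deriv f s ^ 4 := by
    funext s; simp only [hP]; rw [mul_pow, sw]; ring
  have eQ : (fun s => Q s ^ 2) = fun s => ph L a s * deriv f s ^ 2 := by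
    funext s; simp only [hQ]; rw [mul_pow, sw, sq_abs]
  have eS : (fun s => S s ^ 2) = fun s => ph L a s * deriv (deriv f) s ^ 2 := by
    funext s; simp only [hS]; rw [mul_pow, sw, sq_abs]
  have csw : Continuous fun s => √(ph L a s) := cw.sqrt
  have cP : Continuous P := csw.mul (cf1.pow 2)
  have cQ : Continuous Q := csw.mul cf1.abs
  have cS : Continuous S := csw.mul cf2.abs
  have nP : ∀ s, 0 ≤ P s := fun s => mul_nonneg (Real.sqrt_nonneg _) (sq_nonneg _)
  have nQ : ∀ s, 0 ≤ Q s := fun s => mul_nonneg (Real.sqrt_nonneg _) (abs_nonneg _)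
  have nS : ∀ s, 0 ≤ S s := fun s => mul_nonneg (Real.sqrt_nonneg _) (abs_nonneg _)
  have cs1 := H_cs nP nQ cP cQ (by rw [eP]; exact i4) (by rw [eQ]; exact h1)
  have cs2 := H_cs nP nS cP cS (by rw [eP]; exact i4) (by rw [eS]; exact h2)
  have ePQ : (fun s => P s * Q s) = fun s => ph L a s * |deriv f s| ^ 3 := by
    funext s; simp only [hP, hQ]
    calc √(ph L a s) * deriv f s ^ 2 * (√(ph L a s) * |deriv f s|) = √(ph L a s) ^ 2 * (deriv f s ^ 2 * |deriv f s|) := by ring
      _ = _ := by rw [sw, ← sq_abs (deriv f s)]; ring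
  have ePS : (fun s => P s * S s) = fun s => ph L a s * deriv f s ^ 2 * |deriv (deriv f) s| := by
    funext s; simp only [hP, hS]
    calc √(ph L a s) * deriv f s ^ 2 * (√(ph L a s) * |deriv (deriv f) s|) = √(ph L a s) ^ 2 * (deriv f s ^ 2 * |deriv (deriv f) s|) := by ring
      _ = _ := by rw [sw]; ring
  rw [ePQ, eP, eQ] at cs1
  rw [ePS, eP, eS] at cs2
  set I4 := ∫ s, ph L a s * deriv f s ^ 4 with hI4
  set I2 := ∫ s, ph L a s * deriv f s ^ 2 with hI2
  set I3 := ∫ s, ph L a s * deriv (deriv f) s ^ 2 with hI3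
  have p4 : 0 ≤ I4 := integral_nonneg fun s => mul_nonneg (wp s) (by positivity)
  have hfin : √I4 * √I4 ≤ √I4 * (M * (√I2 / L + 3 * √I3)) := by
    rw [Real.mul_self_sqrt p4]
    have k1 : I4 ≤ M / L * (∫ s, ph L a s * |deriv f s| ^ 3) + 3 * M * ∫ s, ph L a s * deriv f s ^ 2 * |deriv (deriv f) s| := by
      linarith
    refine k1.trans ?_
    have k2 := mul_le_mul_of_nonneg_left cs1 (div_nonneg hM0 hL0.le)
    have k3 := mul_le_mul_of_nonneg_left cs2 (by positivity : 0 ≤ 3 * M)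
    refine (add_le_add k2 k3).trans (le_of_eq (by ring))
  have hr : 0 ≤ M * (√I2 / L + 3 * √I3) := by positivity
  rcases (Real.sqrt_nonneg I4).eq_or_lt with h0 | h0
  · rw [← h0]; exact hr
  · exact le_of_mul_le_mul_left hfin h0

theorem H_lp (r s : ℝ) : lp r s = lp r 0 + s • e 2 := by
  ext i
  fin_cases i <;> simp [lp, e]

theorem H_dlp (r s : ℝ) : HasDerivAt (fun s => lp r s) (e 2) s := by
  have h1 : HasDerivAt (fun s : ℝ => lp r 0 + s • e 2) (e 2) s := by
    have := ((hasDerivAt_id s).smul_const (e 2)).const_add (lp r 0)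
    simpa using this
  exact h1.congr_of_eventuallyEq (Eventually.of_forall fun s => H_lp r s)

theorem H_dF {F : E3 → ℝ} (hF : ContDiff ℝ ∞ F) (r s : ℝ) : HasDerivAt (fun s => F (lp r s)) (pd 2 F (lp r s)) s := by
  have h1 : HasFDerivAt F (fderiv ℝ F (lp r s)) (lp r s) := ((hF.differentiable (by norm_num)) (lp r s)).hasFDerivAt
  exact h1.comp_hasDerivAt s (H_dlp r s)

theorem H_clp (r : ℝ) : ContDiff ℝ ∞ fun s => lp r s := by
  have : (fun s => lp r s) = fun s : ℝ => lp r 0 + s • e 2 := funext fun s => H_lp r s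
  rw [this]
  exact contDiff_const.add (contDiff_id.smul contDiff_const)

theorem H_rsq (r s : ℝ) : rsq (lp r s) = r ^ 2 := by simp [rsq, lp]

theorem H_rad {r : ℝ} (hr : 0 < r) (s : ℝ) : rad (lp r s) = r := by
  have : rad (lp r s) = √(rsq (lp r s)) := rfl
  rw [this, H_rsq, Real.sqrt_sq hr.le]

/-- S6. -/
theorem S6 {ε K κ L a : ℝ} (hL : 1 ≤ L) {v : E3 → E3} (h : Sl ε K κ v) {r : ℝ} (h0 : 0 < r) (h1 : r < 1) :
    Integrable (fun s => ph L a s * Zz v (lp r s) ^ 4) ∧
    √(∫ s, ph L a s * Zz v (lp r s) ^ 4) ≤ ε / r ^ 2 *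
      (√(∫ s, ph L a s * Zz v (lp r s) ^ 2) + 3 * √(∫ s, ph L a s * pd 2 (Zz v) (lp r s) ^ 2)) := by
  obtain ⟨rV, -, -, rZ, -⟩ := vs_ri h.vs
  have rZ2 : Ri (pd 2 (Zz v)) := rZ.pd2
  set f : ℝ → ℝ := fun s => sV v (lp r s) with hf
  have cf : ContDiff ℝ 2 f := by exact_mod_cast (contDiff_infty.1 (rV.sm.comp (H_clp r)) 2)
  have d1 : deriv f = fun s => Zz v (lp r s) := funext fun s => (H_dF rV.sm r s).deriv
  have d2 : deriv (deriv f) = fun s => pd 2 (Zz v) (lp r s) := by
    rw [d1]; exact funext fun s => (H_dF rZ.sm r s).deriv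
  have r2 : 0 < r ^ 2 := by positivity
  have hM : ∀ s, |f s| ≤ ε / r ^ 2 := fun s => by
    have e1 := circ_eq h.vs.ax (lp r s)
    have e2 := h.gam (lp r s) (by rw [H_rad h0]; exact h1)
    rw [e1, H_rsq, abs_mul, abs_of_pos r2] at e2
    rw [le_div_iff₀ r2]
    have e3 : ε * min 1 (κ * rad (lp r s)) ≤ ε * 1 := mul_le_mul_of_nonneg_left (min_le_left _ _) h.e0.le
    calc |f s| * r ^ 2 = r ^ 2 * |sV v (lp r s)| := by rw [mul_comm]
      _ ≤ ε := by linarith
  obtain ⟨B, hB⟩ := rZ.db 0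
  have hB' : ∀ s, |deriv f s| ≤ B := fun s => by rw [d1]; exact hB.1 _
  have cw : Continuous (ph L a) := (ph_smooth L a).continuous
  have iw : ∀ {g : E3 → ℝ}, Ri g → Integrable (fun s => ph L a s * g (lp r s) ^ 2) := by
    intro g hg
    have i0 := line_int hg hg h0
    refine i0.mono' (cw.mul ((hg.sm.continuous.comp (H_clp r).continuous).pow 2)).aestronglyMeasurable (ae_of_all _ fun s => ?_)
    rw [Real.norm_eq_abs, abs_of_nonneg (mul_nonneg (ph_pos L a s).le (sq_nonneg _))]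
    calc ph L a s * g (lp r s) ^ 2 ≤ 1 * g (lp r s) ^ 2 := mul_le_mul_of_nonneg_right (ph_le L a s) (sq_nonneg _)
      _ = _ := by ring
  have key := cost1 (a := a) hL cf hM hB' (by rw [d1]; exact iw rZ) (by rw [d2]; exact iw rZ2)
  rw [d2] at key
  simp only [d1] at key
  refine ⟨key.1, key.2.trans ?_⟩
  have hL0 : 0 < L := by linarith
  have : √(∫ s, ph L a s * Zz v (lp r s) ^ 2) / L ≤ √(∫ s, ph L a s * Zz v (lp r s) ^ 2) :=
    div_le_self (Real.sqrt_nonneg _) hL
  exact mul_le_mul_of_nonneg_left (by linarith) (div_nonneg h.e0.le r2.le)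

end Pool.Agent.H87.EP
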