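import Pool.Agent.H87.EP.D

/-
ROW El_J. S6 of helper88, integrated: `Q = A1 rsq²`, `X = ∫ Q Z⁴ = ∫ Q Z³ pd 2 V = - ∫ (pd 2 Q Z³ + 3 Q Z² pd 2 Z) V`, `|pd 2 Q| ≤ Q / L`, `|rsq V| ≤ ε` on the support.
-/

set_option autoImplicit false

open Set Filter Topology MeasureTheory
open scoped ContDiff

namespace Pool.Agent.H87.EP

open Pool.Agent.H16 Pool.Agent.H87.NS Pool.Agent.H72.CC Pool.Agent.H16.TU Pool.Agent.H94.EP

theorem J_Q {L : ℝ} (hL : 1 ≤ L) (a : ℝ) : Ri (fun x => A1 L a x * rsq x ^ 2) := by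
  have hF : ContDiff ℝ ∞ (fun s : ℝ => Real.smoothTransition (2 - 4 * s) ^ 4 * s ^ 2) := by
    have h1 : ContDiff ℝ ∞ (fun s : ℝ => Real.smoothTransition (2 - 4 * s)) :=
      Real.smoothTransition.contDiff.comp (by fun_prop)
    exact (h1.pow 4).mul (contDiff_id.pow 2)
  have h := F_ri hL a hF (R := 1 / 2) (fun s hs => by
    show Real.smoothTransition (2 - 4 * s) ^ 4 * s ^ 2 = 0
    rw [Real.smoothTransition.zero_of_nonpos (by linarith)]; ring)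
  have he : (fun x => A1 L a x * rsq x ^ 2) =
      fun x => (fun s : ℝ => Real.smoothTransition (2 - 4 * s) ^ 4 * s ^ 2) (rsq x) * ph L a (x 2) := by
    funext x
    unfold A1 H94.EP.c1
    ring
  rw [he]
  exact h

theorem J_rsq_pd2 (x : E3) : pd 2 rsq x = 0 := by
  unfold pd rsq
  have h : ∀ i : Fin 3, HasFDerivAt (fun y : E3 => y i) (EuclideanSpace.proj i : E3 →L[ℝ] ℝ) x := fun i =>
    (EuclideanSpace.proj i : E3 →L[ℝ] ℝ).hasFDerivAt
  have h2 := ((h 0).pow 2).add ((h 1).pow 2)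
  have h3 : fderiv ℝ (fun y : E3 => y 0 ^ 2 + y 1 ^ 2) x = _ := h2.fderiv
  rw [h3]
  simp [e]

theorem J_Q_pd2 {L : ℝ} (hL : 1 ≤ L) (a : ℝ) (x : E3) :
    |pd 2 (fun x => A1 L a x * rsq x ^ 2) x| ≤ A1 L a x * rsq x ^ 2 / L := by
  have hA : DifferentiableAt ℝ (A1 L a) x := ((A1_ri hL a).sm.differentiable (by simp)) x
  have hr : DifferentiableAt ℝ (fun y : E3 => rsq y ^ 2) x := by
    unfold rsq
    fun_prop
  have h2 : pd 2 (fun y : E3 => rsq y ^ 2) x = 0 := by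
    have hr' : DifferentiableAt ℝ rsq x := by
      unfold rsq
      fun_prop
    have h3 : HasFDerivAt (fun y : E3 => rsq y ^ 2) _ x := hr'.hasFDerivAt.pow 2
    unfold pd
    rw [h3.fderiv]
    have h4 := J_rsq_pd2 x
    unfold pd at h4
    simp [h4]
  have h1 : pd 2 (fun x => A1 L a x * rsq x ^ 2) x = pd 2 (A1 L a) x * rsq x ^ 2 := by
    have h5 : pd 2 (fun x => A1 L a x * rsq x ^ 2) x = A1 L a x * pd 2 (fun y : E3 => rsq y ^ 2) x + rsq x ^ 2 * pd 2 (A1 L a) x := by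
      unfold pd
      rw [fderiv_fun_mul hA hr]
      rfl
    rw [h5, h2]
    ring
  rw [h1, abs_mul, abs_of_nonneg (sq_nonneg (rsq x))]
  have h6 := A1_pd2 hL a x
  have h7 : 0 ≤ rsq x ^ 2 := sq_nonneg _
  calc |pd 2 (A1 L a) x| * rsq x ^ 2 ≤ A1 L a x / L * rsq x ^ 2 := mul_le_mul_of_nonneg_right h6 h7
    _ = A1 L a x * rsq x ^ 2 / L := by ring

/-- The pointwise inequality. -/
theorem J_pt {A q r V Z Z2 ε L : ℝ} (hA : 0 ≤ A) (hr : 0 ≤ r) (hL : 1 ≤ L) (hq : |q| ≤ A * r ^ 2 / L) (hV : A ≠ 0 → |r * V| ≤ ε) :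
    -(q * Z ^ 3 + 3 * (A * r ^ 2) * Z ^ 2 * Z2) * V ≤ A * r ^ 2 * Z ^ 4 / 2 + ε ^ 2 / 2 * (A * (2 * Z ^ 2 + 18 * Z2 ^ 2)) := by
  rcases eq_or_ne A 0 with h0 | h0
  · subst h0
    have hq0 : q = 0 := by
      have : |q| ≤ 0 := by simpa using hq
      exact abs_eq_zero.1 (le_antisymm this (abs_nonneg _))
    subst hq0
    simp
  · have hV := hV h0
    have hε : 0 ≤ ε := (abs_nonneg _).trans hV
    have hq' : |q| ≤ A * r ^ 2 := hq.trans (div_le_self (by positivity) hL)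
    have h1 : -(q * Z ^ 3 + 3 * (A * r ^ 2) * Z ^ 2 * Z2) * V ≤ |q| * |Z| ^ 3 * |V| + 3 * (A * r ^ 2) * Z ^ 2 * |Z2| * |V| := by
      have ha : -(q * Z ^ 3) * V ≤ |q| * |Z| ^ 3 * |V| := by
        have := neg_abs_le (q * Z ^ 3 * V)
        rw [abs_mul, abs_mul, abs_pow] at this
        linarith
      have hb : -(3 * (A * r ^ 2) * Z ^ 2 * Z2) * V ≤ 3 * (A * r ^ 2) * Z ^ 2 * |Z2| * |V| := by
        have := neg_abs_le (3 * (A * r ^ 2) * Z ^ 2 * Z2 * V)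
        rw [abs_mul, abs_mul, abs_of_nonneg (by positivity : 0 ≤ 3 * (A * r ^ 2) * Z ^ 2)] at this
        linarith
      linarith
    have hrV : r * |V| ≤ ε := by
      rw [abs_mul, abs_of_nonneg hr] at hV
      exact hV
    have h2 : |q| * |Z| ^ 3 * |V| ≤ A * r * ε * |Z| ^ 3 := by
      have : |q| * |Z| ^ 3 * |V| ≤ A * r ^ 2 * |Z| ^ 3 * |V| := by gcongr
      have h3 : A * r ^ 2 * |Z| ^ 3 * |V| = A * r * |Z| ^ 3 * (r * |V|) := by ring
      have h4 : A * r * |Z| ^ 3 * (r * |V|) ≤ A * r * |Z| ^ 3 * ε := by gcongr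
      linarith
    have h3 : 3 * (A * r ^ 2) * Z ^ 2 * |Z2| * |V| ≤ 3 * A * r * ε * Z ^ 2 * |Z2| := by
      have h3 : 3 * (A * r ^ 2) * Z ^ 2 * |Z2| * |V| = 3 * A * r * Z ^ 2 * |Z2| * (r * |V|) := by ring
      have h4 : 3 * A * r * Z ^ 2 * |Z2| * (r * |V|) ≤ 3 * A * r * Z ^ 2 * |Z2| * ε := by gcongr
      linarith
    have h4 : A * r * ε * |Z| ^ 3 + 3 * A * r * ε * Z ^ 2 * |Z2| = A * ((r * Z ^ 2) * (ε * (|Z| + 3 * |Z2|))) := by
      have : |Z| ^ 3 = Z ^ 2 * |Z| := by rw [pow_succ, sq_abs]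
      rw [this]
      ring
    have h5 : (r * Z ^ 2) * (ε * (|Z| + 3 * |Z2|)) ≤ (r * Z ^ 2) ^ 2 / 2 + (ε * (|Z| + 3 * |Z2|)) ^ 2 / 2 := by
      nlinarith [sq_nonneg ((r * Z ^ 2) - (ε * (|Z| + 3 * |Z2|)))]
    have h6 : (|Z| + 3 * |Z2|) ^ 2 ≤ 2 * Z ^ 2 + 18 * Z2 ^ 2 := by
      have h7 := sq_abs Z
      have h8 := sq_abs Z2
      nlinarith [sq_nonneg (|Z| - 3 * |Z2|)]
    have h7 : (ε * (|Z| + 3 * |Z2|)) ^ 2 ≤ ε ^ 2 * (2 * Z ^ 2 + 18 * Z2 ^ 2) := by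
      rw [mul_pow]
      exact mul_le_mul_of_nonneg_left h6 (sq_nonneg _)
    have h8 := mul_le_mul_of_nonneg_left (h5.trans (add_le_add le_rfl (div_le_div_of_nonneg_right h7 (by norm_num : (0:ℝ) ≤ 2)))) hA
    nlinarith

theorem S6i : ∃ C : ℝ, 1 ≤ C ∧ ∀ (ε K κ L a : ℝ) (v : E3 → E3), Sl ε K κ v → 1 ≤ L →
    Integrable (fun x => A1 L a x * rsq x ^ 2 * Zz v x ^ 4) ∧
    ∫ x, A1 L a x * rsq x ^ 2 * Zz v x ^ 4 ≤ C * ε ^ 2 * (DJ L a v + GG L a v) := by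
  obtain ⟨C, hC1, hC⟩ := NJ_le
  refine ⟨2 * C + 18, by linarith, fun ε K κ L a v hv hL => ?_⟩
  obtain ⟨hV, hW, hO, hZ, h2⟩ := vs_ri hv.vs
  have hQ := J_Q hL a
  have hZ2 := hZ.pd2
  have hQZ := hQ.mul hZ
  have hQZ3 := (hQZ.mul hZ).mul hZ
  have hA := A1_ri hL a
  -- integrability
  have i1 : Integrable (fun x => A1 L a x * rsq x ^ 2 * Zz v x ^ 4) := by
    obtain ⟨B, hB⟩ := hQZ3.db 0
    obtain ⟨B', hB'⟩ := hZ.db 0
    refine (BL_mul hQZ3.sm.continuous hZ.sm.continuous hB hB').congr (ae_of_all _ fun x => ?_)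
    simp only
    ring
  refine ⟨i1, ?_⟩
  -- integration by parts
  obtain ⟨B, hB⟩ := hQZ3.db 1
  obtain ⟨B', hB'⟩ := hV.db 1
  have h1 := ibp (hQZ3.sm.of_le (by simp)) (hV.sm.of_le (by simp)) hB hB' 2
  have hd : ∀ x, pd 2 (fun x => A1 L a x * rsq x ^ 2 * Zz v x * Zz v x * Zz v x) x =
      pd 2 (fun x => A1 L a x * rsq x ^ 2) x * Zz v x ^ 3 + 3 * (A1 L a x * rsq x ^ 2) * Zz v x ^ 2 * pd 2 (Zz v) x := by
    intro x
    have d1 : DifferentiableAt ℝ (fun x => A1 L a x * rsq x ^ 2) x := (hQ.sm.differentiable (by simp)) x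
    have d2 : DifferentiableAt ℝ (Zz v) x := (hZ.sm.differentiable (by simp)) x
    unfold pd
    rw [fderiv_fun_mul ((d1.fun_mul d2).fun_mul d2) d2, fderiv_fun_mul (d1.fun_mul d2) d2, fderiv_fun_mul d1 d2]
    simp only [_root_.add_apply, _root_.smul_apply, smul_eq_mul]
    ring
  have i2 : Integrable (fun x => A1 L a x * Zz v x ^ 2) := by
    obtain ⟨B1, hB1⟩ := hA.mul hZ |>.db 0
    obtain ⟨B2, hB2⟩ := hZ.db 0
    refine (BL_mul (hA.mul hZ).sm.continuous hZ.sm.continuous hB1 hB2).congr (ae_of_all _ fun x => ?_)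
    simp only
    ring
  have i3 : Integrable (fun x => A1 L a x * pd 2 (Zz v) x ^ 2) := by
    obtain ⟨B1, hB1⟩ := hA.mul hZ2 |>.db 0
    obtain ⟨B2, hB2⟩ := hZ2.db 0
    refine (BL_mul (hA.mul hZ2).sm.continuous hZ2.sm.continuous hB1 hB2).congr (ae_of_all _ fun x => ?_)
    simp only
    ring
  have i4 : Integrable (fun x => A1 L a x * gsq (Zz v) x) := by
    have : ∀ i : Fin 3, Integrable (fun x => A1 L a x * pd i (Zz v) x ^ 2) := by
      intro i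
      obtain ⟨B1, hB1⟩ := hA.db 0
      obtain ⟨B2, hB2⟩ := hZ.db 1
      have b2 : BL B2 (pd i (Zz v)) := hB2.2 i
      have c := pd_cont (hZ.sm.of_le (by simp)) i
      have b3 := mul_BL c hA.sm.continuous b2 hB1.1
      have c2 : Continuous (fun x => A1 L a x * pd i (Zz v) x) := hA.sm.continuous.mul c
      refine (BL_mul c2 c b3 b2).congr (ae_of_all _ fun x => ?_)
      simp only
      ring
    have h9 : Integrable (fun x => ∑ i : Fin 3, A1 L a x * pd i (Zz v) x ^ 2) := integrable_finsetSum _ fun i _ => this i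
    refine h9.congr (ae_of_all _ fun x => ?_)
    simp only
    unfold gsq
    rw [Finset.mul_sum]
  have hpt : ∀ x, -(pd 2 (fun x => A1 L a x * rsq x ^ 2 * Zz v x * Zz v x * Zz v x) x * sV v x) ≤
      A1 L a x * rsq x ^ 2 * Zz v x ^ 4 / 2 + ε ^ 2 / 2 * (2 * (A1 L a x * Zz v x ^ 2) + 18 * (A1 L a x * pd 2 (Zz v) x ^ 2)) := by
    intro x
    have hrn : 0 ≤ rsq x := by unfold rsq; positivity
    have hp := J_pt (A := A1 L a x) (q := pd 2 (fun x => A1 L a x * rsq x ^ 2) x) (r := rsq x) (V := sV v x) (Z := Zz v x)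
      (Z2 := pd 2 (Zz v) x) (ε := ε) (L := L) (A1_nn L a x).1 hrn hL (J_Q_pd2 hL a x) (fun hne => by
        have hr1 : rsq x < 1 / 2 := by
          by_contra hcon
          exact hne (A1_zero L a (not_lt.1 hcon))
        have hr2 : rad x < 1 := by
          have : rad x = √(rsq x) := rfl
          rw [this, Real.sqrt_lt' one_pos]
          linarith
        have h5 := hv.gam x hr2
        rw [circ_eq hv.vs.ax] at h5
        refine h5.trans ?_
        have : min 1 (κ * rad x) ≤ 1 := min_le_left _ _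
        nlinarith [hv.e0])
    rw [hd x]
    linarith
  have hI : ∫ x, A1 L a x * rsq x ^ 2 * Zz v x ^ 4 = ∫ x, -(pd 2 (fun x => A1 L a x * rsq x ^ 2 * Zz v x * Zz v x * Zz v x) x * sV v x) := by
    rw [integral_neg, ← h1]
    refine integral_congr_ae (ae_of_all _ fun x => ?_)
    simp only
    have : pd 2 (sV v) x = Zz v x := rfl
    rw [this]
    ring
  have i5 : Integrable (fun x => -(pd 2 (fun x => A1 L a x * rsq x ^ 2 * Zz v x * Zz v x * Zz v x) x * sV v x)) :=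
    (BL_mul (pd_cont (hQZ3.sm.of_le (by simp)) 2) hV.sm.continuous (hB.2 2) (DB_BL hB')).neg
  have hm := integral_mono i5 ((i1.div_const 2).add (((i2.const_mul 2).add (i3.const_mul 18)).const_mul (ε ^ 2 / 2))) hpt
  have he : ∫ x, (A1 L a x * rsq x ^ 2 * Zz v x ^ 4 / 2 + ε ^ 2 / 2 * (2 * (A1 L a x * Zz v x ^ 2) + 18 * (A1 L a x * pd 2 (Zz v) x ^ 2))) =
      (∫ x, A1 L a x * rsq x ^ 2 * Zz v x ^ 4) / 2 + ε ^ 2 / 2 * (2 * (∫ x, A1 L a x * Zz v x ^ 2) + 18 * ∫ x, A1 L a x * pd 2 (Zz v) x ^ 2) := by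
    have i6 : Integrable (fun x => 2 * (A1 L a x * Zz v x ^ 2) + 18 * (A1 L a x * pd 2 (Zz v) x ^ 2)) :=
      (i2.const_mul 2).add (i3.const_mul 18)
    have e1 := integral_add (i1.div_const 2) (i6.const_mul (ε ^ 2 / 2))
    have e2 := integral_add (i2.const_mul 2) (i3.const_mul 18)
    rw [integral_div, integral_const_mul, e2, integral_const_mul, integral_const_mul] at e1
    exact e1
  have hm' : ∫ x, -(pd 2 (fun x => A1 L a x * rsq x ^ 2 * Zz v x * Zz v x * Zz v x) x * sV v x) ≤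
      (∫ x, A1 L a x * rsq x ^ 2 * Zz v x ^ 4) / 2 + ε ^ 2 / 2 * (2 * (∫ x, A1 L a x * Zz v x ^ 2) + 18 * ∫ x, A1 L a x * pd 2 (Zz v) x ^ 2) := by
    rw [← he]; exact hm
  rw [← hI] at hm'
  have hNJ : ∫ x, A1 L a x * Zz v x ^ 2 ≤ C * (DJ L a v + GG L a v) := hC L a v hL hv.vs
  have hDJ : ∫ x, A1 L a x * pd 2 (Zz v) x ^ 2 ≤ DJ L a v := by
    unfold DJ
    refine integral_mono i3 i4 fun x => ?_
    have h8 : pd 2 (Zz v) x ^ 2 ≤ gsq (Zz v) x := by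
      unfold gsq
      exact Finset.single_le_sum (f := fun i => pd i (Zz v) x ^ 2) (fun _ _ => sq_nonneg _) (Finset.mem_univ 2)
    exact mul_le_mul_of_nonneg_left h8 (A1_nn L a x).1
  have hGG : 0 ≤ GG L a v := by
    unfold GG
    refine setIntegral_nonneg ?_ fun x _ => mul_nonneg (ph_pos _ _ _).le (gv_nn _ _)
    have : Continuous (fun x : E3 => rsq x) := by unfold rsq; fun_prop
    exact measurableSet_lt this.measurable measurable_const
  have hε2 : 0 ≤ ε ^ 2 := sq_nonneg _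
  nlinarith [mul_le_mul_of_nonneg_left hNJ hε2, mul_le_mul_of_nonneg_left hDJ hε2, mul_nonneg hε2 hGG]

end Pool.Agent.H87.EP
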