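import Pool.Agent.H87.EP.C
import Pool.Agent.H87.NS.Sob

/-
ROW El_I. Cells along the axis: energy with weight, and the cell lemma S7 of helper88. Aux lemmas prefixed I_ .
`{x | rsq x < 1/2, k ≤ x 2 ≤ k + 1} ⊆ ball (axp (k + 1/2)) 1` (k ∈ ℤ; `‖x - axp z‖² = rsq x + (x 2 - z)²  < 1/2 + 1/4`).
`en_ph`: `∫_{rsq<1/2} ph ‖v‖² = ∑_k ∫_{cell k} ph ‖v‖² ≤ ∑_k (sup_{[k,k+1]} ph) K`, `sup_{[k,k+1]} ph ≤ 3 ph(s)` for `s ∈ [k,k+1]` (ph_shift), so `∑ ≤ 3 ∫ ph ≤ 12 L` (ph_int).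
   (Easier: `ph (x 2) ≤ 3 ∫_{k}^{k+1} ph`; or average over the centre: `∫_z ph(z) (∫_{ball (axp z) 1} ‖v‖²) dz = ∫_x ‖v x‖² ∫_z ph(z) 1_{‖x - axp z‖ < 1} dz` (Tonelli) and for `rsq x < 1/2` the inner integral is
    `≥ (1/3) ph(x 2) · |{z : |z - x 2| < 1/√2}| ≥ (√2/3) ph (x 2)`. No cells needed: `∫_{rsq<1/2} ph ‖v‖² ≤ 3 ∫_z ph(z) K dz ≤ 12 L K`.)
`S7`: `g` of class `DB 1`, zero for `rsq ≥ 1/2`. Average over centres instead of a partition: `η(t) := smoothTransition (2 - 4 t²)` (1 for `|t| ≤ 1/2`, 0 for `t² ≥ 1/2`), `g_z(x) := η(x 2 - z) g(x)`, `η ≥ 1_{|t|≤1/2}`.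
   `∫_x |v₂| g² ≤ ∫_z ∫_x |v₂| g_z² dx dz` (Tonelli; `∫_z η(x 2 - z)² dz ≥ 1`). For each `z`: `g_z` is supported in `ball (axp z) 1` up to its boundary (rsq < 1/2 and |x 2 - z| < 1/√2), so
   `∫ |v₂| g_z² ≤ (∫_{ball} ‖v‖²)^(1/2) (∫ g_z⁴)^(1/2) ≤ √K (∫ g_z²)^(1/4) (∫ g_z⁶)^(1/4)` (Cauchy-Schwarz twice: `∫ g⁴ ≤ (∫ g²)^(1/2) (∫ g⁶)^(1/2)`),
   `∫ g_z⁶ ≤ SB (∫ gsq g_z)³` (`SB_spec`, H87/NS/Sob.lean, see its exact form), hence `≤ C √K ∫ (g_z² + gsq g_z)` (Young: `a^(1/4) b^(3/4) ≤ a + b`), `gsq g_z ≤ 2 η² gsq g + 2 η'² g²`, and `∫_z (η² + η'²) dz ≤ C`. Integrate in `z` (Tonelli).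
-/

set_option autoImplicit false

open Set Filter Topology MeasureTheory
open scoped ContDiff

namespace Pool.Agent.H87.EP

open Pool.Agent.H16 Pool.Agent.H87.NS Pool.Agent.H72.CC Pool.Agent.H16.TU Pool.Agent.H94.EP


/-! ### The cutoff in the direction of the axis -/

noncomputable def I_eta (t : ℝ) : ℝ := Real.smoothTransition (2 - 4 * t ^ 2)

theorem I_eta_smooth : ContDiff ℝ ∞ I_eta := by
  unfold I_eta
  exact Real.smoothTransition.contDiff.comp (contDiff_const.sub (contDiff_const.mul (contDiff_id.pow 2)))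

theorem I_eta_nn (t : ℝ) : 0 ≤ I_eta t := Real.smoothTransition.nonneg _

theorem I_eta_le (t : ℝ) : I_eta t ≤ 1 := Real.smoothTransition.le_one _

theorem I_eta_one {t : ℝ} (h : t ^ 2 ≤ 1 / 4) : I_eta t = 1 :=
  Real.smoothTransition.one_of_one_le (by linarith)

theorem I_eta_zero {t : ℝ} (h : 1 / 2 ≤ t ^ 2) : I_eta t = 0 :=
  Real.smoothTransition.zero_of_nonpos (by linarith)

theorem I_eta_cs : HasCompactSupport I_eta := by
  refine HasCompactSupport.intro (isCompact_Icc (a := (-1:ℝ)) (b := 1)) fun t ht => ?_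
  apply I_eta_zero
  by_contra hc
  apply ht
  push Not at hc
  constructor <;> nlinarith only [hc]

theorem I_eta_c : Continuous I_eta := I_eta_smooth.continuous

theorem I_deta_c : Continuous (deriv I_eta) := I_eta_smooth.continuous_deriv (by simp)

theorem I_eta_sq_int : Integrable (fun t => I_eta t ^ 2) := by
  refine (I_eta_c.pow 2).integrable_of_hasCompactSupport ?_
  refine I_eta_cs.mono fun t ht h => ht ?_
  show I_eta t ^ 2 = 0
  rw [h]
  simp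

theorem I_deta_sq_int : Integrable (fun t => deriv I_eta t ^ 2) := by
  refine (I_deta_c.pow 2).integrable_of_hasCompactSupport ?_
  refine I_eta_cs.deriv.mono fun t ht h => ht ?_
  show deriv I_eta t ^ 2 = 0
  rw [h]
  simp

theorem I_deta_bd : ∃ D : ℝ, 0 ≤ D ∧ ∀ t, |deriv I_eta t| ≤ D := by
  obtain ⟨D, hD⟩ := I_deta_c.bounded_above_of_compact_support I_eta_cs.deriv
  refine ⟨D, (norm_nonneg _).trans (hD 0), fun t => ?_⟩
  have := hD t
  rwa [Real.norm_eq_abs] at this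

theorem I_c0_pos : 0 < ∫ t, I_eta t ^ 2 := by
  rw [integral_pos_iff_support_of_nonneg (fun t => sq_nonneg _) I_eta_sq_int]
  refine lt_of_lt_of_le ?_ (measure_mono (s := Icc (-(1/2):ℝ) (1/2)) ?_)
  · rw [Real.volume_Icc]
    norm_num
  · intro t ht
    rw [Function.mem_support, I_eta_one (by nlinarith [ht.1, ht.2])]
    norm_num

/-! ### Averages over the centre -/

theorem I_c2 : Continuous (fun x : E3 => x 2) := (Cut_coord 2).continuous

theorem I_fub {w : ℝ → ℝ} (hw : Continuous w) (hwi : Integrable w) {F : E3 → ℝ} (hF : Integrable F) :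
    Integrable (fun z => ∫ x, w (x 2 - z) * F x) ∧ ∫ z, ∫ x, w (x 2 - z) * F x = (∫ t, w t) * ∫ x, F x := by
  have hm : AEStronglyMeasurable (fun p : E3 × ℝ => w (p.1 2 - p.2) * F p.1) ((volume : Measure E3).prod (volume : Measure ℝ)) := by
    refine AEStronglyMeasurable.mul ?_ hF.aestronglyMeasurable.comp_fst
    exact (hw.comp ((I_c2.comp continuous_fst).sub continuous_snd)).aestronglyMeasurable
  have hi : Integrable (fun p : E3 × ℝ => w (p.1 2 - p.2) * F p.1) ((volume : Measure E3).prod (volume : Measure ℝ)) := by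
    rw [integrable_prod_iff hm]
    constructor
    · refine Filter.Eventually.of_forall fun x => ?_
      show Integrable (fun z : ℝ => w (x 2 - z) * F x)
      exact (hwi.comp_sub_left (x 2)).mul_const (F x)
    · have h1 : (fun x : E3 => ∫ z, ‖w (x 2 - z) * F x‖) = fun x => (∫ t, ‖w t‖) * ‖F x‖ := by
        funext x
        simp only [norm_mul]
        rw [integral_mul_const]
        congr 1
        exact integral_sub_left_eq_self (fun t => ‖w t‖) volume (x 2)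
      rw [h1]
      exact hF.norm.const_mul _
  constructor
  · exact hi.integral_prod_right
  · have h2 := integral_integral_swap (f := fun (x : E3) (z : ℝ) => w (x 2 - z) * F x) hi
    rw [← h2]
    have h3 : (fun x : E3 => ∫ z, w (x 2 - z) * F x) = fun x => (∫ t, w t) * F x := by
      funext x
      rw [integral_mul_const]
      congr 1
      exact integral_sub_left_eq_self (fun t => w t) volume (x 2)
    rw [h3, integral_const_mul]

theorem I_ball {x : E3} {z : ℝ} (h1 : rsq x < 1 / 2) (h2 : (x 2 - z) ^ 2 < 1 / 2) : x ∈ Metric.ball (axp z) 1 := by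
  rw [Metric.mem_ball, dist_eq_norm]
  have h3 := Cut_nsq (x - axp z)
  have h4 : (x - axp z) 0 = x 0 := by simp [axp]
  have h5 : (x - axp z) 1 = x 1 := by simp [axp]
  have h6 : (x - axp z) 2 = x 2 - z := by simp [axp]
  rw [h4, h5, h6] at h3
  unfold rsq at h1
  nlinarith only [norm_nonneg (x - axp z), h1, h2, h3]

theorem I_K {K : ℝ} {v : E3 → E3} (h : ∀ z, ∫ x in Metric.ball (axp z) 1, ‖v x‖ ^ 2 ≤ K) : 0 ≤ K :=
  le_trans (integral_nonneg fun _ => sq_nonneg _) (h 0)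

theorem I_rsq_c : Continuous (fun x : E3 => rsq x) := by
  unfold rsq
  exact ((Cut_coord 0).continuous.pow 2).add ((Cut_coord 1).continuous.pow 2)

theorem en_ph : ∃ C : ℝ, 1 ≤ C ∧ ∀ (L K a : ℝ) (v : E3 → E3), 1 ≤ L → Continuous v → Integrable (fun x => ‖v x‖ ^ 2) →
    (∀ z, ∫ x in Metric.ball (axp z) 1, ‖v x‖ ^ 2 ≤ K) →
    ∫ x in {x : E3 | rsq x < 1 / 2}, ph L a (x 2) * ‖v x‖ ^ 2 ≤ C * (L * K) := by
  refine ⟨max 1 (12 / ∫ t, I_eta t ^ 2), le_max_left _ _, fun L K a v hL hv hvi hK => ?_⟩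
  have hc0 := I_c0_pos
  have hK0 := I_K hK
  have hS : MeasurableSet {x : E3 | rsq x < 1 / 2} := (isOpen_lt I_rsq_c continuous_const).measurableSet
  have hphc : Continuous (fun x : E3 => ph L a (x 2)) := (ph_smooth L a).continuous.comp I_c2
  have hFi : Integrable (fun x => ph L a (x 2) * ‖v x‖ ^ 2) := by
    refine Integrable.mono' hvi (hphc.mul (hv.norm.pow 2)).aestronglyMeasurable ?_
    refine Filter.Eventually.of_forall fun x => ?_
    rw [Real.norm_eq_abs, abs_of_nonneg (mul_nonneg (ph_pos _ _ _).le (sq_nonneg _))]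
    exact mul_le_of_le_one_left (sq_nonneg _) (ph_le _ _ _)
  have hGi : Integrable ({x : E3 | rsq x < 1 / 2}.indicator (fun x => ph L a (x 2) * ‖v x‖ ^ 2)) := hFi.indicator hS
  rw [← integral_indicator hS]
  obtain ⟨h1, h2⟩ := I_fub (w := fun t => I_eta t ^ 2) (I_eta_c.pow 2) I_eta_sq_int hGi
  have h3 : ∀ z, ∫ x, I_eta (x 2 - z) ^ 2 * ({x : E3 | rsq x < 1 / 2}.indicator (fun x => ph L a (x 2) * ‖v x‖ ^ 2)) x
      ≤ 3 * ph L a z * K := by
    intro z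
    have hB : MeasurableSet (Metric.ball (axp z) 1) := measurableSet_ball
    have h4 : ∫ x, I_eta (x 2 - z) ^ 2 * ({x : E3 | rsq x < 1 / 2}.indicator (fun x => ph L a (x 2) * ‖v x‖ ^ 2)) x
        ≤ ∫ x, (Metric.ball (axp z) 1).indicator (fun x => 3 * ph L a z * ‖v x‖ ^ 2) x := by
      refine integral_mono_of_nonneg (Filter.Eventually.of_forall fun x => ?_) ((hvi.const_mul _).indicator hB)
        (Filter.Eventually.of_forall fun x => ?_)
      · exact mul_nonneg (sq_nonneg _) (indicator_nonneg (fun _ _ => mul_nonneg (ph_pos _ _ _).le (sq_nonneg _)) x)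
      · show I_eta (x 2 - z) ^ 2 * _ ≤ _
        have hr : 0 ≤ (Metric.ball (axp z) 1).indicator (fun x => 3 * ph L a z * ‖v x‖ ^ 2) x :=
          indicator_nonneg (fun _ _ => by have := (ph_pos L a z).le; positivity) x
        by_cases hx : rsq x < 1 / 2
        · by_cases hy : (x 2 - z) ^ 2 < 1 / 2
          · rw [indicator_of_mem (I_ball hx hy), indicator_of_mem (show x ∈ {x : E3 | rsq x < 1 / 2} from hx)]
            have h5 : I_eta (x 2 - z) ^ 2 ≤ 1 := pow_le_one₀ (I_eta_nn _) (I_eta_le _)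
            have h6 : ph L a (x 2) ≤ 3 * ph L a z := by
              have := ph_shift hL a z (x 2 - z) (by rw [abs_le]; constructor <;> nlinarith only [hy])
              rwa [add_sub_cancel] at this
            have h7 : 0 ≤ ph L a (x 2) * ‖v x‖ ^ 2 := mul_nonneg (ph_pos _ _ _).le (sq_nonneg _)
            calc I_eta (x 2 - z) ^ 2 * (ph L a (x 2) * ‖v x‖ ^ 2) ≤ 1 * (ph L a (x 2) * ‖v x‖ ^ 2) :=
                  mul_le_mul_of_nonneg_right h5 h7
              _ ≤ 3 * ph L a z * ‖v x‖ ^ 2 := by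
                  rw [one_mul]
                  exact mul_le_mul_of_nonneg_right h6 (sq_nonneg _)
          · rw [I_eta_zero (not_lt.1 hy)]
            simpa using hr
        · rw [indicator_of_notMem (show x ∉ {x : E3 | rsq x < 1 / 2} from hx), mul_zero]
          exact hr
    rw [integral_indicator hB, integral_const_mul] at h4
    refine h4.trans (mul_le_mul_of_nonneg_left (hK z) ?_)
    have := (ph_pos L a z).le
    positivity
  obtain ⟨h8, h9⟩ := ph_int hL a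
  have h10 : ∫ z, ∫ x, I_eta (x 2 - z) ^ 2 * ({x : E3 | rsq x < 1 / 2}.indicator (fun x => ph L a (x 2) * ‖v x‖ ^ 2)) x
      ≤ ∫ z, 3 * ph L a z * K :=
    integral_mono h1 ((h8.const_mul 3).mul_const K) h3
  have h11 : ∫ z, 3 * ph L a z * K ≤ 12 * (L * K) := by
    rw [integral_mul_const, integral_const_mul]
    nlinarith only [h9, hK0]
  have h12 : (∫ t, I_eta t ^ 2) * ∫ x, {x : E3 | rsq x < 1 / 2}.indicator (fun x => ph L a (x 2) * ‖v x‖ ^ 2) x
      ≤ 12 * (L * K) := by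
    have h13 := h2
    linarith
  have h14 : 0 ≤ L * K := by positivity
  calc ∫ x, {x : E3 | rsq x < 1 / 2}.indicator (fun x => ph L a (x 2) * ‖v x‖ ^ 2) x
      ≤ (12 / ∫ t, I_eta t ^ 2) * (L * K) := by
        rw [div_mul_eq_mul_div, le_div_iff₀ hc0]
        linarith
    _ ≤ _ := mul_le_mul_of_nonneg_right (le_max_right _ _) h14

/-! ### The localised function -/

theorem I_pd2 (z : ℝ) (i : Fin 3) (x : E3) : pd i (fun y => I_eta (y 2 - z)) x = deriv I_eta (x 2 - z) * (if i = 2 then 1 else 0) := by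
  have hf : ContDiff ℝ 1 (fun y : E3 => y 2 - z) := ((Cut_coord 2).sub contDiff_const).of_le (by simp)
  have h1 := comp_pd (f := fun y : E3 => y 2 - z) (H := I_eta) hf (I_eta_smooth.of_le (by simp)) i x
  rw [h1]
  congr 1
  unfold pd
  have h2 : HasFDerivAt (fun y : E3 => y 2 - z) (EuclideanSpace.proj (𝕜 := ℝ) 2 : E3 →L[ℝ] ℝ) x :=
    ((EuclideanSpace.proj (𝕜 := ℝ) 2 : E3 →L[ℝ] ℝ).hasFDerivAt).sub_const z
  rw [h2.fderiv]
  simp [e, eq_comm]

theorem I_eta2_cd (z : ℝ) : ContDiff ℝ 1 (fun y : E3 => I_eta (y 2 - z)) :=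
  (I_eta_smooth.comp ((Cut_coord 2).sub contDiff_const)).of_le (by simp)

theorem I_pdm {g : E3 → ℝ} (hg : ContDiff ℝ 1 g) (z : ℝ) (i : Fin 3) (x : E3) :
    pd i (fun y => I_eta (y 2 - z) * g y) x =
      I_eta (x 2 - z) * pd i g x + g x * (deriv I_eta (x 2 - z) * (if i = 2 then 1 else 0)) := by
  rw [← I_pd2]
  unfold pd
  rw [fderiv_fun_mul ((I_eta2_cd z).differentiable one_ne_zero x) (hg.differentiable one_ne_zero x)]
  rfl

theorem I_gsq {g : E3 → ℝ} (hg : ContDiff ℝ 1 g) (z : ℝ) (x : E3) :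
    gsq (fun y => I_eta (y 2 - z) * g y) x ≤ 2 * (I_eta (x 2 - z) ^ 2 * gsq g x) + 2 * (deriv I_eta (x 2 - z) ^ 2 * g x ^ 2) := by
  unfold gsq
  simp only [I_pdm hg, Fin.sum_univ_three]
  simp only [Fin.isValue, Fin.reduceEq, if_false, if_true, mul_zero, add_zero, mul_one]
  have h := sq_nonneg (I_eta (x 2 - z) * pd 2 g x - g x * deriv I_eta (x 2 - z))
  have h1 := sq_nonneg (I_eta (x 2 - z) * pd 0 g x)
  have h2 := sq_nonneg (I_eta (x 2 - z) * pd 1 g x)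
  linarith only [h, h1, h2]

theorem I_DB {B : ℝ} {g : E3 → ℝ} (hg : ContDiff ℝ 1 g) (hB : DB 1 B g) (z : ℝ) :
    ContDiff ℝ 1 (fun y => I_eta (y 2 - z) * g y) ∧ ∃ B', DB 1 B' (fun y => I_eta (y 2 - z) * g y) := by
  obtain ⟨D, hD0, hD⟩ := I_deta_bd
  have hB0 := BL_nonneg (DB_BL hB)
  have ha : ∀ x : E3, |I_eta (x 2 - z)| ≤ 1 := fun x => by
    rw [abs_of_nonneg (I_eta_nn _)]
    exact I_eta_le _
  have hac : Continuous (fun x : E3 => I_eta (x 2 - z)) := I_eta_c.comp (I_c2.sub continuous_const)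
  have hdc : Continuous (fun x : E3 => deriv I_eta (x 2 - z)) := I_deta_c.comp (I_c2.sub continuous_const)
  refine ⟨(I_eta2_cd z).mul hg, 2 * ((1 * B + 1 ^ 2 * B) + (D * B + D ^ 2 * B)), ?_, fun i => ?_⟩
  · refine BL_mono (mul_BL hg.continuous hac (DB_BL hB) ha) ?_
    have : 0 ≤ D * B + D ^ 2 * B := by positivity
    linarith only [this, hB0]
  · have hpd : pd i (fun y => I_eta (y 2 - z) * g y) = fun x => I_eta (x 2 - z) * pd i g x +
        (deriv I_eta (x 2 - z) * (if i = 2 then 1 else 0)) * g x := by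
      funext x
      rw [I_pdm hg]
      ring
    change BL _ (pd i (fun y => I_eta (y 2 - z) * g y))
    rw [hpd]
    have hdc' : Continuous (fun x : E3 => deriv I_eta (x 2 - z) * (if i = 2 then (1:ℝ) else 0)) := hdc.mul continuous_const
    refine add_BL (hac.mul (pd_cont hg i)) (hdc'.mul hg.continuous)
      (mul_BL (pd_cont hg i) hac (hB.2 i) ha) (mul_BL hg.continuous hdc' (DB_BL hB) fun x => ?_)
    by_cases hi : i = 2
    · simpa [hi] using hD (x 2 - z)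
    · simpa [hi] using hD0

theorem I_young (X y : ℝ) (hX : 0 ≤ X) (hy : 0 ≤ y) : X ^ 3 * y ≤ (X + y) ^ 4 := by
  have h1 : (X + y) ^ 4 = X ^ 3 * y + (X ^ 4 + 3 * X ^ 3 * y + 6 * X ^ 2 * y ^ 2 + 4 * X * y ^ 3 + y ^ 4) := by ring
  rw [h1]
  have : 0 ≤ X ^ 4 + 3 * X ^ 3 * y + 6 * X ^ 2 * y ^ 2 + 4 * X * y ^ 3 + y ^ 4 := by positivity
  linarith

/-- The local estimate. -/
theorem I_loc {K B θ z : ℝ} {v : E3 → E3} {g h q : E3 → ℝ} (hv : Continuous v) (hvi : Integrable (fun x => ‖v x‖ ^ 2))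
    (hK0 : 0 ≤ K) (hθ : 0 < θ) (hK : ∫ x in Metric.ball (axp z) 1, ‖v x‖ ^ 2 ≤ K) (hg : ContDiff ℝ 1 g) (hB : DB 1 B g)
    (hg0 : ∀ x, 1 / 2 ≤ rsq x → g x = 0) (hh : Continuous h) (hhi : Integrable (fun x => h x ^ 2)) (hq : Continuous q)
    (hqg : ∀ x, q x ^ 2 ≤ |g x| ^ 3 * |h x|) :
    ∫ x, I_eta (x 2 - z) ^ 2 * (‖v x‖ * |q x|) ≤
      θ * (∫ x, gsq (fun y => I_eta (y 2 - z) * g y) x) + K ^ 2 * SB ^ 3 / θ ^ 3 * ∫ x, I_eta (x 2 - z) ^ 2 * h x ^ 2 := by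
  obtain ⟨hgz, B', hB'⟩ := I_DB hg hB z
  obtain ⟨h6i, h6⟩ := SB_spec hgz hB'
  have hac : Continuous (fun x : E3 => I_eta (x 2 - z)) := I_eta_c.comp (I_c2.sub continuous_const)
  have hSB := SB_pos
  obtain ⟨A, hA⟩ : ∃ A, A = ∫ x, gsq (fun y => I_eta (y 2 - z) * g y) x := ⟨_, rfl⟩
  obtain ⟨H, hH⟩ : ∃ H, H = ∫ x, I_eta (x 2 - z) ^ 2 * h x ^ 2 := ⟨_, rfl⟩
  obtain ⟨S, hS⟩ : ∃ S, S = ∫ x, (I_eta (x 2 - z) * g x) ^ 6 := ⟨_, rfl⟩
  rw [← hA] at h6
  rw [← hS] at h6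
  rw [← hA, ← hH]
  have hA0 : 0 ≤ A := by
    rw [hA]
    exact integral_nonneg fun x => gsq_nonneg _ x
  have hH0 : 0 ≤ H := by
    rw [hH]
    exact integral_nonneg fun x => mul_nonneg (sq_nonneg _) (sq_nonneg _)
  have hS0 : 0 ≤ S := by
    rw [hS]
    refine integral_nonneg fun x => ?_
    show 0 ≤ (I_eta (x 2 - z) * g x) ^ 6
    positivity
  have hHi : Integrable (fun x => I_eta (x 2 - z) ^ 2 * h x ^ 2) := by
    refine Integrable.mono' hhi ((hac.pow 2).mul (hh.pow 2)).aestronglyMeasurable ?_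
    refine Filter.Eventually.of_forall fun x => ?_
    rw [Real.norm_eq_abs, abs_of_nonneg (mul_nonneg (sq_nonneg _) (sq_nonneg _))]
    exact mul_le_of_le_one_left (sq_nonneg _) (pow_le_one₀ (I_eta_nn _) (I_eta_le _))
  -- sixth powers
  have hS3 : S ≤ (SB * A) ^ 3 := by
    have h1 : (S ^ (1/3 : ℝ)) ^ 3 = S := by
      rw [← Real.rpow_natCast, ← Real.rpow_mul hS0]
      norm_num
    rw [← h1]
    exact pow_le_pow_left₀ (by positivity) h6 3
  -- first Cauchy-Schwarz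
  obtain ⟨qz, hqz⟩ : ∃ qz : E3 → ℝ, qz = fun x => I_eta (x 2 - z) ^ 2 * |q x| := ⟨_, rfl⟩
  have hqc : Continuous qz := by
    rw [hqz]
    exact (hac.pow 2).mul hq.abs
  have hq0 : ∀ x, 0 ≤ qz x := fun x => by
    rw [hqz]
    exact mul_nonneg (sq_nonneg _) (abs_nonneg _)
  have hq2 : ∀ x, qz x ^ 2 ≤ |I_eta (x 2 - z) * g x| ^ 3 * |I_eta (x 2 - z) * h x| := by
    intro x
    rw [hqz]
    show (I_eta (x 2 - z) ^ 2 * |q x|) ^ 2 ≤ _
    rw [mul_pow, sq_abs, abs_mul, abs_mul, abs_of_nonneg (I_eta_nn _)]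
    have h1 : (I_eta (x 2 - z) * |g x|) ^ 3 * (I_eta (x 2 - z) * |h x|) = (I_eta (x 2 - z) ^ 2) ^ 2 * (|g x| ^ 3 * |h x|) := by
      ring
    rw [h1]
    exact mul_le_mul_of_nonneg_left (hqg x) (sq_nonneg _)
  have hmi : Integrable (fun x => |I_eta (x 2 - z) * g x| ^ 3 * |I_eta (x 2 - z) * h x|) := by
    refine Integrable.mono' (h6i.add hHi) (((hac.mul hg.continuous).abs.pow 3).mul (hac.mul hh).abs).aestronglyMeasurable ?_
    refine Filter.Eventually.of_forall fun x => ?_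
    rw [Real.norm_eq_abs, abs_of_nonneg (by positivity)]
    show _ ≤ (I_eta (x 2 - z) * g x) ^ 6 + I_eta (x 2 - z) ^ 2 * h x ^ 2
    have h1 : (I_eta (x 2 - z) * g x) ^ 6 = (|I_eta (x 2 - z) * g x| ^ 3) ^ 2 := by
      rw [← pow_mul, Even.pow_abs (by decide)]
    have h2 : I_eta (x 2 - z) ^ 2 * h x ^ 2 = |I_eta (x 2 - z) * h x| ^ 2 := by
      rw [sq_abs]
      ring
    rw [h1, h2]
    linarith only [sq_nonneg (|I_eta (x 2 - z) * g x| ^ 3 - |I_eta (x 2 - z) * h x|), sq_nonneg (|I_eta (x 2 - z) * g x| ^ 3),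
      sq_nonneg (|I_eta (x 2 - z) * h x|)]
  have hqi : Integrable (fun x => qz x ^ 2) := by
    refine Integrable.mono' hmi (hqc.pow 2).aestronglyMeasurable ?_
    refine Filter.Eventually.of_forall fun x => ?_
    rw [Real.norm_eq_abs, abs_of_nonneg (sq_nonneg _)]
    exact hq2 x
  have hqI : ∫ x, qz x ^ 2 ≤ √S * √H := by
    have h1 : ∫ x, qz x ^ 2 ≤ ∫ x, |I_eta (x 2 - z) * g x| ^ 3 * |I_eta (x 2 - z) * h x| :=
      integral_mono hqi hmi hq2
    have e1 : ∀ x : E3, (|I_eta (x 2 - z) * g x| ^ 3) ^ 2 = (I_eta (x 2 - z) * g x) ^ 6 := fun x => by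
      rw [← pow_mul, Even.pow_abs (by decide)]
    have e2 : ∀ x : E3, |I_eta (x 2 - z) * h x| ^ 2 = I_eta (x 2 - z) ^ 2 * h x ^ 2 := fun x => by
      rw [sq_abs]
      ring
    have h2 := hint_cs (μ := (volume : Measure E3)) (g := fun x : E3 => |I_eta (x 2 - z) * g x| ^ 3)
      (h := fun x : E3 => |I_eta (x 2 - z) * h x|) (fun x => by positivity) (fun x => abs_nonneg _)
      ((hac.mul hg.continuous).abs.pow 3).aestronglyMeasurable (hac.mul hh).abs.aestronglyMeasurable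
      (by simp only [e1]; exact h6i) (by simp only [e2]; exact hHi)
    simp only [e1, e2] at h2
    rw [← hS, ← hH] at h2
    exact h1.trans h2
  have hT : ∫ x, I_eta (x 2 - z) ^ 2 * (‖v x‖ * |q x|) ≤ √K * √(√S * √H) := by
    have e1 : ∫ x, I_eta (x 2 - z) ^ 2 * (‖v x‖ * |q x|) = ∫ x in Metric.ball (axp z) 1, ‖v x‖ * qz x := by
      have e2 : ∫ x in Metric.ball (axp z) 1, ‖v x‖ * qz x = ∫ x, ‖v x‖ * qz x := by
        refine setIntegral_eq_integral_of_forall_compl_eq_zero fun x hx => ?_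
        have h1 : qz x = 0 := by
          rw [hqz]
          show I_eta (x 2 - z) ^ 2 * |q x| = 0
          by_cases hr : rsq x < 1 / 2
          · have h2 : ¬ (x 2 - z) ^ 2 < 1 / 2 := fun h2 => hx (I_ball hr h2)
            rw [I_eta_zero (not_lt.1 h2)]
            ring
          · have h3 := hqg x
            rw [hg0 x (not_lt.1 hr), abs_zero] at h3
            have h4 : q x ^ 2 ≤ 0 := by simpa using h3
            have h5 : q x = 0 := by nlinarith only [sq_nonneg (q x), h3]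
            rw [h5]
            simp
        rw [h1, mul_zero]
      rw [e2, hqz]
      refine integral_congr_ae (Filter.Eventually.of_forall fun x => ?_)
      show I_eta (x 2 - z) ^ 2 * (‖v x‖ * |q x|) = ‖v x‖ * (I_eta (x 2 - z) ^ 2 * |q x|)
      ring
    rw [e1]
    have h2 := hint_cs (μ := (volume : Measure E3).restrict (Metric.ball (axp z) 1)) (g := fun x : E3 => ‖v x‖)
      (h := qz) (fun x => norm_nonneg _) hq0 hv.norm.aestronglyMeasurable hqc.aestronglyMeasurable hvi.integrableOn hqi.integrableOn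
    refine h2.trans (mul_le_mul (Real.sqrt_le_sqrt hK) (Real.sqrt_le_sqrt ?_) (Real.sqrt_nonneg _) (Real.sqrt_nonneg _))
    refine le_trans ?_ hqI
    exact setIntegral_le_integral hqi (Filter.Eventually.of_forall fun x => sq_nonneg _)
  -- fourth powers
  have hT4 : (√K * √(√S * √H)) ^ 4 ≤ (θ * A) ^ 3 * (K ^ 2 * SB ^ 3 / θ ^ 3 * H) := by
    have e1 : (√K * √(√S * √H)) ^ 4 = (√K ^ 2) ^ 2 * (√(√S * √H) ^ 2) ^ 2 := by ring
    rw [e1, Real.sq_sqrt hK0, Real.sq_sqrt (by positivity), mul_pow, Real.sq_sqrt hS0, Real.sq_sqrt hH0]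
    have e2 : (θ * A) ^ 3 * (K ^ 2 * SB ^ 3 / θ ^ 3 * H) = K ^ 2 * ((SB * A) ^ 3 * H) := by
      field_simp
    rw [e2]
    exact mul_le_mul_of_nonneg_left (mul_le_mul_of_nonneg_right hS3 hH0) (sq_nonneg _)
  refine hT.trans ?_
  have hy : 0 ≤ K ^ 2 * SB ^ 3 / θ ^ 3 * H := by positivity
  have h5 := hT4.trans (I_young (θ * A) (K ^ 2 * SB ^ 3 / θ ^ 3 * H) (by positivity) hy)
  exact le_of_pow_le_pow_left₀ (by norm_num) (by positivity) h5

/-- The cell lemma with two functions. -/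
theorem I_cell : ∃ C : ℝ, 1 ≤ C ∧ ∀ (K B δ : ℝ) (v : E3 → E3) (g h q : E3 → ℝ), Continuous v → Integrable (fun x => ‖v x‖ ^ 2) → (∃ M, ∀ x, ‖v x‖ ≤ M) →
    0 ≤ K → 0 < δ → (∀ z, ∫ x in Metric.ball (axp z) 1, ‖v x‖ ^ 2 ≤ K) → ContDiff ℝ 1 g → DB 1 B g → (∀ x, 1 / 2 ≤ rsq x → g x = 0) →
    Continuous h → Integrable (fun x => h x ^ 2) → Continuous q → (∀ x, q x ^ 2 ≤ |g x| ^ 3 * |h x|) →
    Integrable (fun x => ‖v x‖ * |q x|) ∧
    ∫ x, ‖v x‖ * |q x| ≤ δ * (∫ x, (gsq g x + g x ^ 2)) + C * K ^ 2 / δ ^ 3 * ∫ x, h x ^ 2 := by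
  obtain ⟨c0, hc0e⟩ : ∃ c0, c0 = ∫ t, I_eta t ^ 2 := ⟨_, rfl⟩
  obtain ⟨c1, hc1e⟩ : ∃ c1, c1 = ∫ t, deriv I_eta t ^ 2 := ⟨_, rfl⟩
  have hc0 : 0 < c0 := hc0e ▸ I_c0_pos
  have hc1 : 0 ≤ c1 := by
    rw [hc1e]
    exact integral_nonneg fun x => sq_nonneg _
  obtain ⟨κ, hκe⟩ : ∃ κ, κ = 2 * (1 + c1 / c0) := ⟨_, rfl⟩
  have hκ : 0 < κ := by
    rw [hκe]
    positivity
  have hSB := SB_pos
  refine ⟨max 1 (SB ^ 3 * κ ^ 3), le_max_left _ _, fun K B δ v g h q hv hvi hvb hK0 hδ hK hg hB hg0 hh hhi hq hqg => ?_⟩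
  obtain ⟨M, hM⟩ := hvb
  have hM0 : 0 ≤ M := (norm_nonneg _).trans (hM 0)
  have hg2i : Integrable (fun x => g x ^ 2) := (DB_BL hB).2.1
  have hgsi := (gsq_int hB).1
  have hqb : ∀ x, |q x| ≤ g x ^ 2 + h x ^ 2 := by
    intro x
    refine abs_le_of_sq_le_sq ?_ (by positivity)
    refine (hqg x).trans ?_
    rw [← sq_abs (g x), ← sq_abs (h x)]
    obtain ⟨a, ha⟩ : ∃ a, a = |g x| := ⟨_, rfl⟩
    obtain ⟨b, hb⟩ : ∃ b, b = |h x| := ⟨_, rfl⟩
    rw [← ha, ← hb]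
    have ha0 : 0 ≤ a := ha ▸ abs_nonneg _
    have hb0 : 0 ≤ b := hb ▸ abs_nonneg _
    have h1 : a * b ≤ a ^ 2 + b ^ 2 := by linarith only [sq_nonneg (a - b), sq_nonneg a, sq_nonneg b]
    have h2 : a ^ 2 ≤ a ^ 2 + b ^ 2 := by linarith only [sq_nonneg b]
    calc a ^ 3 * b = a ^ 2 * (a * b) := by ring
      _ ≤ (a ^ 2 + b ^ 2) * (a ^ 2 + b ^ 2) := mul_le_mul h2 h1 (by positivity) (by positivity)
      _ = (a ^ 2 + b ^ 2) ^ 2 := by ring
  have hI : Integrable (fun x => ‖v x‖ * |q x|) := by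
    refine Integrable.mono' ((hg2i.add hhi).const_mul M) (hv.norm.mul hq.abs).aestronglyMeasurable ?_
    refine Filter.Eventually.of_forall fun x => ?_
    rw [Real.norm_eq_abs, abs_of_nonneg (by positivity)]
    exact mul_le_mul (hM x) (hqb x) (abs_nonneg _) hM0
  refine ⟨hI, ?_⟩
  obtain ⟨θ, hθe⟩ : ∃ θ, θ = δ / κ := ⟨_, rfl⟩
  have hθ : 0 < θ := by
    rw [hθe]
    positivity
  obtain ⟨f1, f1'⟩ := I_fub (w := fun t => I_eta t ^ 2) (I_eta_c.pow 2) I_eta_sq_int hI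
  obtain ⟨f2, f2'⟩ := I_fub (w := fun t => I_eta t ^ 2) (I_eta_c.pow 2) I_eta_sq_int hgsi
  obtain ⟨f3, f3'⟩ := I_fub (w := fun t => deriv I_eta t ^ 2) (I_deta_c.pow 2) I_deta_sq_int hg2i
  obtain ⟨f4, f4'⟩ := I_fub (w := fun t => I_eta t ^ 2) (I_eta_c.pow 2) I_eta_sq_int hhi
  have hac : ∀ z, Continuous (fun x : E3 => I_eta (x 2 - z)) := fun z => I_eta_c.comp (I_c2.sub continuous_const)
  have hdc : ∀ z, Continuous (fun x : E3 => deriv I_eta (x 2 - z)) := fun z => I_deta_c.comp (I_c2.sub continuous_const)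
  obtain ⟨D, hD0, hD⟩ := I_deta_bd
  have hloc : ∀ z, ∫ x, I_eta (x 2 - z) ^ 2 * (‖v x‖ * |q x|) ≤
      θ * (2 * (∫ x, I_eta (x 2 - z) ^ 2 * gsq g x) + 2 * ∫ x, deriv I_eta (x 2 - z) ^ 2 * g x ^ 2) +
        K ^ 2 * SB ^ 3 / θ ^ 3 * ∫ x, I_eta (x 2 - z) ^ 2 * h x ^ 2 := by
    intro z
    refine (I_loc hv hvi hK0 hθ (hK z) hg hB hg0 hh hhi hq hqg).trans ?_
    have i1 : Integrable (fun x => I_eta (x 2 - z) ^ 2 * gsq g x) := by
      refine hgsi.bdd_mul (c := 1) ((hac z).pow 2).aestronglyMeasurable (Filter.Eventually.of_forall fun x => ?_)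
      rw [Real.norm_eq_abs, abs_of_nonneg (sq_nonneg _)]
      exact pow_le_one₀ (I_eta_nn _) (I_eta_le _)
    have i2 : Integrable (fun x => deriv I_eta (x 2 - z) ^ 2 * g x ^ 2) := by
      refine hg2i.bdd_mul (c := D ^ 2) ((hdc z).pow 2).aestronglyMeasurable (Filter.Eventually.of_forall fun x => ?_)
      rw [Real.norm_eq_abs, abs_of_nonneg (sq_nonneg _), ← sq_abs]
      exact pow_le_pow_left₀ (abs_nonneg _) (hD _) 2
    have h1 : ∫ x, gsq (fun y => I_eta (y 2 - z) * g y) x ≤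
        2 * (∫ x, I_eta (x 2 - z) ^ 2 * gsq g x) + 2 * ∫ x, deriv I_eta (x 2 - z) ^ 2 * g x ^ 2 := by
      rw [← integral_const_mul, ← integral_const_mul, ← integral_add (i1.const_mul 2) (i2.const_mul 2)]
      obtain ⟨B', hB'⟩ := (I_DB hg hB z).2
      exact integral_mono (gsq_int hB').1 ((i1.const_mul 2).add (i2.const_mul 2)) fun x => I_gsq hg z x
    have h2 := mul_le_mul_of_nonneg_left h1 hθ.le
    linarith
  have i23 : Integrable (fun z => 2 * (∫ x, I_eta (x 2 - z) ^ 2 * gsq g x) + 2 * ∫ x, deriv I_eta (x 2 - z) ^ 2 * g x ^ 2) :=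
    (f2.const_mul 2).add (f3.const_mul 2)
  have iθ : Integrable (fun z => θ * (2 * (∫ x, I_eta (x 2 - z) ^ 2 * gsq g x) + 2 * ∫ x, deriv I_eta (x 2 - z) ^ 2 * g x ^ 2)) :=
    i23.const_mul θ
  have i4 : Integrable (fun z => K ^ 2 * SB ^ 3 / θ ^ 3 * ∫ x, I_eta (x 2 - z) ^ 2 * h x ^ 2) := f4.const_mul _
  have hmain := integral_mono f1 (iθ.add i4) hloc
  have e5 : ∫ z, (2 * (∫ x, I_eta (x 2 - z) ^ 2 * gsq g x) + 2 * ∫ x, deriv I_eta (x 2 - z) ^ 2 * g x ^ 2) =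
      2 * (c0 * ∫ x, gsq g x) + 2 * (c1 * ∫ x, g x ^ 2) := by
    rw [integral_add (f2.const_mul 2) (f3.const_mul 2), integral_const_mul, integral_const_mul, f2', f3', ← hc0e, ← hc1e]
  have e7 := integral_add iθ i4
  rw [integral_const_mul, integral_const_mul, e5, f4', ← hc0e] at e7
  rw [f1', ← hc0e] at hmain
  have hmain := hmain.trans (le_of_eq e7)
  obtain ⟨T, hT⟩ : ∃ T, T = ∫ x, ‖v x‖ * |q x| := ⟨_, rfl⟩
  obtain ⟨G, hG⟩ : ∃ G, G = ∫ x, gsq g x := ⟨_, rfl⟩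
  obtain ⟨G0, hG0⟩ : ∃ G0, G0 = ∫ x, g x ^ 2 := ⟨_, rfl⟩
  obtain ⟨H, hH⟩ : ∃ H, H = ∫ x, h x ^ 2 := ⟨_, rfl⟩
  rw [← hT, ← hG, ← hG0, ← hH] at hmain
  have e6 : ∫ x, (gsq g x + g x ^ 2) = G + G0 := by
    rw [integral_add hgsi hg2i, ← hG, ← hG0]
  rw [e6, ← hT, ← hH]
  have hGn : 0 ≤ G := by
    rw [hG]
    exact integral_nonneg fun x => gsq_nonneg _ x
  have hG0n : 0 ≤ G0 := by
    rw [hG0]
    exact integral_nonneg fun x => sq_nonneg _
  have hHn : 0 ≤ H := by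
    rw [hH]
    exact integral_nonneg fun x => sq_nonneg _
  have h7 : T ≤ θ * (2 * G + 2 * (c1 / c0) * G0) + K ^ 2 * SB ^ 3 / θ ^ 3 * H := by
    have h8 : c0 * T ≤ c0 * (θ * (2 * G + 2 * (c1 / c0) * G0) + K ^ 2 * SB ^ 3 / θ ^ 3 * H) := by
      refine hmain.trans (le_of_eq ?_)
      field_simp
    exact le_of_mul_le_mul_left h8 hc0
  have h9 : θ * (2 * G + 2 * (c1 / c0) * G0) ≤ δ * (G + G0) := by
    have h10 : 2 * G + 2 * (c1 / c0) * G0 ≤ κ * (G + G0) := by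
      rw [hκe]
      have h11 : 0 ≤ c1 / c0 := by positivity
      linarith only [mul_nonneg h11 hGn, hGn, hG0n, mul_nonneg h11 hG0n]
    have h12 : θ * (κ * (G + G0)) = δ * (G + G0) := by
      rw [hθe]
      field_simp
    rw [← h12]
    exact mul_le_mul_of_nonneg_left h10 hθ.le
  have h13 : K ^ 2 * SB ^ 3 / θ ^ 3 * H ≤ max 1 (SB ^ 3 * κ ^ 3) * K ^ 2 / δ ^ 3 * H := by
    have h14 : K ^ 2 * SB ^ 3 / θ ^ 3 = (SB ^ 3 * κ ^ 3) * K ^ 2 / δ ^ 3 := by
      rw [hθe]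
      field_simp
    rw [h14]
    refine mul_le_mul_of_nonneg_right ?_ hHn
    refine div_le_div_of_nonneg_right ?_ (by positivity)
    exact mul_le_mul_of_nonneg_right (le_max_right _ _) (sq_nonneg _)
  linarith only [h7, h9, h13]

/-- S7, the cell lemma. -/
theorem S7 : ∃ C : ℝ, 1 ≤ C ∧ ∀ (K B : ℝ) (v : E3 → E3) (g : E3 → ℝ), Continuous v → Integrable (fun x => ‖v x‖ ^ 2) → (∃ M, ∀ x, ‖v x‖ ≤ M) →
    (∀ z, ∫ x in Metric.ball (axp z) 1, ‖v x‖ ^ 2 ≤ K) → ContDiff ℝ 1 g → DB 1 B g → (∀ x, 1 / 2 ≤ rsq x → g x = 0) →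
    Integrable (fun x => |v x 2| * g x ^ 2) ∧ ∫ x, |v x 2| * g x ^ 2 ≤ C * √K * ∫ x, (gsq g x + g x ^ 2) := by
  obtain ⟨C, hC1, hC⟩ := I_cell
  refine ⟨1 + C, by linarith, fun K B v g hv hvi hvb hK hg hB hg0 => ?_⟩
  have hK0 := I_K hK
  have hg2i : Integrable (fun x => g x ^ 2) := (DB_BL hB).2.1
  have hgsi := (gsq_int hB).1
  have hq : ∀ x, (g x ^ 2) ^ 2 ≤ |g x| ^ 3 * |g x| := fun x => by
    rw [← pow_succ, ← pow_mul]
    norm_num
    rw [Even.pow_abs (by decide)]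
  have key := fun δ (hδ : 0 < δ) => hC K B δ v g g (fun x => g x ^ 2) hv hvi hvb hK0 hδ hK hg hB hg0 hg.continuous hg2i
    (hg.continuous.pow 2) hq
  have habs : ∀ x, |g x ^ 2| = g x ^ 2 := fun x => abs_of_nonneg (sq_nonneg _)
  simp only [habs] at key
  have hv2 : ∀ x, |v x 2| ≤ ‖v x‖ := fun x => by
    have := EuclideanSpace.norm_eq (v x)
    have h1 : ‖v x 2‖ ≤ ‖v x‖ := PiLp.norm_apply_le (v x) 2
    rwa [Real.norm_eq_abs] at h1
  have hI := (key 1 one_pos).1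
  have hvc : Continuous (fun x => v x 2) := I_c2.comp hv
  have hI2 : Integrable (fun x => |v x 2| * g x ^ 2) := by
    refine Integrable.mono' hI (hvc.abs.mul (hg.continuous.pow 2)).aestronglyMeasurable ?_
    refine Filter.Eventually.of_forall fun x => ?_
    rw [Real.norm_eq_abs, abs_of_nonneg (by positivity)]
    exact mul_le_mul_of_nonneg_right (hv2 x) (sq_nonneg _)
  refine ⟨hI2, ?_⟩
  have h1 : ∫ x, |v x 2| * g x ^ 2 ≤ ∫ x, ‖v x‖ * g x ^ 2 :=
    integral_mono hI2 hI fun x => mul_le_mul_of_nonneg_right (hv2 x) (sq_nonneg _)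
  have hX : 0 ≤ ∫ x, (gsq g x + g x ^ 2) := integral_nonneg fun x => add_nonneg (gsq_nonneg _ x) (sq_nonneg _)
  have hg2n : 0 ≤ ∫ x, g x ^ 2 := integral_nonneg fun x => sq_nonneg _
  have hle : ∫ x, g x ^ 2 ≤ ∫ x, (gsq g x + g x ^ 2) :=
    integral_mono hg2i (hgsi.add hg2i) fun x => by
      have := gsq_nonneg g x
      show g x ^ 2 ≤ gsq g x + g x ^ 2
      linarith
  rcases hK0.eq_or_lt with hK1 | hK1
  · have h2 : ∫ x, ‖v x‖ * g x ^ 2 ≤ 0 := by
      refine le_of_forall_pos_le_add fun ε hε => ?_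
      obtain ⟨X, hXe⟩ : ∃ X, X = ∫ x, (gsq g x + g x ^ 2) := ⟨_, rfl⟩
      rw [← hXe] at hX
      have h3 := (key (ε / (X + 1)) (by positivity)).2
      rw [← hXe, ← hK1] at h3
      have h4 : ε / (X + 1) * X ≤ ε := by
        rw [div_mul_eq_mul_div, div_le_iff₀ (by positivity)]
        linarith only [hε]
      have h5 : C * (0:ℝ) ^ 2 / (ε / (X + 1)) ^ 3 * ∫ x, g x ^ 2 = 0 := by simp
      rw [h5] at h3
      linarith
    rw [← hK1]
    simp only [Real.sqrt_zero, mul_zero, zero_mul]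
    exact h1.trans h2
  · have hs : 0 < √K := Real.sqrt_pos.2 hK1
    have h3 := (key (√K) hs).2
    have h4 : C * K ^ 2 / √K ^ 3 = C * √K := by
      have h5 : √K ^ 2 = K := Real.sq_sqrt hK0
      rw [div_eq_iff (by positivity)]
      have : K ^ 2 = √K ^ 4 := by
        rw [← h5]
        simp only [Real.sqrt_sq hs.le]
        ring
      rw [this]
      ring
    rw [h4] at h3
    have h6 : C * √K * ∫ x, g x ^ 2 ≤ C * √K * ∫ x, (gsq g x + g x ^ 2) :=
      mul_le_mul_of_nonneg_left hle (by positivity)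
    calc ∫ x, |v x 2| * g x ^ 2 ≤ √K * (∫ x, (gsq g x + g x ^ 2)) + C * √K * ∫ x, g x ^ 2 := h1.trans h3
      _ ≤ (1 + C) * √K * ∫ x, (gsq g x + g x ^ 2) := by linarith

end Pool.Agent.H87.EP
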