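import Pool.Agent.H87.EP.A

/-
ROW El_B. Lines parallel to the axis, divergence theorem on the exterior of a cylinder.
-/

set_option autoImplicit false

open Set Filter Topology MeasureTheory
open scoped ContDiff

namespace Pool.Agent.H87.EP

open Pool.Agent.H16 Pool.Agent.H87.NS Pool.Agent.H72.CC Pool.Agent.H16.TU Pool.Agent.H94.EP

/-- The point at distance `r` from the axis and height `s`. -/
noncomputable def lp (r s : ℝ) : E3 := !₂[r, 0, s]

/-! ### auxiliary lemmas -/

theorem B_lp_cont : Continuous (fun q : ℝ × ℝ => lp q.1 q.2) := by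
  unfold lp
  fun_prop

theorem B_lp0 (r s : ℝ) : lp r s 0 = r := rfl

theorem B_lp1 (r s : ℝ) : lp r s 1 = 0 := rfl

theorem B_lp2 (r s : ℝ) : lp r s 2 = s := rfl

theorem B_rad_lp {r : ℝ} (hr : 0 ≤ r) (s : ℝ) : rad (lp r s) = r := by
  unfold rad
  rw [B_lp0, B_lp1]
  rw [show r ^ 2 + (0 : ℝ) ^ 2 = r ^ 2 by ring, Real.sqrt_sq hr]

theorem B_rad_cont : Continuous (rad : E3 → ℝ) := by
  unfold rad
  fun_prop

theorem B_rad_rot (θ : ℝ) (x : E3) : rad (rot θ x) = rad x := by
  unfold rad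
  congr 1
  simp only [rot_zero', rot_one']
  linear_combination (x 0 ^ 2 + x 1 ^ 2) * Real.sin_sq_add_cos_sq θ

/-- The coordinates `(x 2, (x 0, x 1))` as a homeomorphism. -/
noncomputable def B_eq : E3 ≃ₜ ℝ × (ℝ × ℝ) where
  toFun x := (x 2, (x 0, x 1))
  invFun q := !₂[q.2.1, q.2.2, q.1]
  left_inv x := by apply ext3 <;> rfl
  right_inv q := rfl
  continuous_toFun := by fun_prop
  continuous_invFun := by fun_prop

theorem B_mp : MeasurePreserving B_eq := Cyl_mp

theorem B_rotlp (θ ρ s : ℝ) : (!₂[ρ * Real.cos θ, ρ * Real.sin θ, s] : E3) = rot θ (lp ρ s) := by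
  apply ext3
  · show ρ * Real.cos θ = Real.cos θ * ρ - Real.sin θ * 0
    ring
  · show ρ * Real.sin θ = Real.sin θ * ρ + Real.cos θ * 0
    ring
  · rfl

theorem B_full {H : E3 → ℝ} (hr : ∀ θ x, H (rot θ x) = H x) (hi : Integrable H) :
    ∫ x, H x = 2 * Real.pi * ∫ ρ in Ioi (0 : ℝ), ρ * ∫ s, H (lp ρ s) := by
  have h1 : ∫ x, H x = ∫ q, H (B_eq.symm q) := by
    have h := B_mp.integral_comp B_eq.measurableEmbedding (fun q => H (B_eq.symm q))
    rw [← h]
    simp
  have hi' : Integrable (fun q => H (B_eq.symm q)) := by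
    refine (B_mp.integrable_comp_emb B_eq.measurableEmbedding).1 ?_
    refine hi.congr (Filter.Eventually.of_forall fun x => ?_)
    simp
  have h2 : ∫ q, H (B_eq.symm q) = ∫ p : ℝ × ℝ, ∫ z : ℝ, H (B_eq.symm (z, p)) := by
    rw [Measure.volume_eq_prod] at hi' ⊢
    exact integral_prod_symm _ hi'
  rw [h1, h2, ← integral_comp_polarCoord_symm]
  have h3 : ∫ p in polarCoord.target, p.1 • (∫ z : ℝ, H (B_eq.symm (z, polarCoord.symm p))) =
      ∫ p in Ioi (0 : ℝ) ×ˢ Ioo (-Real.pi) Real.pi, (p.1 * ∫ s, H (lp p.1 s)) * (fun _ => (1 : ℝ)) p.2 := by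
    rw [polarCoord_target]
    refine setIntegral_congr_fun (measurableSet_Ioi.prod measurableSet_Ioo) fun p _ => ?_
    show p.1 * (∫ z : ℝ, H (B_eq.symm (z, polarCoord.symm p))) = (p.1 * ∫ s, H (lp p.1 s)) * 1
    rw [mul_one]
    congr 1
    refine integral_congr_ae (Filter.Eventually.of_forall fun z => ?_)
    show H (!₂[p.1 * Real.cos p.2, p.1 * Real.sin p.2, z] : E3) = H (lp p.1 z)
    rw [B_rotlp, hr]
  rw [h3, Measure.volume_eq_prod]
  rw [setIntegral_prod_mul (fun ρ : ℝ => ρ * ∫ s, H (lp ρ s)) (fun _ : ℝ => (1 : ℝ))]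
  have h4 : ∫ _ in Ioo (-Real.pi) Real.pi, (1 : ℝ) = 2 * Real.pi := by
    rw [setIntegral_const, smul_eq_mul, mul_one, Measure.real, Real.volume_Ioo,
      ENNReal.toReal_ofReal (by linarith [Real.pi_pos])]
    ring
  rw [h4]
  ring

/-- Cylindrical coordinates. -/
theorem cyl_int {F : E3 → ℝ} (hF : Continuous F) (hr : ∀ θ x, F (rot θ x) = F x) (hi : Integrable F) {r : ℝ} (h0 : 0 ≤ r) :
    ∫ x in {x | r < rad x}, F x = 2 * Real.pi * ∫ ρ in Ioi r, ρ * ∫ s, F (lp ρ s) := by
  have hm : MeasurableSet {x : E3 | r < rad x} := measurableSet_lt measurable_const B_rad_cont.measurable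
  rw [← integral_indicator hm, B_full (H := {x : E3 | r < rad x}.indicator F) ?_ (hi.indicator hm)]
  · congr 1
    rw [← integral_indicator measurableSet_Ioi, ← integral_indicator measurableSet_Ioi]
    refine integral_congr_ae (Filter.Eventually.of_forall fun ρ => ?_)
    show (Ioi (0 : ℝ)).indicator (fun ρ => ρ * ∫ s, {x : E3 | r < rad x}.indicator F (lp ρ s)) ρ =
      (Ioi r).indicator (fun ρ => ρ * ∫ s, F (lp ρ s)) ρ
    by_cases h1 : 0 < ρ
    · rw [indicator_of_mem (show ρ ∈ Ioi (0 : ℝ) from h1)]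
      by_cases h2 : r < ρ
      · rw [indicator_of_mem (show ρ ∈ Ioi r from h2)]
        congr 1
        refine integral_congr_ae (Filter.Eventually.of_forall fun s => ?_)
        show {x : E3 | r < rad x}.indicator F (lp ρ s) = F (lp ρ s)
        refine indicator_of_mem ?_ _
        show r < rad (lp ρ s)
        rw [B_rad_lp h1.le]
        exact h2
      · rw [indicator_of_notMem (show ρ ∉ Ioi r from h2)]
        have h3 : ∀ s, {x : E3 | r < rad x}.indicator F (lp ρ s) = 0 := by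
          intro s
          refine indicator_of_notMem ?_ _
          show ¬ (r < rad (lp ρ s))
          rw [B_rad_lp h1.le]
          exact h2
        simp only [h3, integral_zero, mul_zero]
    · rw [indicator_of_notMem (show ρ ∉ Ioi (0 : ℝ) from h1),
        indicator_of_notMem (show ρ ∉ Ioi r from fun h => h1 (h0.trans_lt h))]
  · intro θ x
    by_cases h : r < rad x
    · rw [indicator_of_mem (show rot θ x ∈ {x : E3 | r < rad x} by
        show r < rad (rot θ x)
        rw [B_rad_rot]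
        exact h), indicator_of_mem (show x ∈ {x : E3 | r < rad x} from h), hr]
    · rw [indicator_of_notMem (show rot θ x ∉ {x : E3 | r < rad x} by
        show ¬ (r < rad (rot θ x))
        rw [B_rad_rot]
        exact h), indicator_of_notMem (show x ∉ {x : E3 | r < rad x} from h)]

theorem B_trig {c s : ℝ} (h : c ^ 2 + s ^ 2 = 1) : ∃ θ : ℝ, Real.cos θ = c ∧ Real.sin θ = s := by
  have hn : ‖(⟨c, s⟩ : ℂ)‖ = 1 := by
    rw [Complex.norm_def, Complex.normSq_mk, ← pow_two, ← pow_two, h, Real.sqrt_one]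
  have h0 : (⟨c, s⟩ : ℂ) ≠ 0 := by
    intro h0
    rw [h0, norm_zero] at hn
    exact zero_ne_one hn
  refine ⟨Complex.arg ⟨c, s⟩, ?_, ?_⟩
  · rw [Complex.cos_arg h0, hn, div_one]
  · rw [Complex.sin_arg, hn, div_one]

theorem B_polar (x : E3) : ∃ θ : ℝ, rot θ (lp (rad x) (x 2)) = x := by
  by_cases h : rad x = 0
  · refine ⟨0, ?_⟩
    have h1 : x 0 ^ 2 + x 1 ^ 2 = 0 := by
      have h2 : rad x ^ 2 = x 0 ^ 2 + x 1 ^ 2 := Real.sq_sqrt (by positivity)
      rw [← h2, h]
      ring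
    have h3 : x 0 = 0 := by nlinarith [sq_nonneg (x 0), sq_nonneg (x 1)]
    have h4 : x 1 = 0 := by nlinarith [sq_nonneg (x 0), sq_nonneg (x 1)]
    rw [rot_zero_angle, h]
    apply ext3
    · rw [B_lp0, h3]
    · rw [B_lp1, h4]
    · rw [B_lp2]
  · have h2 : rad x ^ 2 = x 0 ^ 2 + x 1 ^ 2 := Real.sq_sqrt (by positivity)
    have h3 : (x 0 / rad x) ^ 2 + (x 1 / rad x) ^ 2 = 1 := by
      rw [div_pow, div_pow, ← add_div, ← h2]
      exact div_self (pow_ne_zero 2 h)
    obtain ⟨θ, h4, h5⟩ := B_trig h3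
    refine ⟨θ, ?_⟩
    rw [← B_rotlp, h4, h5]
    apply ext3
    · show rad x * (x 0 / rad x) = x 0
      field_simp
    · show rad x * (x 1 / rad x) = x 1
      field_simp
    · rfl

theorem B_int {H : E3 → ℝ} (hc : Continuous H) (hr : ∀ θ x, H (rot θ x) = H x) (hi : Integrable H) :
    Integrable (fun q : ℝ × ℝ => q.1 * H (lp q.1 q.2)) ((volume.restrict (Ioi (0 : ℝ))).prod volume) := by
  have hcont : Continuous (fun q : ℝ × ℝ => q.1 * H (lp q.1 q.2)) :=
    continuous_fst.mul (hc.comp B_lp_cont)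
  refine ⟨hcont.aestronglyMeasurable, ?_⟩
  have hm : Measurable (fun q : ℝ × ℝ => ‖H (lp q.1 q.2)‖ₑ) := (hc.comp B_lp_cont).enorm.measurable
  have h1 := cyl hm
  have h2 : ∫⁻ x : E3, ‖H (lp (rad x) (x 2))‖ₑ = ∫⁻ x : E3, ‖H x‖ₑ := by
    refine lintegral_congr fun x => ?_
    obtain ⟨θ, hθ⟩ := B_polar x
    rw [← hr θ (lp (rad x) (x 2)), hθ]
  have h3 : ∫⁻ x : E3, ‖H x‖ₑ < ⊤ := hi.2
  unfold HasFiniteIntegral
  rw [lintegral_prod _ hcont.enorm.measurable.aemeasurable]
  have h4 : ∫⁻ ρ in Ioi (0 : ℝ), ∫⁻ z : ℝ, ‖ρ * H (lp ρ z)‖ₑ =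
      ∫⁻ ρ in Ioi (0 : ℝ), ∫⁻ z : ℝ, ENNReal.ofReal ρ * ‖H (lp ρ z)‖ₑ := by
    refine setLIntegral_congr_fun measurableSet_Ioi fun ρ hρ => ?_
    refine lintegral_congr fun z => ?_
    rw [enorm_mul, Real.enorm_of_nonneg (le_of_lt hρ)]
  rw [h4]
  by_contra hcon
  have h5 := not_lt_top_iff.1 hcon
  rw [h5, h2, ENNReal.mul_top (by
    rw [Ne, ENNReal.ofReal_eq_zero, not_le]
    positivity)] at h1
  rw [h1] at h3
  exact lt_irrefl _ h3

theorem B_deriv {F : E3 → ℝ} (hF : Ri F) (ρ s : ℝ) :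
    HasDerivAt (fun ρ => F (lp ρ s)) (ρ * dh F (lp ρ s)) ρ := by
  have h1 : HasDerivAt (fun ρ : ℝ => lp ρ s) (e 0) ρ := by
    refine hasDerivAt_e3 fun i => ?_
    fin_cases i
    · show HasDerivAt (fun ρ : ℝ => ρ) ((e 0 : E3) 0) ρ
      have : (e 0 : E3) 0 = 1 := by simp [e]
      rw [this]
      exact hasDerivAt_id ρ
    · show HasDerivAt (fun _ : ℝ => (0 : ℝ)) ((e 0 : E3) 1) ρ
      have : (e 0 : E3) 1 = 0 := by simp [e]
      rw [this]
      exact hasDerivAt_const ρ 0
    · show HasDerivAt (fun _ : ℝ => s) ((e 0 : E3) 2) ρ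
      have : (e 0 : E3) 2 = 0 := by simp [e]
      rw [this]
      exact hasDerivAt_const ρ s
  have h2 := ((A_dd hF.sm (lp ρ s)).hasFDerivAt).comp_hasDerivAt ρ h1
  have h3 : fderiv ℝ F (lp ρ s) (e 0) = ρ * dh F (lp ρ s) := by
    have h4 := (A_pdi hF.sm hF.rot (lp ρ s)).1
    rw [B_lp0] at h4
    exact h4
  rw [h3] at h2
  exact h2

theorem B_line {F : E3 → ℝ} (hF : Ri F) (hi : Integrable F) (hi' : Integrable (dh F)) {r : ℝ} (hr : 0 < r) :
    ∀ᵐ s : ℝ, F (lp r s) = - ∫ ρ in Ioi r, ρ * dh F (lp ρ s) := by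
  have h1 := (B_int hF.sm.continuous hF.rot hi).prod_left_ae
  have h2 := (B_int hF.dh.sm.continuous hF.dh.rot hi').prod_left_ae
  filter_upwards [h1, h2] with s hs hs'
  have hsub : Ioi r ⊆ Ioi (0 : ℝ) := Ioi_subset_Ioi hr.le
  have e1 : IntegrableOn (fun ρ : ℝ => ρ * F (lp ρ s)) (Ioi r) := IntegrableOn.mono_set hs hsub
  have e2 : IntegrableOn (fun ρ : ℝ => ρ * dh F (lp ρ s)) (Ioi r) := IntegrableOn.mono_set hs' hsub
  have hc : Continuous (fun ρ : ℝ => F (lp ρ s)) :=
    hF.sm.continuous.comp (B_lp_cont.comp (continuous_id.prodMk continuous_const))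
  have e3 : IntegrableOn (fun ρ : ℝ => F (lp ρ s)) (Ioi r) := by
    refine Integrable.mono' (e1.norm.const_mul r⁻¹) hc.aestronglyMeasurable ?_
    refine (ae_restrict_iff' measurableSet_Ioi).2 (Filter.Eventually.of_forall fun ρ hρ => ?_)
    have h3 : r < ρ := hρ
    have h4 : 0 < ρ := hr.trans h3
    rw [norm_mul, Real.norm_of_nonneg h4.le]
    have h5 : 1 ≤ r⁻¹ * ρ := by
      rw [inv_mul_eq_div, le_div_iff₀ hr]
      linarith
    have h6 := norm_nonneg (F (lp ρ s))
    nlinarith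
  have ht := tendsto_zero_of_hasDerivAt_of_integrableOn_Ioi (fun ρ _ => B_deriv hF ρ s) e2 e3
  have h7 := integral_Ioi_of_hasDerivAt_of_tendsto' (a := r) (fun ρ _ => B_deriv hF ρ s) e2 ht
  rw [h7]
  ring

theorem B_Gint {F : E3 → ℝ} (hF : Ri F) (hi' : Integrable (dh F)) {r : ℝ} (hr : 0 < r) :
    Integrable (fun q : ℝ × ℝ => q.1 * dh F (lp q.1 q.2)) ((volume.restrict (Ioi r)).prod volume) := by
  have h2 := B_int hF.dh.sm.continuous hF.dh.rot hi'
  exact h2.mono_measure (Measure.prod_mono (Measure.restrict_mono (Ioi_subset_Ioi hr.le) le_rfl) le_rfl)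

theorem B_lint {F : E3 → ℝ} (hF : Ri F) (hi : Integrable F) (hi' : Integrable (dh F)) {r : ℝ} (hr : 0 < r) :
    Integrable (fun s => F (lp r s)) := by
  have h1 := (B_Gint hF hi' hr).integral_prod_right.neg
  refine h1.congr ?_
  filter_upwards [B_line hF hi hi' hr] with s hs
  exact hs.symm

theorem B_leq {F : E3 → ℝ} (hF : Ri F) (hi : Integrable F) (hi' : Integrable (dh F)) {r : ℝ} (hr : 0 < r) :
    ∫ s, F (lp r s) = - (2 * Real.pi)⁻¹ * ∫ x in {x | r < rad x}, dh F x := by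
  rw [integral_congr_ae (B_line hF hi hi' hr), integral_neg, cyl_int hF.dh.sm.continuous hF.dh.rot hi' hr.le]
  have h1 : ∫ s : ℝ, ∫ ρ in Ioi r, ρ * dh F (lp ρ s) = ∫ ρ in Ioi r, ∫ s : ℝ, ρ * dh F (lp ρ s) :=
    (integral_integral_swap (f := fun ρ s => ρ * dh F (lp ρ s)) (B_Gint hF hi' hr)).symm
  rw [h1]
  simp only [integral_const_mul]
  have h2 := Real.pi_pos
  field_simp

theorem B_mulint {p q : E3 → ℝ} (hp : Ri p) (hq : Ri q) : Integrable (fun x => p x * q x) := by
  obtain ⟨K, hK⟩ := hp.db 0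
  obtain ⟨K', hK'⟩ := hq.db 0
  exact BL_mul hp.sm.continuous hq.sm.continuous hK hK'

theorem B_dhmul {p q : E3 → ℝ} (hp : Ri p) (hq : Ri q) :
    dh (fun x => p x * q x) = fun x => p x * dh q x + dh p x * q x := by
  funext x
  exact dh_mul hp hq x

theorem B_dhint {p q : E3 → ℝ} (hp : Ri p) (hq : Ri q) : Integrable (dh (fun x => p x * q x)) := by
  rw [B_dhmul hp hq]
  exact (B_mulint hp hq.dh).add (B_mulint hp.dh hq)

/-! ### the row -/

theorem line_int {p q : E3 → ℝ} (hp : Ri p) (hq : Ri q) {r : ℝ} (hr : 0 < r) : Integrable (fun s => p (lp r s) * q (lp r s)) :=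
  B_lint (hp.mul hq) (B_mulint hp hq) (B_dhint hp hq) hr

theorem line_eq {p q : E3 → ℝ} (hp : Ri p) (hq : Ri q) {r : ℝ} (hr : 0 < r) :
    ∫ s, p (lp r s) * q (lp r s) = - (2 * Real.pi)⁻¹ * ∫ x in {x | r < rad x}, (p x * dh q x + dh p x * q x) := by
  have h1 := B_leq (hp.mul hq) (B_mulint hp hq) (B_dhint hp hq) hr
  rw [B_dhmul hp hq] at h1
  exact h1

theorem axis_le {p q : E3 → ℝ} (hp : Ri p) (hq : Ri q) (h : ∀ x, 0 ≤ p x * q x) : ∫ x, (p x * dh q x + dh p x * q x) ≤ 0 := by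
  have hG := B_dhint hp hq
  rw [B_dhmul hp hq] at hG
  obtain ⟨S, hS⟩ : ∃ S : ℕ → Set E3, S = fun n : ℕ => {x : E3 | 1 / ((n : ℝ) + 1) < rad x} := ⟨_, rfl⟩
  have hSm : ∀ n, MeasurableSet (S n) := by
    intro n
    rw [hS]
    exact measurableSet_lt measurable_const B_rad_cont.measurable
  have hmono : Monotone S := by
    intro m n hmn x hx
    rw [hS] at hx ⊢
    have h1 : 1 / ((m : ℝ) + 1) < rad x := hx
    show 1 / ((n : ℝ) + 1) < rad x
    refine lt_of_le_of_lt ?_ h1
    exact Nat.one_div_le_one_div hmn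
  have ht := tendsto_setIntegral_of_monotone (μ := (volume : Measure E3)) hSm hmono
    (f := fun x => p x * dh q x + dh p x * q x) hG.integrableOn
  have hU : (⋃ n, S n) =ᵐ[volume] (univ : Set E3) := by
    refine eventuallyEq_set.2 ?_
    filter_upwards [axis_null] with x hx
    refine ⟨fun _ => mem_univ x, fun _ => ?_⟩
    obtain ⟨n, hn⟩ := exists_nat_one_div_lt hx
    rw [hS]
    exact mem_iUnion.2 ⟨n, hn⟩
  rw [setIntegral_congr_set hU, setIntegral_univ] at ht
  refine le_of_tendsto ht (Filter.Eventually.of_forall fun n => ?_)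
  have h1 : (0 : ℝ) < 1 / ((n : ℝ) + 1) := Nat.one_div_pos_of_nat
  have h2 := line_eq hp hq h1
  have h3 : 0 ≤ ∫ s, p (lp (1 / ((n : ℝ) + 1)) s) * q (lp (1 / ((n : ℝ) + 1)) s) :=
    integral_nonneg fun s => h _
  rw [h2] at h3
  have h4 : (0 : ℝ) < (2 * Real.pi)⁻¹ := by positivity
  rw [hS]
  by_contra hcon
  rw [not_le] at hcon
  have h5 := mul_pos h4 hcon
  linarith

theorem ibp2 {p q : E3 → ℝ} (hp : Ri p) (hq : Ri q) (r : ℝ) :
    ∫ x in {x | r < rad x}, p x * pd 2 q x = - ∫ x in {x | r < rad x}, pd 2 p x * q x := by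
  have hm : MeasurableSet {x : E3 | r < rad x} := measurableSet_lt measurable_const B_rad_cont.measurable
  obtain ⟨S, hS⟩ : ∃ S : Set E3, S = {x : E3 | r < rad x} := ⟨_, rfl⟩
  rw [← hS] at hm ⊢
  have hi1 : Integrable (fun x => p x * q x) := B_mulint hp hq
  have hi2 : Integrable (fun x => p x * pd 2 q x) := B_mulint hp hq.pd2
  have hi3 : Integrable (fun x => pd 2 p x * q x) := B_mulint hp.pd2 hq
  have key := integral_bilinear_hasLineDerivAt_right_eq_neg_left_of_integrable (μ := (volume : Measure E3))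
    (f := S.indicator p) (f' := S.indicator (pd 2 p)) (g := q) (g' := pd 2 q) (v := e 2)
    (B := ContinuousLinearMap.mul ℝ ℝ) ?_ ?_ ?_ ?_ ?_
  · have e1 : ∀ x, (ContinuousLinearMap.mul ℝ ℝ) (S.indicator p x) (pd 2 q x) =
        S.indicator (fun x => p x * pd 2 q x) x := by
      intro x
      show S.indicator p x * pd 2 q x = _
      by_cases hx : x ∈ S
      · rw [indicator_of_mem hx, indicator_of_mem hx]
      · rw [indicator_of_notMem hx, indicator_of_notMem hx, zero_mul]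
    have e2 : ∀ x, (ContinuousLinearMap.mul ℝ ℝ) (S.indicator (pd 2 p) x) (q x) =
        S.indicator (fun x => pd 2 p x * q x) x := by
      intro x
      show S.indicator (pd 2 p) x * q x = _
      by_cases hx : x ∈ S
      · rw [indicator_of_mem hx, indicator_of_mem hx]
      · rw [indicator_of_notMem hx, indicator_of_notMem hx, zero_mul]
    simp only [e1, e2] at key
    rw [integral_indicator hm, integral_indicator hm] at key
    exact key
  · refine (hi3.indicator hm).congr (Filter.Eventually.of_forall fun x => ?_)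
    show S.indicator (fun x => pd 2 p x * q x) x = S.indicator (pd 2 p) x * q x
    by_cases hx : x ∈ S
    · rw [indicator_of_mem hx, indicator_of_mem hx]
    · rw [indicator_of_notMem hx, indicator_of_notMem hx, zero_mul]
  · refine (hi2.indicator hm).congr (Filter.Eventually.of_forall fun x => ?_)
    show S.indicator (fun x => p x * pd 2 q x) x = S.indicator p x * pd 2 q x
    by_cases hx : x ∈ S
    · rw [indicator_of_mem hx, indicator_of_mem hx]
    · rw [indicator_of_notMem hx, indicator_of_notMem hx, zero_mul]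
  · refine (hi1.indicator hm).congr (Filter.Eventually.of_forall fun x => ?_)
    show S.indicator (fun x => p x * q x) x = S.indicator p x * q x
    by_cases hx : x ∈ S
    · rw [indicator_of_mem hx, indicator_of_mem hx]
    · rw [indicator_of_notMem hx, indicator_of_notMem hx, zero_mul]
  · intro x _
    have h1 : HasLineDerivAt ℝ p (pd 2 p x) x (e 2) := (A_dd hp.sm x).hasFDerivAt.hasLineDerivAt (e 2)
    have h2 : ∀ t : ℝ, rad (x + t • e 2) = rad x := by
      intro t
      have a0 : (x + t • e 2 : E3) 0 = x 0 := by simp [e]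
      have a1 : (x + t • e 2 : E3) 1 = x 1 := by simp [e]
      unfold rad
      rw [a0, a1]
    by_cases hx : x ∈ S
    · rw [indicator_of_mem hx]
      have h3 : ∀ t : ℝ, S.indicator p (x + t • e 2) = p (x + t • e 2) := by
        intro t
        refine indicator_of_mem ?_ _
        rw [hS] at hx ⊢
        show r < rad (x + t • e 2)
        rw [h2]
        exact hx
      unfold HasLineDerivAt at h1 ⊢
      simp only [h3]
      exact h1
    · rw [indicator_of_notMem hx]
      have h3 : ∀ t : ℝ, S.indicator p (x + t • e 2) = 0 := by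
        intro t
        refine indicator_of_notMem ?_ _
        rw [hS] at hx ⊢
        show ¬ (r < rad (x + t • e 2))
        rw [h2]
        exact hx
      unfold HasLineDerivAt
      simp only [h3]
      exact hasDerivAt_const _ _
  · intro x _
    exact (A_dd hq.sm x).hasFDerivAt.hasLineDerivAt (e 2)

end Pool.Agent.H87.EP
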