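import Pool.Agent.H87.EP.D

/-
ROW El_E. The elliptic estimates S1, S2. Aux lemmas prefixed E_ .
`A = A1 L a`, `G = pd 2 W`, `D = dh W`, `h = pd 2 O`, everything `Ri`. `gv`-errors: all terms with `dh A` live in `1/4 ≤ rsq ≤ 1/2`, where `|dh A| ≤ C √A √ph` and `ph (W² + G² + D²) ≤ C ph gv`; `∫_{outer} ≤ C GG`.
(e2) `k := rdr D + 4 D = h - pd 2 G` (L4W'). `∫ A D k = ∫ A D rdr D + 4 ∫ A D²`, `∫ A D rdr D = (1/2) ∫ A rdr (D²) = - ∫ A D² - (1/2) ∫ rdr A D²` (divergence 2 of (x₀,x₁), as in (*) of row D). So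
   `3 ∫ A D² - (1/2) ∫ rsq dh A D² = ∫ A D (h - pd 2 G)`, and `dh A ≤ 0`: `3 ∫ A D² ≤ (∫ A D²)^(1/2) [ (∫ A h²)^(1/2) + (∫ A (pd 2 G)²)^(1/2) ]`, so `∫ A D² ≤ ∫ A h² + ∫ A (pd 2 G)²` (e2').
(e1) `L4 W = lap W + 2 D = h`. Multiply by `A pd 2 G` (pd 2 G = W_zz):
   `∫ A pd2 G · lap W = ∫ A gsq G - ∑_i ∫ pd i A pd 2 G pd i W + ∫ pd 2 A ∑_i pd i W pd i G`   [ibp in i, then in 2: `∫ A G_2 W_ii = - ∫ (A G_2)_i W_i`, `- ∫ A G_2i W_i = ∫ (A W_i)_2 G_i = ∫ A G_i² + ∫ A_2 W_i G_i`; `Vort_comm`].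
   `2 ∫ A pd 2 G · D = - 2 ∫ pd 2 A D G - 2 ∫ A dh G G` [ibp in 2, `dh_pd2`], `- 2 ∫ A dh G G = - ∫ (A G · dh G + dh (A G) G) + ∫ dh A G² ≥ ∫ dh A G²` (axis_le with `p = A G`, `q = G`, `p q = A G² ≥ 0`).
   So `∫ A gsq G ≤ ∫ A h G_2 + ∑_i ∫ A_i G_2 W_i - ∫ A_2 ∑_i W_i G_i + 2 ∫ A_2 D G - ∫ dh A G²`.
   Horizontal part of the second: `rsq dh A D G_2 ≤ C √A √ph |D| |G_2|` outer: `≤ (1/16) ∫ A G_2² + C GG`. Vertical parts: `|A_2| ≤ A/L`: `A_2 G_2 G`, `A_2 G G_2` (in the third), `A_2 rsq D dh G` (≤ (A/L) √rsq |D| √rsq |dh G|), `2 A_2 D G`: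
   all `≤ (C/L) (∫ A gsq G + ∫ A D² + ∫ A G²)`; by (e2') and W2_le this is `≤ (C/L)(∫ A gsq G + DO + GG)`, absorbed for `L ≥ L₀`. `- ∫ dh A G² ≤ C GG`. `∫ A h G_2 ≤ (1/4) ∫ A G_2² + DO` (`(pd 2 O)² ≤ gsq O`). QED
-/

set_option autoImplicit false

open Set Filter Topology MeasureTheory
open scoped ContDiff

namespace Pool.Agent.H87.EP

open Pool.Agent.H16 Pool.Agent.H87.NS Pool.Agent.H72.CC Pool.Agent.H16.TU Pool.Agent.H94.EP

/-- Smooth, bounded and square integrable with all derivatives. -/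
structure E_S (f : E3 → ℝ) : Prop where
  sm : ContDiff ℝ ∞ f
  db : ∀ n, ∃ B : ℝ, DB n B f

theorem E_ri {f : E3 → ℝ} (h : Ri f) : E_S f := ⟨h.sm, h.db⟩

theorem E_S.pd {f : E3 → ℝ} (h : E_S f) (i : Fin 3) : E_S (pd i f) := by
  refine ⟨pd_smooth h.sm i, fun n => ?_⟩
  obtain ⟨B, hB⟩ := h.db (n + 1)
  exact ⟨B, hB.2 i⟩

theorem E_S.cont {f : E3 → ℝ} (h : E_S f) : Continuous f := h.sm.continuous

theorem E_S.c1 {f : E3 → ℝ} (h : E_S f) : ContDiff ℝ 1 f := h.sm.of_le (by norm_cast)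

theorem E_S.bl {f : E3 → ℝ} (h : E_S f) : ∃ K : ℝ, BL K f := h.db 0

/-- Integrability by domination. -/
theorem E_dom {F G : E3 → ℝ} (hF : Continuous F) (hG : Integrable G) (h : ∀ x, |F x| ≤ G x) : Integrable F :=
  hG.mono' hF.aestronglyMeasurable (Filter.Eventually.of_forall fun x => by
    rw [Real.norm_eq_abs]; exact h x)

theorem E_int3 {f g h : E3 → ℝ} (hf : E_S f) (hg : E_S g) (hh : E_S h) :
    Integrable (fun x => f x * g x * h x) := by
  obtain ⟨K, hK⟩ := hf.bl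
  obtain ⟨K', hK'⟩ := hg.bl
  obtain ⟨K'', hK''⟩ := hh.bl
  have h1 := mul_BL hg.cont hf.cont hK' hK.1
  exact BL_mul (hf.cont.mul hg.cont) hh.cont h1 hK''

theorem E_ibp3 {f g h : E3 → ℝ} (hf : E_S f) (hg : E_S g) (hh : E_S h) (i : Fin 3) :
    ∫ x, f x * g x * pd i h x = - (∫ x, pd i f x * g x * h x) - ∫ x, f x * pd i g x * h x := by
  obtain ⟨K, hK⟩ := hf.db 1
  obtain ⟨K', hK'⟩ := hg.db 1
  obtain ⟨K'', hK''⟩ := hh.db 1
  obtain ⟨M, hM⟩ := mul_DB K K'
  have h1 := ibp (hf.c1.mul hg.c1) hh.c1 (hM f g hf.c1 hg.c1 hK hK') hK'' i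
  rw [h1]
  have h2 : ∀ x, pd i (fun y => f y * g y) x * h x = pd i f x * g x * h x + f x * pd i g x * h x := by
    intro x
    have h3 : pd i (fun y => f y * g y) x = f x * pd i g x + g x * pd i f x := by
      unfold NS.pd
      rw [fderiv_fun_mul (hf.c1.differentiable one_ne_zero x) (hg.c1.differentiable one_ne_zero x)]
      rfl
    rw [h3]; ring
  have h4 : ∫ x, pd i (fun y => f y * g y) x * h x =
      (∫ x, pd i f x * g x * h x) + ∫ x, f x * pd i g x * h x := by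
    rw [← integral_add (E_int3 (hf.pd i) hg hh) (E_int3 hf (hg.pd i) hh)]
    exact integral_congr_ae (Filter.Eventually.of_forall h2)
  change - (∫ x, pd i (fun y => f y * g y) x * h x) = _
  rw [h4]; ring

/-- Twofold integration by parts. -/
theorem E_id1i {A W : E3 → ℝ} (hA : E_S A) (hW : E_S W) (i : Fin 3) :
    ∫ x, A x * pd 2 (pd 2 W) x * pd i (pd i W) x =
      (∫ x, A x * pd i (pd 2 W) x * pd i (pd 2 W) x) - (∫ x, pd i A x * pd 2 (pd 2 W) x * pd i W x)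
        + ∫ x, pd 2 A x * pd i W x * pd i (pd 2 W) x := by
  have hG : E_S (pd 2 W) := hW.pd 2
  have h1 := E_ibp3 hA (hG.pd 2) (hW.pd i) i
  have h2 := E_ibp3 hA (hW.pd i) (hG.pd i) 2
  have h3 : pd i (pd 2 (pd 2 W)) = pd 2 (pd i (pd 2 W)) := Vort_comm hG.sm i 2
  have h4 : pd 2 (pd i W) = pd i (pd 2 W) := Vort_comm hW.sm 2 i
  rw [h3] at h1
  rw [h4] at h2
  have h5 : ∫ x, A x * pd 2 (pd i (pd 2 W)) x * pd i W x = ∫ x, A x * pd i W x * pd 2 (pd i (pd 2 W)) x := by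
    congr 1; funext x; ring
  rw [h5, h2] at h1
  rw [h1]; ring

theorem E_id1 {A W : E3 → ℝ} (hA : E_S A) (hW : E_S W) :
    ∫ x, A x * pd 2 (pd 2 W) x * lap W x =
      (∫ x, A x * gsq (pd 2 W) x) - (∫ x, (∑ i, pd i A x * pd i W x) * pd 2 (pd 2 W) x)
        + ∫ x, pd 2 A x * ∑ i, pd i W x * pd i (pd 2 W) x := by
  have hG : E_S (pd 2 W) := hW.pd 2
  have e1 : ∫ x, A x * pd 2 (pd 2 W) x * lap W x = ∑ i, ∫ x, A x * pd 2 (pd 2 W) x * pd i (pd i W) x := by
    rw [← integral_finsetSum _ (fun i _ => E_int3 hA (hG.pd 2) ((hW.pd i).pd i))]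
    congr 1; funext x; simp only [lap, Finset.mul_sum]
  have e2 : ∫ x, A x * gsq (pd 2 W) x = ∑ i, ∫ x, A x * pd i (pd 2 W) x * pd i (pd 2 W) x := by
    rw [← integral_finsetSum _ (fun i _ => E_int3 hA (hG.pd i) (hG.pd i))]
    congr 1; funext x; simp only [gsq, Finset.mul_sum]
    exact Finset.sum_congr rfl fun i _ => by ring
  have e3 : ∫ x, (∑ i, pd i A x * pd i W x) * pd 2 (pd 2 W) x =
      ∑ i, ∫ x, pd i A x * pd 2 (pd 2 W) x * pd i W x := by
    rw [← integral_finsetSum _ (fun i _ => E_int3 (hA.pd i) (hG.pd 2) (hW.pd i))]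
    congr 1; funext x; simp only [Finset.sum_mul]
    exact Finset.sum_congr rfl fun i _ => by ring
  have e4 : ∫ x, pd 2 A x * ∑ i, pd i W x * pd i (pd 2 W) x =
      ∑ i, ∫ x, pd 2 A x * pd i W x * pd i (pd 2 W) x := by
    rw [← integral_finsetSum _ (fun i _ => E_int3 (hA.pd 2) (hW.pd i) (hG.pd i))]
    congr 1; funext x; simp only [Finset.mul_sum]
    exact Finset.sum_congr rfl fun i _ => by ring
  rw [e1, e2, e3, e4, ← Finset.sum_sub_distrib, ← Finset.sum_add_distrib]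
  exact Finset.sum_congr rfl fun i _ => E_id1i hA hW i

/-- `∇A · ∇W` for rotation invariant functions. -/
theorem E_gg {A W : E3 → ℝ} (hA : Ri A) (hW : Ri W) (x : E3) :
    ∑ i, pd i A x * pd i W x = rsq x * dh A x * dh W x + pd 2 A x * pd 2 W x := by
  have hpd : ∀ i y, pd i (fun x => A x + W x) y = pd i A y + pd i W y := by
    intro i y
    unfold NS.pd
    rw [fderiv_fun_add ((E_ri hA).c1.differentiable one_ne_zero y) ((E_ri hW).c1.differentiable one_ne_zero y)]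
    rfl
  have hdh : dh (fun x => A x + W x) = fun x => dh A x + dh W x := by
    refine dh_uniq (hA.add hW) ((E_ri hA.dh).cont.add (E_ri hW.dh).cont) fun y _ => ?_
    have h1 := rdr_eq hA y
    have h2 := rdr_eq hW y
    unfold rdr at h1 h2 ⊢
    rw [hpd, hpd]
    linear_combination h1 + h2
  have h1 := gsq_eq (hA.add hW) x
  have h2 := gsq_eq hA x
  have h3 := gsq_eq hW x
  rw [hdh] at h1
  unfold gsq at h1 h2 h3
  simp only [Fin.sum_univ_three, hpd] at h1 h2 h3 ⊢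
  linear_combination h1 / 2 - h2 / 2 - h3 / 2

/-- The main identity. -/
theorem E_main {L : ℝ} (hL : 1 ≤ L) (a : ℝ) {v : E3 → E3} (hv : Vs v) :
    ∫ x, A1 L a x * gsq (pd 2 (sW v)) x ≤ ∫ x, (A1 L a x * pd 2 (pd 2 (sW v)) x * pd 2 (sO v) x
      + rsq x * dh (A1 L a) x * dh (sW v) x * pd 2 (pd 2 (sW v)) x
      - pd 2 (A1 L a) x * (rsq x * dh (sW v) x * dh (pd 2 (sW v)) x)
      + 2 * (pd 2 (A1 L a) x * dh (sW v) x * pd 2 (sW v) x)
      - dh (A1 L a) x * pd 2 (sW v) x * pd 2 (sW v) x) := by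
  obtain ⟨-, hW, hO, -, -⟩ := vs_ri hv
  have hA := A1_ri hL a
  set A := A1 L a with hAdef
  set W := sW v with hWdef
  set O := sO v with hOdef
  have hG : Ri (pd 2 W) := hW.pd2
  set G := pd 2 W with hGdef
  have hD : Ri (dh W) := hW.dh
  set D := dh W with hDdef
  have sA := E_ri hA
  have sW := E_ri hW
  have sG := E_ri hG
  have sD := E_ri hD
  have sO := E_ri hO
  have hdG : dh G = pd 2 D := dh_pd2 hW
  -- (2)
  have h2 := E_ibp3 sA sD sG 2
  -- axis
  have h3 := axis_le (hA.mul hG) hG (fun x => by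
    have : A x * G x * G x = A x * G x ^ 2 := by ring
    show 0 ≤ A x * G x * G x
    rw [this]
    exact mul_nonneg (A1_nn L a x).1 (sq_nonneg _))
  have h4 : ∀ x, dh (fun x => A x * G x) x = A x * dh G x + dh A x * G x := dh_mul hA hG
  have h5 : ∫ x, (A x * G x * dh G x + dh (fun x => A x * G x) x * G x) =
      2 * (∫ x, A x * pd 2 D x * G x) + ∫ x, dh A x * G x * G x := by
    rw [← integral_const_mul, ← integral_add ((E_int3 sA (sD.pd 2) sG).const_mul 2)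
      (E_int3 (E_ri hA.dh) sG sG)]
    congr 1; funext x
    rw [h4, hdG]; ring
  -- (1)
  have h1 := E_id1 sA sW
  rw [← hGdef] at h1
  -- the equation
  have h6 : ∫ x, A x * pd 2 G x * pd 2 O x = (∫ x, A x * pd 2 G x * lap W x) + 2 * ∫ x, A x * D x * pd 2 G x := by
    have hl : Integrable (fun x => A x * pd 2 G x * lap W x) := by
      have : (fun x => A x * pd 2 G x * lap W x) =
          fun x => (A x * pd 2 G x * pd 0 (pd 0 W) x + A x * pd 2 G x * pd 1 (pd 1 W) x)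
            + A x * pd 2 G x * pd 2 (pd 2 W) x := by
        funext x; simp only [lap, Fin.sum_univ_three]; ring
      rw [this]
      exact ((E_int3 sA (sG.pd 2) ((sW.pd 0).pd 0)).add (E_int3 sA (sG.pd 2) ((sW.pd 1).pd 1))).add
        (E_int3 sA (sG.pd 2) ((sW.pd 2).pd 2))
    rw [← integral_const_mul, ← integral_add hl ((E_int3 sA sD (sG.pd 2)).const_mul 2)]
    congr 1; funext x
    rw [← L4W hv x]; ring
  -- pointwise forms
  have i1 : Integrable (fun x => A x * pd 2 G x * pd 2 O x) := E_int3 sA (sG.pd 2) (sO.pd 2)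
  have i2 : Integrable (fun x => (∑ i, pd i A x * pd i W x) * pd 2 G x) := by
    simp only [Finset.sum_mul]
    exact integrable_finsetSum _ fun i _ => E_int3 (sA.pd i) (sW.pd i) (sG.pd 2)
  have i3 : Integrable (fun x => pd 2 A x * ∑ i, pd i W x * pd i G x) := by
    have : (fun x => pd 2 A x * ∑ i, pd i W x * pd i G x) =
        fun x => ∑ i, pd 2 A x * pd i W x * pd i G x := by
      funext x; rw [Finset.mul_sum]; exact Finset.sum_congr rfl fun i _ => by ring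
    rw [this]
    exact integrable_finsetSum _ fun i _ => E_int3 (sA.pd 2) (sW.pd i) (sG.pd i)
  have i4 : Integrable (fun x => pd 2 A x * D x * G x) := E_int3 (sA.pd 2) sD sG
  have i5 : Integrable (fun x => dh A x * G x * G x) := E_int3 (E_ri hA.dh) sG sG
  have h7 : ∫ x, (A x * pd 2 G x * pd 2 O x + rsq x * dh A x * D x * pd 2 G x
      - pd 2 A x * (rsq x * D x * dh G x) + 2 * (pd 2 A x * D x * G x) - dh A x * G x * G x) =
      (∫ x, A x * pd 2 G x * pd 2 O x) + (∫ x, (∑ i, pd i A x * pd i W x) * pd 2 G x)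
      - (∫ x, pd 2 A x * ∑ i, pd i W x * pd i G x) + 2 * (∫ x, pd 2 A x * D x * G x)
      - ∫ x, dh A x * G x * G x := by
    have j1 : Integrable (fun x => A x * pd 2 G x * pd 2 O x + (∑ i, pd i A x * pd i W x) * pd 2 G x) := i1.add i2
    have j2 : Integrable (fun x => A x * pd 2 G x * pd 2 O x + (∑ i, pd i A x * pd i W x) * pd 2 G x
        - pd 2 A x * ∑ i, pd i W x * pd i G x) := j1.sub i3
    have j3 : Integrable (fun x => A x * pd 2 G x * pd 2 O x + (∑ i, pd i A x * pd i W x) * pd 2 G x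
        - pd 2 A x * (∑ i, pd i W x * pd i G x) + 2 * (pd 2 A x * D x * G x)) := j2.add (i4.const_mul 2)
    rw [← integral_const_mul, ← integral_add i1 i2, ← integral_sub j1 i3,
      ← integral_add j2 (i4.const_mul 2), ← integral_sub j3 i5]
    congr 1; funext x
    rw [E_gg hA hW x, E_gg hW hG x]
    ring
  rw [h7]
  linarith [h1, h2, h3, h5, h6]

theorem E_rsq_cont : Continuous rsq := by
  have h : ∀ k : Fin 3, Continuous (fun y : E3 => y k) := fun k => (Cut_coord k).continuous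
  unfold rsq
  exact ((h 0).pow 2).add ((h 1).pow 2)

theorem E_off (L a : ℝ) {x : E3} (h : 1 / 2 < rsq x) (j : Fin 3) : pd j (A1 L a) x = 0 := by
  have h1 : A1 L a =ᶠ[𝓝 x] fun _ => (0 : ℝ) := by
    filter_upwards [(isOpen_lt continuous_const E_rsq_cont).mem_nhds h] with y hy
    exact A1_zero L a (le_of_lt hy)
  unfold NS.pd
  rw [h1.fderiv_eq]
  simp

theorem E_xb (L a : ℝ) (x : E3) {i : Fin 3} (hi : i = 0 ∨ i = 1) :
    |x i * A1 L a x| ≤ |A1 L a x| ∧ ∀ j, |x i * pd j (A1 L a) x| ≤ |pd j (A1 L a) x| := by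
  rcases le_or_gt (rsq x) (1 / 2) with h | h
  · have hx : |x i| ≤ 1 := by
      have h1 : x i ^ 2 ≤ rsq x := by
        unfold rsq
        rcases hi with rfl | rfl
        · nlinarith [sq_nonneg (x 1)]
        · nlinarith [sq_nonneg (x 0)]
      exact abs_le_one_iff_mul_self_le_one.2 (by nlinarith)
    constructor
    · rw [abs_mul]; exact mul_le_of_le_one_left (abs_nonneg _) hx
    · intro j; rw [abs_mul]; exact mul_le_of_le_one_left (abs_nonneg _) hx
  · rw [A1_zero L a h.le]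
    refine ⟨by simp, fun j => ?_⟩
    rw [E_off L a h j]; simp

theorem E_BLdom {f g : E3 → ℝ} (hg : Continuous g) (hf : ∃ K, BL K f) (h : ∀ x, |g x| ≤ |f x|) : ∃ K, BL K g := by
  obtain ⟨K, hK⟩ := hf
  have h1 : ∀ x, g x ^ 2 ≤ f x ^ 2 := fun x => sq_le_sq.2 (h x)
  have h2 : Integrable (fun x => g x ^ 2) :=
    E_dom (hg.pow 2) hK.2.1 fun x => by rw [abs_of_nonneg (sq_nonneg _)]; exact h1 x
  exact ⟨K, fun x => (h x).trans (hK.1 x), h2, (integral_mono h2 hK.2.1 h1).trans hK.2.2⟩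

theorem E_pdx (i j : Fin 3) (x : E3) : pd j (fun y : E3 => y i) x = if i = j then 1 else 0 := by
  unfold NS.pd
  have h : HasFDerivAt (fun y : E3 => y i) (EuclideanSpace.proj (𝕜 := ℝ) i : E3 →L[ℝ] ℝ) x :=
    (EuclideanSpace.proj (𝕜 := ℝ) i : E3 →L[ℝ] ℝ).hasFDerivAt
  rw [h.fderiv]
  simp [e]

theorem E_pdxA {A : E3 → ℝ} (hA : E_S A) (i j : Fin 3) (x : E3) :
    pd j (fun y => y i * A y) x = x i * pd j A x + (if i = j then 1 else 0) * A x := by
  rw [← E_pdx i j x]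
  unfold NS.pd
  rw [fderiv_fun_mul ((Cut_coord i).differentiable (by simp) x) (hA.c1.differentiable one_ne_zero x)]
  simp only [_root_.add_apply, _root_.smul_apply, smul_eq_mul]
  ring

theorem E_xA {L : ℝ} (hL : 1 ≤ L) (a : ℝ) {i : Fin 3} (hi : i = 0 ∨ i = 1) :
    ContDiff ℝ 1 (fun y => y i * A1 L a y) ∧ ∃ K, DB 1 K (fun y => y i * A1 L a y) := by
  have sA := E_ri (A1_ri hL a)
  have hx : ContDiff ℝ 1 (fun y : E3 => y i) := (Cut_coord i).of_le (by norm_cast)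
  have h0 : ContDiff ℝ 1 (fun y => y i * A1 L a y) := hx.mul sA.c1
  refine ⟨h0, ?_⟩
  obtain ⟨K0, hK0⟩ := E_BLdom h0.continuous sA.bl (fun x => (E_xb L a x hi).1)
  have h1 : ∀ j : Fin 3, ∃ K, BL K (pd j (fun y => y i * A1 L a y)) := by
    intro j
    obtain ⟨K1, hK1⟩ := E_BLdom (hx.continuous.mul (sA.pd j).cont) (sA.pd j).bl (fun x => (E_xb L a x hi).2 j)
    obtain ⟨K2, hK2⟩ := sA.bl
    have h2 : pd j (fun y => y i * A1 L a y) =
        fun x => x i * pd j (A1 L a) x + (if i = j then 1 else 0) * A1 L a x := by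
      funext x; exact E_pdxA sA i j x
    rw [h2]
    exact ⟨_, add_BL (hx.continuous.mul (sA.pd j).cont) (continuous_const.mul sA.cont) hK1
      (smul_BL hK2 (if i = j then 1 else 0))⟩
  choose K hK using h1
  refine ⟨|K0| + (|K 0| + |K 1| + |K 2|), BL_mono hK0 ?_, fun j => BL_mono (hK j) ?_⟩
  · have := le_abs_self K0
    have := abs_nonneg (K 0)
    have := abs_nonneg (K 1)
    have := abs_nonneg (K 2)
    linarith
  · have h3 : |K j| ≤ |K 0| + |K 1| + |K 2| := by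
      have := abs_nonneg (K 0)
      have := abs_nonneg (K 1)
      have := abs_nonneg (K 2)
      fin_cases j <;> simp <;> linarith
    have := le_abs_self (K j)
    have := abs_nonneg K0
    linarith

theorem E_divi {L : ℝ} (hL : 1 ≤ L) (a : ℝ) {D : E3 → ℝ} (hD : E_S D) {i : Fin 3} (hi : i = 0 ∨ i = 1) :
    2 * ∫ x, A1 L a x * D x * (x i * pd i D x) =
      - (∫ x, A1 L a x * D x * D x) - ∫ x, x i * pd i (A1 L a) x * D x * D x := by
  have sA := E_ri (A1_ri hL a)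
  have hx : Continuous (fun y : E3 => y i) := (Cut_coord i).continuous
  obtain ⟨hc, K, hK⟩ := E_xA hL a hi
  obtain ⟨K1, hK1⟩ := hD.db 1
  obtain ⟨M, hM⟩ := mul_DB K1 K1
  have h1 := ibp hc (hD.c1.mul hD.c1) hK (hM D D hD.c1 hD.c1 hK1 hK1) i
  have h2 : ∀ x, pd i (fun y => D y * D y) x = 2 * (D x * pd i D x) := by
    intro x
    unfold NS.pd
    rw [fderiv_fun_mul (hD.c1.differentiable one_ne_zero x) (hD.c1.differentiable one_ne_zero x)]
    simp only [_root_.add_apply, _root_.smul_apply, smul_eq_mul]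
    ring
  have i2 : Integrable (fun x => x i * pd i (A1 L a) x * D x * D x) := by
    refine E_dom (((hx.mul (sA.pd i).cont).mul hD.cont).mul hD.cont) (E_int3 (sA.pd i) hD hD).abs fun x => ?_
    have h3 := (E_xb L a x hi).2 i
    rw [abs_mul, abs_mul, abs_mul (pd i (A1 L a) x * D x), abs_mul (pd i (A1 L a) x)]
    gcongr
  have h4 : ∫ x, x i * A1 L a x * pd i (fun y => D y * D y) x = 2 * ∫ x, A1 L a x * D x * (x i * pd i D x) := by
    rw [← integral_const_mul]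
    congr 1; funext x; rw [h2]; ring
  have h5 : ∫ x, pd i (fun y => y i * A1 L a y) x * (D x * D x) =
      (∫ x, A1 L a x * D x * D x) + ∫ x, x i * pd i (A1 L a) x * D x * D x := by
    rw [← integral_add (E_int3 sA hD hD) i2]
    congr 1; funext x
    rw [E_pdxA sA i i x]
    simp; ring
  change ∫ x, x i * A1 L a x * pd i (fun y => D y * D y) x =
    - ∫ x, pd i (fun y => y i * A1 L a y) x * (D x * D x) at h1
  rw [h4, h5] at h1
  rw [h1]; ring

/-- The divergence theorem for `(x₀, x₁)`. -/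
theorem E_div {L : ℝ} (hL : 1 ≤ L) (a : ℝ) {D : E3 → ℝ} (hD : E_S D) :
    Integrable (fun x => A1 L a x * D x * rdr D x) ∧ Integrable (fun x => rsq x * dh (A1 L a) x * D x * D x) ∧
    2 * ∫ x, A1 L a x * D x * rdr D x =
      - 2 * (∫ x, A1 L a x * D x * D x) - ∫ x, rsq x * dh (A1 L a) x * D x * D x := by
  have hA := A1_ri hL a
  have sA := E_ri hA
  have hx : ∀ i : Fin 3, Continuous (fun y : E3 => y i) := fun i => (Cut_coord i).continuous
  have j1 : ∀ i : Fin 3, i = 0 ∨ i = 1 → Integrable (fun x => A1 L a x * D x * (x i * pd i D x)) := by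
    intro i hi
    refine E_dom ((sA.cont.mul hD.cont).mul ((hx i).mul (hD.pd i).cont)) (E_int3 sA hD (hD.pd i)).abs fun x => ?_
    have h3 := (E_xb L a x hi).1
    have h4 : A1 L a x * D x * (x i * pd i D x) = (x i * A1 L a x) * D x * pd i D x := by ring
    rw [h4, abs_mul, abs_mul, abs_mul (A1 L a x * D x), abs_mul (A1 L a x)]
    gcongr
  have j2 : ∀ i : Fin 3, i = 0 ∨ i = 1 → Integrable (fun x => x i * pd i (A1 L a) x * D x * D x) := by
    intro i hi
    refine E_dom ((((hx i).mul (sA.pd i).cont).mul hD.cont).mul hD.cont) (E_int3 (sA.pd i) hD hD).abs fun x => ?_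
    have h3 := (E_xb L a x hi).2 i
    rw [abs_mul, abs_mul, abs_mul (pd i (A1 L a) x * D x), abs_mul (pd i (A1 L a) x)]
    gcongr
  have e1 : (fun x => A1 L a x * D x * rdr D x) =
      fun x => A1 L a x * D x * (x 0 * pd 0 D x) + A1 L a x * D x * (x 1 * pd 1 D x) := by
    funext x; unfold rdr; ring
  have e2 : (fun x => rsq x * dh (A1 L a) x * D x * D x) =
      fun x => x 0 * pd 0 (A1 L a) x * D x * D x + x 1 * pd 1 (A1 L a) x * D x * D x := by
    funext x; rw [← rdr_eq hA x]; unfold rdr; ring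
  rw [e1, e2]
  refine ⟨(j1 0 (Or.inl rfl)).add (j1 1 (Or.inr rfl)), (j2 0 (Or.inl rfl)).add (j2 1 (Or.inr rfl)), ?_⟩
  rw [integral_add (j1 0 (Or.inl rfl)) (j1 1 (Or.inr rfl)), integral_add (j2 0 (Or.inl rfl)) (j2 1 (Or.inr rfl))]
  have h0 := E_divi hL a hD (i := 0) (Or.inl rfl)
  have h1 := E_divi hL a hD (i := 1) (Or.inr rfl)
  linarith

theorem E_sq {f g : E3 → ℝ} (hf : E_S f) (hg : E_S g) : Integrable (fun x => f x * g x ^ 2) := by
  have h := E_int3 hf hg hg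
  have : (fun x => f x * g x ^ 2) = fun x => f x * g x * g x := by funext x; ring
  rw [this]; exact h

theorem e2 {L : ℝ} (hL : 1 ≤ L) (a : ℝ) {v : E3 → E3} (hv : Vs v) :
    ∫ x, A1 L a x * dh (sW v) x ^ 2 ≤ (∫ x, A1 L a x * pd 2 (sO v) x ^ 2) + ∫ x, A1 L a x * pd 2 (pd 2 (sW v)) x ^ 2 := by
  obtain ⟨-, hW, hO, -, -⟩ := vs_ri hv
  have hA := A1_ri hL a
  have sA := E_ri hA
  have sD := E_ri hW.dh
  have sh := (E_ri hO).pd 2
  have sG2 := ((E_ri hW).pd 2).pd 2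
  obtain ⟨C, hC1, hC⟩ := A1_dh
  obtain ⟨i1, i2, h1⟩ := E_div hL a sD
  have i3 := E_sq sA sD
  have i4 := E_sq sA sh
  have i5 := E_sq sA sG2
  have e3 : ∫ x, A1 L a x * dh (sW v) x * dh (sW v) x = ∫ x, A1 L a x * dh (sW v) x ^ 2 := by
    congr 1; funext x; ring
  rw [e3] at h1
  have h2 : ∫ x, rsq x * dh (A1 L a) x * dh (sW v) x * dh (sW v) x ≤ 0 := by
    refine integral_nonpos fun x => ?_
    have h3 := (hC L a hL x).1
    have h4 : 0 ≤ rsq x := by unfold rsq; positivity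
    have h5 : rsq x * dh (A1 L a) x * dh (sW v) x * dh (sW v) x =
      -(rsq x * (-dh (A1 L a) x) * dh (sW v) x ^ 2) := by ring
    show rsq x * dh (A1 L a) x * dh (sW v) x * dh (sW v) x ≤ 0
    rw [h5, neg_nonpos]
    exact mul_nonneg (mul_nonneg h4 (by linarith)) (sq_nonneg _)
  -- pointwise: `A D rdr D + 4 A D² ≤ A D² + (A h² + A G₂²)/2`
  have h6 : ∫ x, (A1 L a x * dh (sW v) x * rdr (dh (sW v)) x + 3 * (A1 L a x * dh (sW v) x ^ 2)) ≤
      ∫ x, (1 / 2 * (A1 L a x * pd 2 (sO v) x ^ 2) + 1 / 2 * (A1 L a x * pd 2 (pd 2 (sW v)) x ^ 2)) := by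
    refine integral_mono (i1.add (i3.const_mul 3)) ((i4.const_mul _).add (i5.const_mul _)) fun x => ?_
    have h7 := L4W' hv x
    have h8 := (A1_nn L a x).1
    have h9 : rdr (dh (sW v)) x = pd 2 (sO v) x - pd 2 (pd 2 (sW v)) x - 4 * dh (sW v) x := by linarith
    show A1 L a x * dh (sW v) x * rdr (dh (sW v)) x + 3 * (A1 L a x * dh (sW v) x ^ 2) ≤
      1 / 2 * (A1 L a x * pd 2 (sO v) x ^ 2) + 1 / 2 * (A1 L a x * pd 2 (pd 2 (sW v)) x ^ 2)
    rw [h9]
    have h10 : 0 ≤ A1 L a x * ((2 * dh (sW v) x - (pd 2 (sO v) x - pd 2 (pd 2 (sW v)) x)) ^ 2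
        + (pd 2 (sO v) x + pd 2 (pd 2 (sW v)) x) ^ 2) := by positivity
    linarith only [h10]
  rw [integral_add i1 (i3.const_mul 3), integral_add (i4.const_mul _) (i5.const_mul _),
    integral_const_mul, integral_const_mul, integral_const_mul] at h6
  have h11 : 0 ≤ ∫ x, A1 L a x * pd 2 (sO v) x ^ 2 :=
    integral_nonneg fun x => mul_nonneg (A1_nn L a x).1 (sq_nonneg _)
  have h12 : 0 ≤ ∫ x, A1 L a x * pd 2 (pd 2 (sW v)) x ^ 2 :=
    integral_nonneg fun x => mul_nonneg (A1_nn L a x).1 (sq_nonneg _)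
  linarith

theorem E_r2 {A p C r dA D G2 g q : ℝ} (hA : 0 ≤ A) (hp : 0 ≤ p) (hC : 0 ≤ C) (hd : |dA| ≤ C * (√A * √p))
    (hD : (r * D) ^ 2 ≤ 10 * q) (hG : G2 ^ 2 ≤ g) :
    r * dA * D * G2 ≤ 1 / 16 * (A * g) + 40 * C ^ 2 * (p * q) := by
  have h1 : r * dA * D * G2 ≤ |dA| * (|r * D| * |G2|) := by
    calc r * dA * D * G2 ≤ |r * dA * D * G2| := le_abs_self _
      _ = |dA| * (|r * D| * |G2|) := by
        rw [abs_mul, abs_mul, abs_mul, abs_mul]; ring
  have h2 : |dA| * (|r * D| * |G2|) ≤ C * (√A * √p) * (|r * D| * |G2|) :=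
    mul_le_mul_of_nonneg_right hd (by positivity)
  have h3 : C * (√A * √p) * (|r * D| * |G2|) = (√A * |G2|) * (C * √p * |r * D|) := by ring
  have h4 : (√A * |G2|) * (C * √p * |r * D|) ≤ 1 / 16 * (√A * |G2|) ^ 2 + 4 * (C * √p * |r * D|) ^ 2 := by
    linarith only [sq_nonneg (√A * |G2| - 8 * (C * √p * |r * D|))]
  have h5 : (√A * |G2|) ^ 2 = A * G2 ^ 2 := by rw [mul_pow, Real.sq_sqrt hA, sq_abs]
  have h6 : (C * √p * |r * D|) ^ 2 = C ^ 2 * p * (r * D) ^ 2 := by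
    rw [mul_pow, mul_pow, Real.sq_sqrt hp, sq_abs]
  have h7 : A * G2 ^ 2 ≤ A * g := mul_le_mul_of_nonneg_left hG hA
  have h8 : C ^ 2 * p * (r * D) ^ 2 ≤ C ^ 2 * p * (10 * q) := mul_le_mul_of_nonneg_left hD (by positivity)
  rw [h5, h6] at h4
  linarith only [h1, h2, h3, h4, h7, h8]

theorem E_rabs {a b c : ℝ} (h : |a| ≤ b) : a * c ≤ b * |c| := by
  calc a * c ≤ |a * c| := le_abs_self _
    _ = |a| * |c| := abs_mul _ _
    _ ≤ b * |c| := mul_le_mul_of_nonneg_right h (abs_nonneg _)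

theorem E_pt {C : ℝ} (hC1 : 1 ≤ C) (hC : ∀ (L a : ℝ), 1 ≤ L → ∀ x, dh (A1 L a) x ≤ 0 ∧
      |dh (A1 L a) x| ≤ C * (√(A1 L a x) * √(ph L a (x 2))) ∧
      (rsq x < 1 / 4 → dh (A1 L a) x = 0) ∧ (1 / 2 < rsq x → dh (A1 L a) x = 0))
    {L : ℝ} (hL : 1 ≤ L) (a : ℝ) {v : E3 → E3} (hv : Vs v) (x : E3) :
    A1 L a x * pd 2 (pd 2 (sW v)) x * pd 2 (sO v) x
      + rsq x * dh (A1 L a) x * dh (sW v) x * pd 2 (pd 2 (sW v)) x
      - pd 2 (A1 L a) x * (rsq x * dh (sW v) x * dh (pd 2 (sW v)) x)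
      + 2 * (pd 2 (A1 L a) x * dh (sW v) x * pd 2 (sW v) x)
      - dh (A1 L a) x * pd 2 (sW v) x * pd 2 (sW v) x ≤
    A1 L a x * gsq (sO v) x + 5 / 16 * (A1 L a x * gsq (pd 2 (sW v)) x)
      + 1 / L * (2 * (A1 L a x * dh (sW v) x ^ 2) + A1 L a x * gsq (pd 2 (sW v)) x
        + A1 L a x * pd 2 (sW v) x ^ 2)
      + {x : E3 | rsq x < 1 / 2}.indicator (fun x => 44 * C ^ 2 * (ph L a (x 2) * gv v x)) x := by
  obtain ⟨-, hW, hO, -, -⟩ := vs_ri hv
  obtain ⟨d1, d2, d3, -⟩ := hC L a hL x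
  have hA0 := (A1_nn L a x).1
  have hAp := (A1_nn L a x).2
  have hA2 := A1_pd2 hL a x
  have hz := @A1_zero L a x
  have hp := (ph_pos L a (x 2)).le
  have hg := gsq_eq hW.pd2 x
  have hh : pd 2 (sO v) x ^ 2 ≤ gsq (sO v) x := by
    unfold gsq
    exact Finset.single_le_sum (f := fun i => pd i (sO v) x ^ 2) (fun _ _ => sq_nonneg _) (Finset.mem_univ 2)
  have hw2 := gv_W2 hv x
  have hdw := gv_dW hv x
  have hgn := gv_nn v x
  have hr : 0 ≤ rsq x := by unfold rsq; positivity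
  have hL0 : 0 < L := by linarith
  have hLi : 0 ≤ 1 / L := by positivity
  generalize A1 L a x = A at *
  generalize pd 2 (A1 L a) x = A2 at *
  generalize dh (A1 L a) x = dA at *
  generalize dh (sW v) x = D at *
  generalize dh (pd 2 (sW v)) x = dG at *
  generalize pd 2 (pd 2 (sW v)) x = G2 at *
  generalize pd 2 (sW v) x = G at *
  generalize pd 2 (sO v) x = h at *
  generalize hgG : gsq (pd 2 (sW v)) x = gG at *
  generalize gsq (sO v) x = gO at *
  rcases lt_or_ge (rsq x) (1 / 2) with h2 | h2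
  · rw [indicator_of_mem (show x ∈ {x : E3 | rsq x < 1 / 2} from h2)]
    generalize ph L a (x 2) = p at *
    generalize gv v x = q at *
    generalize rsq x = r at *
    have hG2 : G2 ^ 2 ≤ gG := by rw [hg]; linarith only [mul_nonneg hr (sq_nonneg dG)]
    have hdG : r * dG ^ 2 ≤ gG := by rw [hg]; linarith only [sq_nonneg G2]
    have t1 : A * G2 * h ≤ A * gO + 1 / 4 * (A * gG) := by
      have : G2 * h ≤ gO + 1 / 4 * gG := by linarith only [sq_nonneg (h - G2 / 2), hh, hG2]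
      linarith only [mul_le_mul_of_nonneg_left this hA0]
    have t3 : - (A2 * (r * D * dG)) ≤ 1 / L * (A * D ^ 2 + A * gG) := by
      have s1 : (-A2) * (r * D * dG) ≤ A / L * |r * D * dG| := E_rabs (by rw [abs_neg]; exact hA2)
      have s2 : |r * D * dG| ≤ D ^ 2 + gG := by
        rw [abs_le]
        constructor
        · linarith only [mul_nonneg hr (sq_nonneg (D + dG)), mul_nonneg hr (sq_nonneg D), sq_nonneg D,
            mul_le_mul_of_nonneg_right h2.le (sq_nonneg D), mul_nonneg hr (sq_nonneg dG), hdG]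
        · linarith only [mul_nonneg hr (sq_nonneg (D - dG)), mul_nonneg hr (sq_nonneg D), sq_nonneg D,
            mul_le_mul_of_nonneg_right h2.le (sq_nonneg D), mul_nonneg hr (sq_nonneg dG), hdG]
      have s3 : A / L * |r * D * dG| ≤ A / L * (D ^ 2 + gG) := mul_le_mul_of_nonneg_left s2 (by positivity)
      have s4 : A / L * (D ^ 2 + gG) = 1 / L * (A * D ^ 2 + A * gG) := by ring
      linarith
    have t4 : 2 * (A2 * D * G) ≤ 1 / L * (A * D ^ 2 + A * G ^ 2) := by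
      have s1 : A2 * (2 * (D * G)) ≤ A / L * |2 * (D * G)| := E_rabs hA2
      have s2 : |2 * (D * G)| ≤ D ^ 2 + G ^ 2 := by
        rw [abs_le]
        constructor <;> linarith only [sq_nonneg (D + G), sq_nonneg (D - G), sq_nonneg D, sq_nonneg G]
      have s3 : A / L * |2 * (D * G)| ≤ A / L * (D ^ 2 + G ^ 2) := mul_le_mul_of_nonneg_left s2 (by positivity)
      have s4 : A / L * (D ^ 2 + G ^ 2) = 1 / L * (A * D ^ 2 + A * G ^ 2) := by ring
      linarith
    have t2 : r * dA * D * G2 - dA * G * G ≤ 1 / 16 * (A * gG) + 44 * C ^ 2 * (p * q) := by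
      have hpq : 0 ≤ p * q := mul_nonneg hp hgn
      have hgG0 : 0 ≤ gG := (sq_nonneg _).trans hG2
      rcases lt_or_ge r (1 / 4) with h4 | h4
      · rw [d3 h4]
        have : 0 ≤ 1 / 16 * (A * gG) + 44 * C ^ 2 * (p * q) := by positivity
        linarith
      · have s1 := E_r2 hA0 hp (by linarith : (0:ℝ) ≤ C) d2 hdw hG2
        have s2 : √A * √p ≤ p := by
          have : √A ≤ √p := Real.sqrt_le_sqrt hAp
          calc √A * √p ≤ √p * √p := mul_le_mul_of_nonneg_right this (Real.sqrt_nonneg _)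
            _ = p := Real.mul_self_sqrt hp
        have s3 : |dA| ≤ C * p := d2.trans (mul_le_mul_of_nonneg_left s2 (by linarith))
        have s4 : (-dA) * G ^ 2 ≤ C * p * G ^ 2 :=
          mul_le_mul_of_nonneg_right ((neg_le_abs dA).trans s3) (sq_nonneg _)
        have s5 : G ^ 2 ≤ 4 * q := by linarith only [mul_le_mul_of_nonneg_right h4 (sq_nonneg G), hw2]
        have s6 : C * p * G ^ 2 ≤ C * p * (4 * q) := mul_le_mul_of_nonneg_left s5 (by positivity)
        have s7 : C * (p * q) ≤ C ^ 2 * (p * q) := mul_le_mul_of_nonneg_right (by nlinarith only [hC1]) hpq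
        have e8 : dA * G * G = -((-dA) * G ^ 2) := by ring
        have e9 : C * p * (4 * q) = 4 * (C * (p * q)) := by ring
        rw [e8]
        linarith
    have t5 : 1 / L * (2 * (A * D ^ 2) + A * gG + A * G ^ 2) =
      1 / L * (A * D ^ 2 + A * gG) + 1 / L * (A * D ^ 2 + A * G ^ 2) := by ring
    show _ ≤ A * gO + 5 / 16 * (A * gG) + 1 / L * (2 * (A * D ^ 2) + A * gG + A * G ^ 2) + 44 * C ^ 2 * (p * q)
    rw [t5]
    linarith only [t1, t3, t4, t2]
  · rw [indicator_of_notMem (show x ∉ {x : E3 | rsq x < 1 / 2} from not_lt.2 h2)]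
    have hA00 := hz h2
    subst hA00
    have s1 : A2 = 0 := by
      have : |A2| ≤ 0 := by simpa using hA2
      exact abs_eq_zero.1 (le_antisymm this (abs_nonneg _))
    have s2 : dA = 0 := by
      have : |dA| ≤ 0 := by simpa using d2
      exact abs_eq_zero.1 (le_antisymm this (abs_nonneg _))
    rw [s1, s2]
    simp

theorem E_gsqI {A f : E3 → ℝ} (hA : E_S A) (hf : E_S f) : Integrable (fun x => A x * gsq f x) := by
  have : (fun x => A x * gsq f x) = fun x => ∑ i, A x * pd i f x * pd i f x := by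
    funext x; simp only [gsq, Finset.mul_sum]
    exact Finset.sum_congr rfl fun i _ => by ring
  rw [this]
  exact integrable_finsetSum _ fun i _ => E_int3 hA (hf.pd i) (hf.pd i)

theorem E_pdsq {A f : E3 → ℝ} (hA : E_S A) (hA0 : ∀ x, 0 ≤ A x) (hf : E_S f) (i : Fin 3) :
    ∫ x, A x * pd i f x ^ 2 ≤ ∫ x, A x * gsq f x := by
  refine integral_mono (E_sq hA (hf.pd i)) (E_gsqI hA hf) fun x => ?_
  refine mul_le_mul_of_nonneg_left ?_ (hA0 x)
  unfold gsq
  exact Finset.single_le_sum (f := fun i => pd i f x ^ 2) (fun _ _ => sq_nonneg _) (Finset.mem_univ i)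

theorem E_nn {L : ℝ} (a : ℝ) (v : E3 → E3) : 0 ≤ DO L a v ∧ 0 ≤ GG L a v := by
  constructor
  · exact integral_nonneg fun x => mul_nonneg (A1_nn L a x).1 (gsq_nonneg _ _)
  · exact integral_nonneg fun x => mul_nonneg (ph_pos L a (x 2)).le (gv_nn v x)

/-- S1. -/
theorem S1 : ∃ C : ℝ, 1 ≤ C ∧ ∀ (L a : ℝ) (v : E3 → E3), C ≤ L → Vs v →
    ∫ x, A1 L a x * gsq (pd 2 (sW v)) x ≤ C * (DO L a v + GG L a v) := by
  obtain ⟨C, hC1, hC⟩ := A1_dh
  obtain ⟨C', hC1', hC'⟩ := W2_le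
  refine ⟨100 * (C ^ 2 + C' + 1), by linarith only [hC1', sq_nonneg C], fun L a v hCL hv => ?_⟩
  have hL : 1 ≤ L := by linarith only [hCL, hC1', sq_nonneg C]
  have hL0 : 0 < L := by linarith
  obtain ⟨-, hW, hO, -, -⟩ := vs_ri hv
  have hA := A1_ri hL a
  have sA := E_ri hA
  have sO' := E_ri hO
  have sG := (E_ri hW).pd 2
  have sD := E_ri hW.dh
  have hAn : ∀ x, 0 ≤ A1 L a x := fun x => (A1_nn L a x).1
  have k1 := E_gsqI sA sO'
  have k2 := E_gsqI sA sG
  have k3 := E_sq sA sD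
  have k4 := E_sq sA sG
  have hms : MeasurableSet {x : E3 | rsq x < 1 / 2} := (isOpen_lt E_rsq_cont continuous_const).measurableSet
  have k5 : Integrable ({x : E3 | rsq x < 1 / 2}.indicator (fun x => 44 * C ^ 2 * (ph L a (x 2) * gv v x))) :=
    ((gv_int hv hL a).const_mul _).indicator hms
  have k6 : ∫ x, {x : E3 | rsq x < 1 / 2}.indicator (fun x => 44 * C ^ 2 * (ph L a (x 2) * gv v x)) x =
      44 * C ^ 2 * GG L a v := by
    rw [integral_indicator hms, integral_const_mul]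
    rfl
  have m3 : Integrable (fun x => 2 * (A1 L a x * dh (sW v) x ^ 2) + A1 L a x * gsq (pd 2 (sW v)) x) :=
    (k3.const_mul 2).add k2
  have m4 : Integrable (fun x => 2 * (A1 L a x * dh (sW v) x ^ 2) + A1 L a x * gsq (pd 2 (sW v)) x
      + A1 L a x * pd 2 (sW v) x ^ 2) := m3.add k4
  have m1 : Integrable (fun x => A1 L a x * gsq (sO v) x + 5 / 16 * (A1 L a x * gsq (pd 2 (sW v)) x)) :=
    k1.add (k2.const_mul _)
  have m2 : Integrable (fun x => A1 L a x * gsq (sO v) x + 5 / 16 * (A1 L a x * gsq (pd 2 (sW v)) x)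
      + 1 / L * (2 * (A1 L a x * dh (sW v) x ^ 2) + A1 L a x * gsq (pd 2 (sW v)) x
        + A1 L a x * pd 2 (sW v) x ^ 2)) := m1.add (m4.const_mul _)
  have hmain := E_main hL a hv
  set X := ∫ x, A1 L a x * gsq (pd 2 (sW v)) x with hX
  set Y := ∫ x, A1 L a x * dh (sW v) x ^ 2 with hY
  set Z := ∫ x, A1 L a x * pd 2 (sW v) x ^ 2 with hZ
  have hX0 : 0 ≤ X := integral_nonneg fun x => mul_nonneg (hAn x) (gsq_nonneg _ _)
  obtain ⟨hDO, hGG⟩ := E_nn (L := L) a v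
  have hint : ∫ x, (A1 L a x * gsq (sO v) x + 5 / 16 * (A1 L a x * gsq (pd 2 (sW v)) x)
      + 1 / L * (2 * (A1 L a x * dh (sW v) x ^ 2) + A1 L a x * gsq (pd 2 (sW v)) x
        + A1 L a x * pd 2 (sW v) x ^ 2)
      + {x : E3 | rsq x < 1 / 2}.indicator (fun x => 44 * C ^ 2 * (ph L a (x 2) * gv v x)) x) =
      DO L a v + 5 / 16 * X + 1 / L * (2 * Y + X + Z) + 44 * C ^ 2 * GG L a v := by
    rw [integral_add m2 k5, integral_add m1 (m4.const_mul _), integral_add k1 (k2.const_mul _),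
      integral_const_mul, integral_const_mul, integral_add m3 k4, integral_add (k3.const_mul 2) k2,
      integral_const_mul, k6]
    rfl
  have h1 : X ≤ DO L a v + 5 / 16 * X + 1 / L * (2 * Y + X + Z) + 44 * C ^ 2 * GG L a v := by
    rw [← hint]
    refine hmain.trans ?_
    by_cases hF : Integrable (fun x => A1 L a x * pd 2 (pd 2 (sW v)) x * pd 2 (sO v) x
      + rsq x * dh (A1 L a) x * dh (sW v) x * pd 2 (pd 2 (sW v)) x
      - pd 2 (A1 L a) x * (rsq x * dh (sW v) x * dh (pd 2 (sW v)) x)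
      + 2 * (pd 2 (A1 L a) x * dh (sW v) x * pd 2 (sW v) x)
      - dh (A1 L a) x * pd 2 (sW v) x * pd 2 (sW v) x)
    · exact integral_mono hF (m2.add k5) fun x => E_pt hC1 hC hL a hv x
    · rw [integral_undef hF]
      refine integral_nonneg fun x => ?_
      have n1 := hAn x
      have n2 := gsq_nonneg (sO v) x
      have n3 := gsq_nonneg (pd 2 (sW v)) x
      have n4 : 0 ≤ {x : E3 | rsq x < 1 / 2}.indicator (fun x => 44 * C ^ 2 * (ph L a (x 2) * gv v x)) x := by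
        refine indicator_nonneg (fun y _ => ?_) x
        have := (ph_pos L a (y 2)).le
        have := gv_nn v y
        positivity
      show 0 ≤ A1 L a x * gsq (sO v) x + 5 / 16 * (A1 L a x * gsq (pd 2 (sW v)) x)
        + 1 / L * (2 * (A1 L a x * dh (sW v) x ^ 2) + A1 L a x * gsq (pd 2 (sW v)) x
          + A1 L a x * pd 2 (sW v) x ^ 2)
        + {x : E3 | rsq x < 1 / 2}.indicator (fun x => 44 * C ^ 2 * (ph L a (x 2) * gv v x)) x
      positivity
  have h2 : Y ≤ DO L a v + X := by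
    refine (e2 hL a hv).trans (add_le_add ?_ ?_)
    · exact E_pdsq sA hAn sO' 2
    · exact E_pdsq sA hAn sG 2
  have h3 : Z ≤ C' * (X + GG L a v) := hC' L a v hL hv
  have e0 : 0 < 1 / L := by positivity
  have e1 : 1 / L ≤ 1 := by rw [div_le_one hL0]; exact hL
  have e2 : 1 / L * (3 + C') ≤ 1 / 16 := by
    rw [one_div, inv_mul_le_iff₀ hL0]
    linarith only [hCL, hC1', sq_nonneg C]
  have h4 : 1 / L * (2 * Y + X + Z) ≤ 1 / L * (2 * DO L a v + ((3 + C') * X + C' * GG L a v)) := by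
    refine mul_le_mul_of_nonneg_left ?_ e0.le
    linarith only [h2, h3]
  have h5 : 1 / L * (2 * DO L a v) ≤ 2 * DO L a v := mul_le_of_le_one_left (by linarith) e1
  have h6 : 1 / L * (C' * GG L a v) ≤ C' * GG L a v := mul_le_of_le_one_left (by positivity) e1
  have h7 : 1 / L * (3 + C') * X ≤ 1 / 16 * X := mul_le_mul_of_nonneg_right e2 hX0
  have h8 : X ≤ 5 * DO L a v + (100 * C ^ 2 + 2 * C') * GG L a v := by
    linarith only [h1, h4, h5, h6, h7, mul_nonneg (sq_nonneg C) hGG, mul_nonneg (zero_le_one.trans hC1') hGG, hDO]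
  have h9 : 5 * DO L a v ≤ 100 * (C ^ 2 + C' + 1) * DO L a v := mul_le_mul_of_nonneg_right (by linarith only [hC1', sq_nonneg C]) hDO
  have h10 : (100 * C ^ 2 + 2 * C') * GG L a v ≤ 100 * (C ^ 2 + C' + 1) * GG L a v :=
    mul_le_mul_of_nonneg_right (by linarith only [hC1']) hGG
  linarith

/-- S2. -/
theorem S2 : ∃ C : ℝ, 1 ≤ C ∧ ∀ (L a : ℝ) (v : E3 → E3), C ≤ L → Vs v →
    ∫ x, A1 L a x * dh (sW v) x ^ 2 ≤ C * (DO L a v + GG L a v) := by
  obtain ⟨C, hC1, hC⟩ := S1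
  refine ⟨C + 1, by linarith, fun L a v hCL hv => ?_⟩
  have hL : 1 ≤ L := by linarith
  obtain ⟨-, hW, hO, -, -⟩ := vs_ri hv
  have sA := E_ri (A1_ri hL a)
  have hAn : ∀ x, 0 ≤ A1 L a x := fun x => (A1_nn L a x).1
  have h1 := hC L a v (by linarith) hv
  have h2 := e2 hL a hv
  have h3 := E_pdsq sA hAn (E_ri hO) 2
  have h4 := E_pdsq sA hAn ((E_ri hW).pd 2) 2
  obtain ⟨hDO, hGG⟩ := E_nn (L := L) a v
  have h5 : (∫ x, A1 L a x * gsq (sO v) x) = DO L a v := rfl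
  linarith only [h1, h2, h3, h4, h5, hDO, hGG]

/-- S2 in the form of helper88. -/
theorem S2' : ∃ C : ℝ, 1 ≤ C ∧ ∀ (L a : ℝ) (v : E3 → E3), C ≤ L → Vs v →
    ∫ x, A1 L a x * (rdr (sW v) x / rsq x) ^ 2 ≤ C * (DO L a v + GG L a v) := by
  obtain ⟨C, hC1, hC⟩ := S2
  refine ⟨C, hC1, fun L a v hCL hv => (integral_mono_of_nonneg ?_ ?_ ?_).trans (hC L a v hCL hv)⟩
  · exact Filter.Eventually.of_forall fun x => mul_nonneg (A1_nn L a x).1 (sq_nonneg _)
  · have hL : 1 ≤ L := by linarith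
    exact E_sq (E_ri (A1_ri hL a)) (E_ri (vs_ri hv).2.1.dh)
  · refine Filter.Eventually.of_forall fun x => mul_le_mul_of_nonneg_left ?_ (A1_nn L a x).1
    rw [rdr_eq (vs_ri hv).2.1 x]
    rcases eq_or_ne (rsq x) 0 with h | h
    · rw [h]; simp; positivity
    · rw [mul_div_cancel_left₀ _ h]

theorem S2G : ∃ C : ℝ, 1 ≤ C ∧ ∀ (L a : ℝ) (v : E3 → E3), C ≤ L → Vs v →
    ∫ x, A1 L a x * pd 2 (sW v) x ^ 2 ≤ C * (DO L a v + GG L a v) := by
  obtain ⟨C, hC1, hC⟩ := S1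
  obtain ⟨C', hC1', hC'⟩ := W2_le
  refine ⟨C' * (C + 1) + C, by nlinarith only [hC1, hC1'], fun L a v hCL hv => ?_⟩
  have hCL' : C ≤ L := by nlinarith only [hC1, hC1', hCL]
  have h1 := hC L a v hCL' hv
  have h2 := hC' L a v (by linarith) hv
  obtain ⟨hDO, hGG⟩ := E_nn (L := L) a v
  have h3 : C' * ((∫ x, A1 L a x * gsq (pd 2 (sW v)) x) + GG L a v) ≤
      C' * (C * (DO L a v + GG L a v) + GG L a v) := mul_le_mul_of_nonneg_left (by linarith) (by linarith)
  have h4 : 0 ≤ C' * DO L a v := mul_nonneg (by linarith) hDO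
  have h5 : 0 ≤ C * (DO L a v + GG L a v) := by positivity
  linarith only [h2, h3, h4, h5]

end Pool.Agent.H87.EP
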