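import Pool.Agent.H87.EP.E
import Pool.Agent.H87.EP.I

/-
Bounds on lines parallel to the axis. Auxiliary lemmas are prefixed `F_`.
-/

set_option autoImplicit false

open Set Filter Topology MeasureTheory
open scoped ContDiff

namespace Pool.Agent.H87.EP

open Pool.Agent.H16 Pool.Agent.H87.NS Pool.Agent.H72.CC Pool.Agent.H16.TU Pool.Agent.H94.EP

theorem F_bl {f : E3 → ℝ} (h : Ri f) : Integrable (fun x => f x ^ 2) := by
  obtain ⟨B, hB⟩ := h.db 0
  exact hB.2.1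

theorem F_int {p q : E3 → ℝ} (hp : Ri p) (hq : Ri q) : Integrable (fun x => p x * q x) := by
  refine ((F_bl hp).add (F_bl hq)).mono' (hp.sm.continuous.mul hq.sm.continuous).aestronglyMeasurable ?_
  refine Filter.Eventually.of_forall fun x => ?_
  rw [Real.norm_eq_abs, abs_le]
  simp only [Pi.add_apply]
  constructor <;> linarith only [sq_nonneg (p x + q x), sq_nonneg (p x - q x)]

theorem F_rsq (r s : ℝ) : rsq (lp r s) = r ^ 2 := by
  simp [rsq, lp]

theorem F_lp2 (r s : ℝ) : (lp r s) 2 = s := by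
  simp [lp]

theorem F_core {L : ℝ} (hL : 1 ≤ L) (a : ℝ) {g : E3 → ℝ} (hg : Ri g) {r : ℝ} (hr : 0 < r)
    (hr2 : r ^ 2 ≤ 1 / 4) :
    Integrable (fun s => ph L a s * g (lp r s) ^ 2) ∧
    ∫ s, ph L a s * g (lp r s) ^ 2 ≤
      2 * |∫ x in {x | r < rad x}, A1 L a x * g x * dh g x| + ∫ x, |dh (A1 L a) x| * g x ^ 2 := by
  have hA : Ri (A1 L a) := A1_ri hL a
  have hAg : Ri (fun x => A1 L a x * g x) := hA.mul hg
  have heq : (fun s => (A1 L a (lp r s) * g (lp r s)) * g (lp r s)) =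
      fun s => ph L a s * g (lp r s) ^ 2 := by
    funext s
    rw [A1_one L a (by rw [F_rsq]; exact hr2), F_lp2]
    ring
  have hint := line_int hAg hg hr
  have hline := line_eq hAg hg hr
  rw [heq] at hint
  rw [heq] at hline
  refine ⟨hint, ?_⟩
  have hfun : (fun x => A1 L a x * g x * dh g x + dh (fun x => A1 L a x * g x) x * g x) =
      fun x => 2 * (A1 L a x * g x * dh g x) + dh (A1 L a) x * g x * g x := by
    funext x
    rw [dh_mul hA hg]
    ring
  have i1 : Integrable (fun x => A1 L a x * g x * dh g x) := F_int hAg hg.dh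
  have i2 : Integrable (fun x => dh (A1 L a) x * g x * g x) := F_int (hA.dh.mul hg) hg
  have hfun2 : (∫ x in {x | r < rad x}, (A1 L a x * g x * dh g x +
      dh (fun x => A1 L a x * g x) x * g x)) =
      2 * (∫ x in {x | r < rad x}, A1 L a x * g x * dh g x) +
        ∫ x in {x | r < rad x}, dh (A1 L a) x * g x * g x := by
    rw [hfun, integral_add (i1.const_mul 2).integrableOn i2.integrableOn, integral_const_mul]
  rw [hfun2] at hline
  rw [hline]
  obtain ⟨X, hX⟩ : ∃ X : ℝ, X = ∫ x in {x | r < rad x}, A1 L a x * g x * dh g x := ⟨_, rfl⟩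
  obtain ⟨Y, hY⟩ : ∃ Y : ℝ, Y = ∫ x in {x | r < rad x}, dh (A1 L a) x * g x * g x := ⟨_, rfl⟩
  rw [← hX, ← hY]
  have hYle : |Y| ≤ ∫ x, |dh (A1 L a) x| * g x ^ 2 := by
    rw [hY]
    have h1 : |∫ x in {x | r < rad x}, dh (A1 L a) x * g x * g x| ≤
        ∫ x in {x | r < rad x}, |dh (A1 L a) x * g x * g x| := by
      rw [← Real.norm_eq_abs]
      exact norm_integral_le_integral_norm _
    have h2 : ∀ x, |dh (A1 L a) x * g x * g x| = |dh (A1 L a) x| * g x ^ 2 := by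
      intro x
      rw [mul_assoc, abs_mul, ← pow_two, abs_of_nonneg (sq_nonneg (g x))]
    refine h1.trans ?_
    have h3 : ∫ x in {x | r < rad x}, |dh (A1 L a) x * g x * g x| ≤
        ∫ x, |dh (A1 L a) x * g x * g x| :=
      setIntegral_le_integral i2.abs (Filter.Eventually.of_forall fun x => abs_nonneg _)
    simpa only [h2] using h3
  have hpi : (2 * Real.pi)⁻¹ ≤ 1 := by
    apply inv_le_one_of_one_le₀
    have := Real.pi_gt_three
    linarith
  have hpi0 : 0 < (2 * Real.pi)⁻¹ := by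
    have := Real.pi_pos
    positivity
  have h5 : -(2 * Real.pi)⁻¹ * (2 * X + Y) ≤ |2 * X + Y| := by
    have h6 := neg_abs_le (2 * X + Y)
    have h7 := abs_nonneg (2 * X + Y)
    nlinarith only [hpi, hpi0, h6, h7]
  have h8 : |2 * X + Y| ≤ 2 * |X| + |Y| := by
    refine (abs_add_le _ _).trans ?_
    rw [abs_mul, abs_of_pos (by norm_num : (0:ℝ) < 2)]
  linarith

/-- The bound of the inner term. -/
theorem F_in {L : ℝ} (hL : 1 ≤ L) (a : ℝ) {g : E3 → ℝ} (hg : Ri g) (r : ℝ) :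
    2 * |∫ x in {x | r < rad x}, A1 L a x * g x * dh g x| ≤
      (∫ x, A1 L a x * g x ^ 2) + ∫ x, A1 L a x * dh g x ^ 2 := by
  have hA : Ri (A1 L a) := A1_ri hL a
  have hAg : Ri (fun x => A1 L a x * g x) := hA.mul hg
  have i1 : Integrable (fun x => A1 L a x * g x * dh g x) := F_int hAg hg.dh
  have i2 : Integrable (fun x => A1 L a x * g x ^ 2) := by
    have := F_int hAg hg
    simpa only [mul_assoc, pow_two] using this
  have i3 : Integrable (fun x => A1 L a x * dh g x ^ 2) := by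
    have := F_int (hA.mul hg.dh) hg.dh
    simpa only [mul_assoc, pow_two] using this
  have h1 : |∫ x in {x | r < rad x}, A1 L a x * g x * dh g x| ≤
      ∫ x in {x | r < rad x}, |A1 L a x * g x * dh g x| := by
    rw [← Real.norm_eq_abs]
    exact norm_integral_le_integral_norm _
  have h3 : ∫ x in {x | r < rad x}, |A1 L a x * g x * dh g x| ≤
      ∫ x, |A1 L a x * g x * dh g x| :=
    setIntegral_le_integral i1.abs (Filter.Eventually.of_forall fun x => abs_nonneg _)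
  have h4 : 2 * ∫ x, |A1 L a x * g x * dh g x| ≤
      (∫ x, A1 L a x * g x ^ 2) + ∫ x, A1 L a x * dh g x ^ 2 := by
    rw [← integral_add i2 i3, ← integral_const_mul]
    refine integral_mono (i1.abs.const_mul 2) (i2.add i3) fun x => ?_
    rw [mul_assoc, abs_mul, abs_of_nonneg (A1_nn L a x).1, abs_mul]
    have h5 := (A1_nn L a x).1
    have h6 := sq_nonneg (|g x| - |dh g x|)
    have h7 := sq_abs (g x)
    have h8 := sq_abs (dh g x)
    nlinarith
  linarith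

/-- The bound of the outer term. -/
theorem F_out : ∃ C : ℝ, 1 ≤ C ∧ ∀ (L a : ℝ) (v : E3 → E3), 1 ≤ L → Vs v → ∀ (g : E3 → ℝ) (c : ℝ),
    0 ≤ c → Continuous g → (∀ x, 1 / 4 ≤ rsq x → g x ^ 2 ≤ c * gv v x) →
    ∫ x, |dh (A1 L a) x| * g x ^ 2 ≤ C * c * GG L a v := by
  obtain ⟨C, hC, h⟩ := A1_dh
  refine ⟨C, hC, fun L a v hL hv g c hc hg hb => ?_⟩
  have hA : Ri (A1 L a) := A1_ri hL a
  have hF : Continuous (fun x => |dh (A1 L a) x| * g x ^ 2) :=
    hA.dh.sm.continuous.abs.mul (hg.pow 2)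
  have hcc : 0 ≤ C * c := mul_nonneg (by linarith) hc
  have h1 := gg_outer hv hL a hcc hF
    (fun x hx => by
      rw [(h L a hL x).2.2.1 hx, abs_zero, zero_mul])
    (fun x hx => by
      rw [(h L a hL x).2.2.2 hx, abs_zero, zero_mul])
    (fun x => by
      have hgv := gv_nn v x
      have hph := ph_pos L a (x 2)
      rw [abs_of_nonneg (mul_nonneg (abs_nonneg _) (sq_nonneg _))]
      by_cases hx : rsq x < 1 / 4
      · rw [(h L a hL x).2.2.1 hx, abs_zero, zero_mul]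
        exact mul_nonneg hcc (mul_nonneg hph.le hgv)
      · push Not at hx
        have h2 := hb x hx
        have h3 : |dh (A1 L a) x| ≤ C * ph L a (x 2) := by
          refine ((h L a hL x).2.1).trans ?_
          apply mul_le_mul_of_nonneg_left _ (by linarith)
          have h4 : √(A1 L a x) ≤ √(ph L a (x 2)) := Real.sqrt_le_sqrt (A1_nn L a x).2
          calc √(A1 L a x) * √(ph L a (x 2)) ≤ √(ph L a (x 2)) * √(ph L a (x 2)) :=
                mul_le_mul_of_nonneg_right h4 (Real.sqrt_nonneg _)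
            _ = ph L a (x 2) := Real.mul_self_sqrt hph.le
        calc |dh (A1 L a) x| * g x ^ 2 ≤ (C * ph L a (x 2)) * (c * gv v x) :=
              mul_le_mul h3 h2 (sq_nonneg _) (mul_nonneg (by linarith) hph.le)
          _ = C * c * (ph L a (x 2) * gv v x) := by ring)
  exact (le_abs_self _).trans h1.2

theorem F_DO (L a : ℝ) (v : E3 → E3) : 0 ≤ DO L a v := by
  unfold DO
  refine integral_nonneg fun x => mul_nonneg (A1_nn L a x).1 ?_
  unfold gsq
  exact Finset.sum_nonneg fun i _ => sq_nonneg _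

theorem F_GG (L a : ℝ) (v : E3 → E3) : 0 ≤ GG L a v := by
  unfold GG
  exact integral_nonneg fun x => mul_nonneg (ph_pos L a (x 2)).le (gv_nn v x)

theorem F_pd2_gsq (f : E3 → ℝ) (x : E3) : pd 2 f x ^ 2 ≤ gsq f x := by
  unfold gsq
  exact Finset.single_le_sum (f := fun i : Fin 3 => pd i f x ^ 2) (fun i _ => sq_nonneg _)
    (Finset.mem_univ 2)


theorem F_diff {f : E3 → ℝ} (h : Ri f) (x : E3) : DifferentiableAt ℝ f x :=
  (h.sm.differentiable (by simp)) x

theorem F_pd_mul {f g : E3 → ℝ} (hf : Ri f) (hg : Ri g) (i : Fin 3) (x : E3) :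
    pd i (fun x => f x * g x) x = pd i f x * g x + f x * pd i g x := by
  unfold pd
  rw [fderiv_fun_mul (F_diff hf x) (F_diff hg x)]
  simp only [ContinuousLinearMap.add_apply, ContinuousLinearMap.smul_apply, smul_eq_mul]
  ring

theorem F_pd_lin {f g : E3 → ℝ} (hf : Ri f) (hg : Ri g) (a b : ℝ) (i : Fin 3) (x : E3) :
    pd i (fun x => a * f x + b * g x) x = a * pd i f x + b * pd i g x := by
  unfold pd
  rw [fderiv_fun_add ((F_diff hf x).const_mul a) ((F_diff hg x).const_mul b),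
    fderiv_const_mul (F_diff hf x), fderiv_const_mul (F_diff hg x)]
  simp only [ContinuousLinearMap.add_apply, ContinuousLinearMap.smul_apply, smul_eq_mul]

theorem F_dh_lin {f g : E3 → ℝ} (hf : Ri f) (hg : Ri g) (a b : ℝ) :
    dh (fun x => a * f x + b * g x) = fun x => a * dh f x + b * dh g x := by
  refine dh_uniq ((hf.smul a).add (hg.smul b))
    ((continuous_const.mul hf.dh.sm.continuous).add (continuous_const.mul hg.dh.sm.continuous)) ?_
  intro x _
  have h1 := rdr_eq hf x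
  have h2 := rdr_eq hg x
  unfold rdr at h1 h2 ⊢
  rw [F_pd_lin hf hg, F_pd_lin hf hg]
  linear_combination a * h1 + b * h2

theorem F_Asq {L : ℝ} (hL : 1 ≤ L) (a : ℝ) {g : E3 → ℝ} (hg : Ri g) :
    Integrable (fun x => A1 L a x * g x ^ 2) := by
  have := F_int ((A1_ri hL a).mul hg) hg
  simpa only [mul_assoc, pow_two] using this

theorem F_gsq {L : ℝ} (hL : 1 ≤ L) (a : ℝ) {f : E3 → ℝ} (hf : Ri f) :
    Integrable (fun x => A1 L a x * gsq f x) := by
  have h1 : Integrable (fun x => gsq f x) := by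
    obtain ⟨B, hB⟩ := hf.db 1
    unfold gsq
    exact integrable_finsetSum _ fun i _ => (hB.2 i).2.1
  refine h1.mono' ((A1_ri hL a).sm.continuous.aestronglyMeasurable.mul h1.aestronglyMeasurable) ?_
  refine Filter.Eventually.of_forall fun x => ?_
  have h2 : 0 ≤ gsq f x := by
    unfold gsq
    exact Finset.sum_nonneg fun i _ => sq_nonneg _
  have h3 := (A1_nn L a x).1
  have h4 := (A1_nn L a x).2.trans (ph_le L a (x 2))
  rw [Real.norm_eq_abs, abs_of_nonneg (mul_nonneg h3 h2)]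
  nlinarith

theorem F_int_pd2_sq {L : ℝ} (hL : 1 ≤ L) (a : ℝ) {f : E3 → ℝ} (hf : Ri f) :
    ∫ x, A1 L a x * pd 2 f x ^ 2 ≤ ∫ x, A1 L a x * gsq f x :=
  integral_mono (F_Asq hL a hf.pd2) (F_gsq hL a hf) fun x =>
    mul_le_mul_of_nonneg_left (F_pd2_gsq f x) (A1_nn L a x).1

theorem F_sum3 {f g h : E3 → ℝ} (hf : Integrable f) (hg : Integrable g) (hh : Integrable h) :
    Integrable (fun x => f x + g x + h x) ∧
    (∫ x, f x) + (∫ x, g x) + (∫ x, h x) = ∫ x, (f x + g x + h x) := by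
  have hfg : Integrable (fun x => f x + g x) := hf.add hg
  refine ⟨hfg.add hh, ?_⟩
  rw [integral_add hfg hh, integral_add hf hg]

/-- Weights supported in `rsq < 1/2`. -/
theorem F_set {L a c : ℝ} {w g F : E3 → ℝ} (hc : 0 ≤ c) (hw0 : ∀ x, 0 ≤ w x)
    (hw1 : ∀ x, w x ≤ c * ph L a (x 2)) (hw2 : ∀ x, 1 / 2 ≤ rsq x → w x = 0)
    (hi : Integrable (fun x => w x * g x ^ 2))
    (hF : IntegrableOn (fun x => ph L a (x 2) * F x) {x : E3 | rsq x < 1 / 2})
    (hgF : ∀ x, g x ^ 2 ≤ F x) :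
    ∫ x, w x * g x ^ 2 ≤ c * ∫ x in {x : E3 | rsq x < 1 / 2}, ph L a (x 2) * F x := by
  have h1 : ∫ x in {x : E3 | rsq x < 1 / 2}, w x * g x ^ 2 = ∫ x, w x * g x ^ 2 := by
    apply setIntegral_eq_integral_of_forall_compl_eq_zero
    intro x hx
    rw [hw2 x (not_lt.1 hx), zero_mul]
  rw [← h1, ← integral_const_mul]
  refine integral_mono hi.integrableOn (hF.const_mul c) fun x => ?_
  have h2 := hw0 x
  have h3 := hw1 x
  have h4 := hgF x
  have h5 := ph_pos L a (x 2)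
  calc w x * g x ^ 2 ≤ (c * ph L a (x 2)) * F x :=
        mul_le_mul h3 h4 (sq_nonneg _) (mul_nonneg hc h5.le)
    _ = c * (ph L a (x 2) * F x) := by ring

theorem F_W2 {L : ℝ} (hL : 1 ≤ L) (a : ℝ) {v : E3 → E3} (hv : Vs v) :
    ∫ x, A1 L a x * sW v x ^ 2 ≤ GG L a v := by
  have hW := (vs_ri hv).2.1
  have h := F_set (L := L) (a := a) (c := 1) (w := A1 L a) (g := sW v) (F := gv v) zero_le_one
    (fun x => (A1_nn L a x).1) (fun x => by rw [one_mul]; exact (A1_nn L a x).2)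
    (fun x hx => A1_zero L a hx) (F_Asq hL a hW) (gv_int hv hL a).integrableOn
    (fun x => by have := gv_VW hv x; nlinarith [sq_nonneg (sV v x)])
  rw [one_mul] at h
  exact h

/-- S3. -/
theorem S3 : ∃ C : ℝ, 1 ≤ C ∧ ∀ (L a : ℝ) (v : E3 → E3), C ≤ L → Vs v → ∀ r, 0 < r → r ^ 2 ≤ 1 / 4 →
    Integrable (fun s => ph L a s * pd 2 (sW v) (lp r s) ^ 2) ∧
    ∫ s, ph L a s * pd 2 (sW v) (lp r s) ^ 2 ≤ C * (DO L a v + GG L a v) := by
  obtain ⟨C0, hC0, h0⟩ := F_out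
  obtain ⟨C1, hC1, h1⟩ := S1
  obtain ⟨C2, hC2, h2⟩ := S2
  obtain ⟨C3, hC3, h3⟩ := S2G
  refine ⟨4 * C0 + C1 + 2 * C2 + C3, by linarith, ?_⟩
  intro L a v hL hv r hr hr2
  have hL1 : 1 ≤ L := by linarith
  have hW := (vs_ri hv).2.1
  have hG : Ri (pd 2 (sW v)) := hW.pd2
  have hD : Ri (dh (sW v)) := hW.dh
  have hA : Ri (A1 L a) := A1_ri hL1 a
  obtain ⟨hint, hle⟩ := F_core hL1 a hG hr hr2
  refine ⟨hint, hle.trans ?_⟩
  have hAG : Ri (fun x => A1 L a x * pd 2 (sW v) x) := hA.mul hG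
  have e1 : (∫ x in {x | r < rad x}, A1 L a x * pd 2 (sW v) x * dh (pd 2 (sW v)) x) =
      - ∫ x in {x | r < rad x}, pd 2 (fun x => A1 L a x * pd 2 (sW v) x) x * dh (sW v) x := by
    rw [dh_pd2 hW]
    exact ibp2 hAG hD r
  have i1 : Integrable (fun x => pd 2 (fun x => A1 L a x * pd 2 (sW v) x) x * dh (sW v) x) :=
    F_int hAG.pd2 hD
  have jG := F_Asq hL1 a hG
  have jD := F_Asq hL1 a hD
  have jG2 := F_Asq hL1 a hG.pd2
  have e2 : 2 * |∫ x in {x | r < rad x}, A1 L a x * pd 2 (sW v) x * dh (pd 2 (sW v)) x| ≤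
      ((∫ x, A1 L a x * pd 2 (sW v) x ^ 2) + 2 * ∫ x, A1 L a x * dh (sW v) x ^ 2) +
        ∫ x, A1 L a x * pd 2 (pd 2 (sW v)) x ^ 2 := by
    rw [e1, abs_neg]
    have a1 : |∫ x in {x | r < rad x}, pd 2 (fun x => A1 L a x * pd 2 (sW v) x) x * dh (sW v) x| ≤
        ∫ x in {x | r < rad x}, |pd 2 (fun x => A1 L a x * pd 2 (sW v) x) x * dh (sW v) x| := by
      rw [← Real.norm_eq_abs]
      exact norm_integral_le_integral_norm _
    have a2 : ∫ x in {x | r < rad x}, |pd 2 (fun x => A1 L a x * pd 2 (sW v) x) x * dh (sW v) x| ≤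
        ∫ x, |pd 2 (fun x => A1 L a x * pd 2 (sW v) x) x * dh (sW v) x| :=
      setIntegral_le_integral i1.abs (Filter.Eventually.of_forall fun x => abs_nonneg _)
    have a3 : 2 * ∫ x, |pd 2 (fun x => A1 L a x * pd 2 (sW v) x) x * dh (sW v) x| ≤
        ((∫ x, A1 L a x * pd 2 (sW v) x ^ 2) + 2 * ∫ x, A1 L a x * dh (sW v) x ^ 2) +
          ∫ x, A1 L a x * pd 2 (pd 2 (sW v)) x ^ 2 := by
      obtain ⟨k1, k2⟩ := F_sum3 jG (jD.const_mul 2) jG2
      rw [← integral_const_mul, ← integral_const_mul, k2]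
      refine integral_mono (i1.abs.const_mul 2) k1 fun x => ?_
      simp only
      rw [F_pd_mul hA hG 2 x]
      obtain ⟨A, hAd⟩ : ∃ A : ℝ, A = A1 L a x := ⟨_, rfl⟩
      obtain ⟨A', hA'd⟩ : ∃ A' : ℝ, A' = pd 2 (A1 L a) x := ⟨_, rfl⟩
      obtain ⟨g, hgd⟩ : ∃ g : ℝ, g = pd 2 (sW v) x := ⟨_, rfl⟩
      obtain ⟨g', hg'd⟩ : ∃ g' : ℝ, g' = pd 2 (pd 2 (sW v)) x := ⟨_, rfl⟩
      obtain ⟨D, hDd⟩ : ∃ D : ℝ, D = dh (sW v) x := ⟨_, rfl⟩
      rw [← hAd, ← hA'd, ← hgd, ← hg'd, ← hDd]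
      have b1 : 0 ≤ A := by rw [hAd]; exact (A1_nn L a x).1
      have b2 : |A'| ≤ A := by
        have := A1_pd2 hL1 a x
        rw [← hAd, ← hA'd] at this
        exact this.trans (div_le_self b1 hL1)
      have b3 : |(A' * g + A * g') * D| ≤ A * (|g| * |D|) + A * (|g'| * |D|) := by
        rw [add_mul]
        refine (abs_add_le _ _).trans ?_
        rw [abs_mul, abs_mul, abs_mul, abs_mul, abs_of_nonneg b1]
        have c1 : |A'| * (|g| * |D|) ≤ A * (|g| * |D|) :=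
          mul_le_mul_of_nonneg_right b2 (mul_nonneg (abs_nonneg _) (abs_nonneg _))
        linarith only [c1]
      have b4 : 2 * (|g| * |D|) ≤ g ^ 2 + D ^ 2 := by
        linarith only [sq_nonneg (|g| - |D|), sq_abs g, sq_abs D]
      have b5 : 2 * (|g'| * |D|) ≤ g' ^ 2 + D ^ 2 := by
        linarith only [sq_nonneg (|g'| - |D|), sq_abs g', sq_abs D]
      have b6 := mul_le_mul_of_nonneg_left b4 b1
      have b7 := mul_le_mul_of_nonneg_left b5 b1
      linarith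
    linarith
  have q0 := h0 L a v hL1 hv (pd 2 (sW v)) 4 (by norm_num) hG.sm.continuous (fun x hx => by
    have := gv_W2 hv x
    nlinarith only [sq_nonneg (pd 2 (sW v) x), hx, this])
  have q1 := (F_int_pd2_sq hL1 a hG).trans (h1 L a v (by linarith only [hC0, hC2, hC3, hL]) hv)
  have q2 := h2 L a v (by linarith) hv
  have q3 := h3 L a v (by linarith) hv
  have p1 := F_DO L a v
  have p2 := F_GG L a v
  have q0' : C0 * 4 * GG L a v ≤ 4 * C0 * (DO L a v + GG L a v) := by nlinarith only [hC0, p1]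
  linarith only [e2, q0, q1, q2, q3, q0']

/-- S4. -/
theorem S4 : ∃ C : ℝ, 1 ≤ C ∧ ∀ (L a : ℝ) (v : E3 → E3), C ≤ L → Vs v → ∀ r, 0 < r → r ^ 2 ≤ 1 / 4 →
    Integrable (fun s => ph L a s * sW v (lp r s) ^ 2) ∧
    ∫ s, ph L a s * sW v (lp r s) ^ 2 ≤ C * (DO L a v + GG L a v) := by
  obtain ⟨C0, hC0, h0⟩ := F_out
  obtain ⟨C2, hC2, h2⟩ := S2
  refine ⟨C0 + C2 + 1, by linarith, ?_⟩
  intro L a v hL hv r hr hr2
  have hL1 : 1 ≤ L := by linarith
  have hW := (vs_ri hv).2.1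
  obtain ⟨hint, hle⟩ := F_core hL1 a hW hr hr2
  refine ⟨hint, hle.trans ?_⟩
  have q := F_in hL1 a hW r
  have q0 := h0 L a v hL1 hv (sW v) 1 zero_le_one hW.sm.continuous (fun x _ => by
    have := gv_VW hv x
    linarith only [sq_nonneg (sV v x), this])
  have q1 := F_W2 hL1 a hv
  have q2 := h2 L a v (by linarith) hv
  have p1 := F_DO L a v
  have p2 := F_GG L a v
  nlinarith only [hC0, q, q0, q1, q2, p1]

theorem F_R {v : E3 → E3} (hv : Vs v) :
    Ri (fun x => rsq x * dh (sW v) x) ∧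
    dh (fun x => rsq x * dh (sW v) x) =
      fun x => pd 2 (sO v) x - pd 2 (pd 2 (sW v)) x - 2 * dh (sW v) x := by
  obtain ⟨_, hW, hO, _, h2⟩ := vs_ri hv
  have e : (fun x => rsq x * dh (sW v) x) =
      fun x => (-1) * pd 2 (fun y => v y 2) x + (-2) * sW v x := by
    funext x
    have := v2_pd2 hv x
    linarith
  have hv2 : dh (fun y => v y 2) = fun x => 1 * pd 2 (sW v) x + (-1) * sO v x := by
    funext x
    rw [dh_v2 hv x]
    ring
  constructor
  · rw [e]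
    exact (h2.pd2.smul (-1)).add (hW.smul (-2))
  · rw [e, F_dh_lin h2.pd2 hW, dh_pd2 h2, hv2]
    funext x
    rw [F_pd_lin hW.pd2 hO]
    ring

/-- S8. -/
theorem S8 : ∃ C : ℝ, 1 ≤ C ∧ ∀ (L a : ℝ) (v : E3 → E3), C ≤ L → Vs v → ∀ r, 0 < r → r ^ 2 ≤ 1 / 4 →
    Integrable (fun s => ph L a s * (r ^ 2 * dh (sW v) (lp r s)) ^ 2) ∧
    ∫ s, ph L a s * (r ^ 2 * dh (sW v) (lp r s)) ^ 2 ≤ C * (DO L a v + GG L a v) := by
  obtain ⟨C0, hC0, h0⟩ := F_out
  obtain ⟨C1, hC1, h1⟩ := S1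
  obtain ⟨C2, hC2, h2⟩ := S2
  refine ⟨10 * C0 + 3 * C1 + 13 * C2 + 3, by linarith, ?_⟩
  intro L a v hL hv r hr hr2
  have hL1 : 1 ≤ L := by linarith
  obtain ⟨_, hW, hO, _, _⟩ := vs_ri hv
  obtain ⟨hR, hdR⟩ := F_R hv
  obtain ⟨hint, hle⟩ := F_core hL1 a hR hr hr2
  simp only [F_rsq] at hint hle
  refine ⟨hint, hle.trans ?_⟩
  have q := F_in hL1 a hR r
  simp only [hdR] at q ⊢
  have q0 := h0 L a v hL1 hv (fun x => rsq x * dh (sW v) x) 10 (by norm_num) hR.sm.continuous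
    (fun x _ => gv_dW hv x)
  have hD : Ri (dh (sW v)) := hW.dh
  have jD := F_Asq hL1 a hD
  have jR := F_Asq hL1 a hR
  have q1 : ∫ x, A1 L a x * (rsq x * dh (sW v) x) ^ 2 ≤ ∫ x, A1 L a x * dh (sW v) x ^ 2 := by
    refine integral_mono jR jD fun x => ?_
    by_cases hx : 1 / 2 ≤ rsq x
    · simp only [A1_zero L a hx, zero_mul, le_refl]
    · push Not at hx
      have b0 : 0 ≤ rsq x := by unfold rsq; positivity
      have b1 := (A1_nn L a x).1
      apply mul_le_mul_of_nonneg_left _ b1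
      rw [mul_pow]
      have b2 : rsq x ^ 2 ≤ 1 := by nlinarith only [hx, b0]
      nlinarith only [sq_nonneg (dh (sW v) x), b2]
  have hG := hW.pd2
  have jO2 := F_Asq hL1 a hO.pd2
  have jG2 := F_Asq hL1 a hG.pd2
  have jR2 : Integrable (fun x => A1 L a x *
      (pd 2 (sO v) x - pd 2 (pd 2 (sW v)) x - 2 * dh (sW v) x) ^ 2) := by
    have := F_Asq hL1 a hR.dh
    simpa only [hdR] using this
  have q2 : ∫ x, A1 L a x * (pd 2 (sO v) x - pd 2 (pd 2 (sW v)) x - 2 * dh (sW v) x) ^ 2 ≤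
      (3 * (∫ x, A1 L a x * pd 2 (sO v) x ^ 2) + 3 * ∫ x, A1 L a x * pd 2 (pd 2 (sW v)) x ^ 2) +
        12 * ∫ x, A1 L a x * dh (sW v) x ^ 2 := by
    obtain ⟨k1, k2⟩ := F_sum3 (jO2.const_mul 3) (jG2.const_mul 3) (jD.const_mul 12)
    rw [← integral_const_mul, ← integral_const_mul, ← integral_const_mul, k2]
    refine integral_mono jR2 k1 fun x => ?_
    simp only
    have b1 := (A1_nn L a x).1
    have b2 : (pd 2 (sO v) x - pd 2 (pd 2 (sW v)) x - 2 * dh (sW v) x) ^ 2 ≤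
        3 * pd 2 (sO v) x ^ 2 + 3 * pd 2 (pd 2 (sW v)) x ^ 2 + 12 * dh (sW v) x ^ 2 := by
      linarith only [sq_nonneg (pd 2 (sO v) x + pd 2 (pd 2 (sW v)) x),
        sq_nonneg (pd 2 (sO v) x + 2 * dh (sW v) x),
        sq_nonneg (pd 2 (pd 2 (sW v)) x - 2 * dh (sW v) x)]
    have := mul_le_mul_of_nonneg_left b2 b1
    linarith
  have q3 := F_int_pd2_sq hL1 a hO
  have q4 := (F_int_pd2_sq hL1 a hG).trans (h1 L a v (by linarith) hv)
  have q5 := h2 L a v (by linarith) hv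
  have q6 : ∫ x, A1 L a x * gsq (sO v) x = DO L a v := rfl
  have p1 := F_DO L a v
  have p2 := F_GG L a v
  rw [q6] at q3
  nlinarith only [hC0, q, q0, q1, q2, q3, q4, q5, p1, p2]

theorem F_vint {v : E3 → E3} (hv : Vs v) : Continuous v ∧ Integrable (fun x => ‖v x‖ ^ 2) := by
  refine ⟨hv.ax.smooth.continuous, ?_⟩
  obtain ⟨B, hB⟩ := hv.db 0
  have h1 : (fun x => ‖v x‖ ^ 2) = fun x => ∑ j : Fin 3, (v x j) ^ 2 := by
    funext x
    rw [EuclideanSpace.norm_sq_eq]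
    exact Finset.sum_congr rfl fun j _ => by rw [Real.norm_eq_abs, sq_abs]
  rw [h1]
  exact integrable_finsetSum _ fun j _ => (hB j).2.1

/-- S9. -/
theorem S9 : ∃ C : ℝ, 1 ≤ C ∧ ∀ (L K a : ℝ) (v : E3 → E3), C ≤ L → 1 ≤ K → Vs v →
    (∀ z, ∫ x in Metric.ball (axp z) 1, ‖v x‖ ^ 2 ≤ K) → ∀ r, 0 < r → r ^ 2 ≤ 1 / 4 →
    Integrable (fun s => ph L a s * v (lp r s) 2 ^ 2) ∧
    ∫ s, ph L a s * v (lp r s) 2 ^ 2 ≤ C * (L * K + DO L a v + GG L a v) := by
  obtain ⟨C0, hC0, h0⟩ := A1_dh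
  obtain ⟨C1, hC1, h1⟩ := en_ph
  obtain ⟨C3, hC3, h3⟩ := S2G
  obtain ⟨C4, hC4, h4⟩ := NO_le
  refine ⟨C0 * C1 + C1 + 2 * C3 + 2 * C4, by nlinarith, ?_⟩
  intro L K a v hL hK hv hen r hr hr2
  have hL1 : 1 ≤ L := by nlinarith
  have hL3 : C3 ≤ L := by nlinarith
  obtain ⟨_, hW, hO, _, h2⟩ := vs_ri hv
  have hA : Ri (A1 L a) := A1_ri hL1 a
  obtain ⟨hint, hle⟩ := F_core hL1 a h2 hr hr2
  refine ⟨hint, hle.trans ?_⟩
  have q := F_in hL1 a h2 r
  obtain ⟨hvc, hvi⟩ := F_vint hv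
  have hE := h1 L K a v hL1 hvc hvi hen
  have hphi : IntegrableOn (fun x => ph L a (x 2) * ‖v x‖ ^ 2) {x : E3 | rsq x < 1 / 2} := by
    apply Integrable.integrableOn
    refine hvi.mono' ?_ ?_
    · have c2 : Continuous (fun x : E3 => ph L a (x 2)) :=
        (ph_smooth L a).continuous.comp (by fun_prop)
      exact (c2.mul (hvc.norm.pow 2)).aestronglyMeasurable
    · refine Filter.Eventually.of_forall fun x => ?_
      have b1 := ph_pos L a (x 2)
      have b2 := ph_le L a (x 2)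
      rw [Real.norm_eq_abs, abs_of_nonneg (mul_nonneg b1.le (sq_nonneg _))]
      nlinarith only [sq_nonneg ‖v x‖, b2]
  have hcomp : ∀ x, v x 2 ^ 2 ≤ ‖v x‖ ^ 2 := by
    intro x
    rw [EuclideanSpace.norm_sq_eq]
    have : v x 2 ^ 2 = ‖v x 2‖ ^ 2 := by rw [Real.norm_eq_abs, sq_abs]
    rw [this]
    exact Finset.single_le_sum (f := fun i : Fin 3 => ‖v x i‖ ^ 2) (fun i _ => sq_nonneg _)
      (Finset.mem_univ 2)
  have q1 := F_set (L := L) (a := a) (c := 1) (w := A1 L a) (g := fun x => v x 2)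
    (F := fun x => ‖v x‖ ^ 2) zero_le_one
    (fun x => (A1_nn L a x).1) (fun x => by rw [one_mul]; exact (A1_nn L a x).2)
    (fun x hx => A1_zero L a hx) (F_Asq hL1 a h2) hphi hcomp
  have i2 : Integrable (fun x => |dh (A1 L a) x| * v x 2 ^ 2) := by
    have h5 := (F_int (hA.dh.mul h2) h2).abs
    refine h5.congr (Filter.Eventually.of_forall fun x => ?_)
    show |dh (A1 L a) x * v x 2 * v x 2| = |dh (A1 L a) x| * v x 2 ^ 2
    rw [mul_assoc, abs_mul, ← pow_two, abs_of_nonneg (sq_nonneg (v x 2))]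
  have q2 := F_set (L := L) (a := a) (c := C0) (w := fun x => |dh (A1 L a) x|)
    (g := fun x => v x 2) (F := fun x => ‖v x‖ ^ 2) (by linarith)
    (fun x => abs_nonneg _)
    (fun x => by
      have hph := ph_pos L a (x 2)
      refine ((h0 L a hL1 x).2.1).trans ?_
      apply mul_le_mul_of_nonneg_left _ (by linarith)
      have h4 : √(A1 L a x) ≤ √(ph L a (x 2)) := Real.sqrt_le_sqrt (A1_nn L a x).2
      calc √(A1 L a x) * √(ph L a (x 2)) ≤ √(ph L a (x 2)) * √(ph L a (x 2)) :=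
            mul_le_mul_of_nonneg_right h4 (Real.sqrt_nonneg _)
        _ = ph L a (x 2) := Real.mul_self_sqrt hph.le)
    (fun x hx => by
      have h6 := (h0 L a hL1 x).2.1
      rw [A1_zero L a hx, Real.sqrt_zero, zero_mul, mul_zero] at h6
      exact le_antisymm h6 (abs_nonneg _))
    i2 hphi hcomp
  have hG := hW.pd2
  have jG := F_Asq hL1 a hG
  have jO := F_Asq hL1 a hO
  have q3 : ∫ x, A1 L a x * dh (fun y => v y 2) x ^ 2 ≤
      2 * (∫ x, A1 L a x * pd 2 (sW v) x ^ 2) + 2 * ∫ x, A1 L a x * sO v x ^ 2 := by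
    rw [← integral_const_mul, ← integral_const_mul,
      ← integral_add (jG.const_mul 2) (jO.const_mul 2)]
    refine integral_mono (F_Asq hL1 a h2.dh) ((jG.const_mul 2).add (jO.const_mul 2)) fun x => ?_
    simp only
    rw [dh_v2 hv x]
    have b1 := (A1_nn L a x).1
    have b2 : (pd 2 (sW v) x - sO v x) ^ 2 ≤ 2 * pd 2 (sW v) x ^ 2 + 2 * sO v x ^ 2 := by
      linarith only [sq_nonneg (pd 2 (sW v) x + sO v x)]
    have := mul_le_mul_of_nonneg_left b2 b1
    linarith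
  have q4 := h3 L a v hL3 hv
  have q5 := h4 L a v hL1 hv
  have q6 : ∫ x, A1 L a x * sO v x ^ 2 = NO L a v := rfl
  rw [q6] at q3
  have p1 := F_DO L a v
  have p2 := F_GG L a v
  have p3 : 0 ≤ L * K := by positivity
  have r1 : (∫ x, A1 L a x * v x 2 ^ 2) ≤ C1 * (L * K) := by
    refine q1.trans ?_
    rw [one_mul]
    exact hE
  have r2 : (∫ x, |dh (A1 L a) x| * v x 2 ^ 2) ≤ C0 * C1 * (L * K) := by
    refine q2.trans ?_
    rw [mul_assoc]
    exact mul_le_mul_of_nonneg_left hE (by linarith)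
  have r3 : C0 * C1 * (L * K) + C1 * (L * K) + (2 * C3 + 2 * C4) * (DO L a v + GG L a v) ≤
      (C0 * C1 + C1 + 2 * C3 + 2 * C4) * (L * K + DO L a v + GG L a v) := by
    have s1 : 0 ≤ C0 * C1 + C1 := by positivity
    have s2 : 0 ≤ 2 * C3 + 2 * C4 := by linarith
    linarith only [mul_nonneg s1 (add_nonneg p1 p2), mul_nonneg s2 p3, p1, p2, p3, s1, s2]
  linarith

end Pool.Agent.H87.EP
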